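import Mathlib
import Pool.Agent.Work.MP_b30479_gt.TBS.Defs
import Pool.Agent.Work.MP_b30479_gt.TBS.TB.Tt
import Pool.Agent.Work.MP_b30479_gt.TBS.TB.Lob

section

/-!
# Arrays: vectors of weight index `S` in `V ⊗ V ⊗ V` and operators on two adjacent factors
-/

namespace Pool.Agent.Work.MP_b30479_gtS.TB

open Finset

/-- pairs with a given sum -/
abbrev AD (n : ℕ) : Finset (ℕ × ℕ) := HasAntidiagonal.antidiagonal n

lemma mem_AD {n : ℕ} {p : ℕ × ℕ} : p ∈ AD n ↔ p.1 + p.2 = n :=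
  HasAntidiagonal.mem_antidiagonal

/-- coordinates of a vector of `V ⊗ V ⊗ V` -/
abbrev Arr := ℕ → ℕ → ℕ → ℂ

/-- matrix of an operator on `V ⊗ V` that preserves `i + j`:
`e i j a b` is the coefficient of `e_a ⊗ e_b` in the image of `e_i ⊗ e_j` -/
abbrev Ent := ℕ → ℕ → ℕ → ℕ → ℂ

/-- action on `V ⊗ V` -/
def M (e : Ent) (Z : ℕ → ℕ → ℂ) : ℕ → ℕ → ℂ := fun a b =>
  ∑ p ∈ AD (a + b), e p.1 p.2 a b * Z p.1 p.2

/-- action on the first two factors -/
def L1 (e : Ent) (X : Arr) : Arr := fun a b c => M e (fun i j => X i j c) a b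

/-- action on the last two factors -/
def L2 (e : Ent) (X : Arr) : Arr := fun a b c => M e (fun i j => X a i j) b c

/-- the reflected Hermitian form -/
def HH (S : ℕ) (X Y : Arr) : ℂ :=
  ∑ p ∈ AD S, ∑ q ∈ AD p.2, star (X q.2 q.1 p.1) * Y p.1 q.1 q.2

lemma triple_rev (S : ℕ) (f : ℕ → ℕ → ℕ → ℂ) :
    ∑ p ∈ AD S, ∑ q ∈ AD p.2, f p.1 q.1 q.2 =
      ∑ p ∈ AD S, ∑ q ∈ AD p.2, f q.2 q.1 p.1 := by
  rw [Finset.sum_sigma', Finset.sum_sigma']
  refine Finset.sum_nbij'
    (fun x => ⟨(x.2.2, x.1.1 + x.2.1), (x.2.1, x.1.1)⟩)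
    (fun x => ⟨(x.2.2, x.1.1 + x.2.1), (x.2.1, x.1.1)⟩) ?_ ?_ ?_ ?_ ?_
  · rintro ⟨⟨a, b⟩, ⟨c, d⟩⟩ h
    simp only [mem_sigma, mem_AD] at h ⊢
    omega
  · rintro ⟨⟨a, b⟩, ⟨c, d⟩⟩ h
    simp only [mem_sigma, mem_AD] at h ⊢
    omega
  · rintro ⟨⟨a, b⟩, ⟨c, d⟩⟩ h
    simp only [mem_sigma, mem_AD] at h
    obtain ⟨_, rfl⟩ := h
    simp [add_comm]
  · rintro ⟨⟨a, b⟩, ⟨c, d⟩⟩ h
    simp only [mem_sigma, mem_AD] at h
    obtain ⟨_, rfl⟩ := h
    simp [add_comm]
  · rintro ⟨⟨a, b⟩, ⟨c, d⟩⟩ h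
    rfl

lemma HH_star (S : ℕ) (X Y : Arr) : star (HH S X Y) = HH S Y X := by
  unfold HH
  rw [star_sum]
  simp only [star_sum, star_mul', star_star]
  rw [triple_rev S (fun i j k => X k j i * star (Y i j k))]
  apply Finset.sum_congr rfl
  intro p _
  apply Finset.sum_congr rfl
  intro q _
  rw [mul_comm]

lemma HH_congr {S : ℕ} {X X' Y Y' : Arr} (hX : ∀ i j k, i + j + k = S → X i j k = X' i j k)
    (hY : ∀ i j k, i + j + k = S → Y i j k = Y' i j k) : HH S X Y = HH S X' Y' := by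
  unfold HH
  apply Finset.sum_congr rfl
  intro p hp
  apply Finset.sum_congr rfl
  intro q hq
  rw [mem_AD] at hp hq
  rw [hX _ _ _ (by omega), hY _ _ _ (by omega)]

lemma HH_add_right (S : ℕ) (X Y Z : Arr) :
    HH S X (fun i j k => Y i j k + Z i j k) = HH S X Y + HH S X Z := by
  unfold HH
  simp only [mul_add, Finset.sum_add_distrib]

lemma HH_smul_right (S : ℕ) (X Y : Arr) (a : ℂ) :
    HH S X (fun i j k => a * Y i j k) = a * HH S X Y := by
  unfold HH
  simp only [Finset.mul_sum]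
  apply Finset.sum_congr rfl
  intro p _
  apply Finset.sum_congr rfl
  intro q _
  ring

lemma HH_add_left (S : ℕ) (X Y Z : Arr) :
    HH S (fun i j k => Y i j k + Z i j k) X = HH S Y X + HH S Z X := by
  rw [← HH_star, HH_add_right, star_add, HH_star, HH_star]

lemma HH_smul_left (S : ℕ) (X Y : Arr) (a : ℂ) :
    HH S (fun i j k => a * Y i j k) X = star a * HH S Y X := by
  rw [← HH_star, HH_smul_right, star_mul', HH_star]

lemma HH_zero_right {S : ℕ} {X Y : Arr} (h : ∀ i j k, i + j + k = S → Y i j k = 0) :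
    HH S X Y = 0 := by
  unfold HH
  apply Finset.sum_eq_zero
  intro p hp
  apply Finset.sum_eq_zero
  intro q hq
  rw [mem_AD] at hp hq
  rw [h _ _ _ (by omega), mul_zero]

/-- `e'` is the adjoint of `e`, reflected -/
def IsDag (S : ℕ) (e e' : Ent) : Prop :=
  ∀ i j a b, i + j = a + b → a + b ≤ S → star (e i j a b) = e' b a j i

lemma IsDag.symm {S : ℕ} {e e' : Ent} (h : IsDag S e e') : IsDag S e' e := by
  intro i j a b hij hS
  rw [← h b a j i (by omega) (by omega), star_star]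

lemma HH_L1 {S : ℕ} {e e' : Ent} (h : IsDag S e e') (X Y : Arr) :
    HH S (L1 e X) Y = HH S X (L2 e' Y) := by
  unfold HH L1 L2 M
  apply Finset.sum_congr rfl
  intro p hp
  rw [mem_AD] at hp
  have e1 : ∑ q ∈ AD p.2, star (∑ r ∈ AD (q.2 + q.1),
        e r.1 r.2 q.2 q.1 * X r.1 r.2 p.1) * Y p.1 q.1 q.2 =
      ∑ q ∈ AD p.2, ∑ r ∈ AD p.2,
        e' q.1 q.2 r.2 r.1 * star (X r.1 r.2 p.1) * Y p.1 q.1 q.2 := by
    apply Finset.sum_congr rfl
    intro q hq
    rw [mem_AD] at hq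
    rw [show q.2 + q.1 = p.2 by omega, star_sum, Finset.sum_mul]
    apply Finset.sum_congr rfl
    intro r hr
    rw [mem_AD] at hr
    rw [star_mul', h r.1 r.2 q.2 q.1 (by omega) (by omega)]
  have e2 : ∑ q ∈ AD p.2, star (X q.2 q.1 p.1) * (∑ r ∈ AD (q.1 + q.2),
        e' r.1 r.2 q.1 q.2 * Y p.1 r.1 r.2) =
      ∑ q ∈ AD p.2, ∑ r ∈ AD p.2,
        e' r.1 r.2 q.1 q.2 * star (X q.2 q.1 p.1) * Y p.1 r.1 r.2 := by
    apply Finset.sum_congr rfl
    intro q hq
    rw [mem_AD] at hq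
    rw [hq, Finset.mul_sum]
    apply Finset.sum_congr rfl
    intro r hr
    ring
  rw [e1, e2, Finset.sum_comm,
    ← Finset.Nat.sum_antidiagonal_swap (f := fun q => ∑ r ∈ AD p.2,
        e' r.1 r.2 q.1 q.2 * star (X q.2 q.1 p.1) * Y p.1 r.1 r.2)]
  apply Finset.sum_congr rfl
  intro q _
  simp only [Prod.fst_swap, Prod.snd_swap]

lemma HH_L2 {S : ℕ} {e e' : Ent} (h : IsDag S e e') (X Y : Arr) :
    HH S (L2 e X) Y = HH S X (L1 e' Y) := by
  rw [← HH_star, ← HH_L1 h.symm, HH_star]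

end Pool.Agent.Work.MP_b30479_gtS.TB

end

section

namespace Pool.Agent.Work.MP_b30479_gtS

section
variable {A : Type*} [CommRing A] (t : A)

@[simp] lemma gauss_zero_right (n : ℕ) : gauss t n 0 = 1 := by cases n <;> rfl
@[simp] lemma gauss_zero_succ (k : ℕ) : gauss t 0 (k + 1) = 0 := rfl
lemma gauss_succ_succ (n k : ℕ) :
    gauss t (n + 1) (k + 1) = gauss t n k + t ^ (k + 1) * gauss t n (k + 1) := rfl

lemma gauss_eq_zero_of_lt {n k : ℕ} (h : n < k) : gauss t n k = 0 := by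
  induction n generalizing k with
  | zero => cases k with
    | zero => omega
    | succ k => rfl
  | succ n ih => cases k with
    | zero => omega
    | succ k => rw [gauss_succ_succ, ih (by omega), ih (by omega)]; simp

lemma gauss_mul_prod {n k : ℕ} (h : k ≤ n) :
    gauss t n k * ∏ i ∈ Finset.range k, (t ^ (i + 1) - 1) =
      ∏ i ∈ Finset.range k, (t ^ (n - i) - 1) := by
  induction n generalizing k with
  | zero => 
    have : k = 0 := by omega
    subst this; simp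
  | succ n ih =>
    cases k with
    | zero => simp
    | succ k =>
      rw [gauss_succ_succ]
      have h1 := ih (k := k) (by omega)
      have e3 : ∏ i ∈ Finset.range (k + 1), (t ^ (n + 1 - i) - 1) =
          (∏ i ∈ Finset.range k, (t ^ (n - i) - 1)) * (t ^ (n + 1) - 1) := by
        rw [Finset.prod_range_succ']
        simp
      rw [e3]
      rcases Nat.lt_or_ge n (k + 1) with hlt | hge
      · have hk : n = k := by omega
        subst hk
        rw [gauss_eq_zero_of_lt t (Nat.lt_succ_self n), Finset.prod_range_succ, ← h1]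
        ring
      · have h2 := ih (k := k + 1) hge
        have e4 : ∏ i ∈ Finset.range (k + 1), (t ^ (n - i) - 1) =
          (∏ i ∈ Finset.range k, (t ^ (n - i) - 1)) * (t ^ (n - k) - 1) := by
          rw [Finset.prod_range_succ]
        rw [e4] at h2
        have e5 : t ^ (n + 1) = t ^ (k + 1) * t ^ (n - k) := by
          rw [← pow_add]; congr 1; omega
        rw [add_mul, Finset.prod_range_succ, ← mul_assoc, h1, mul_assoc (t ^ (k + 1))]
        rw [Finset.prod_range_succ] at h2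
        rw [h2, e5]
        ring

/-- at a primitive `m`-th root of unity of a domain, `[m choose k] = 0` for `0 < k < m` -/
lemma gauss_primitive [IsDomain A] {m : ℕ} (ht : IsPrimitiveRoot t m) {k : ℕ} (hk0 : 0 < k)
    (hk : k < m) : gauss t m k = 0 := by
  have h := gauss_mul_prod t (n := m) (k := k) hk.le
  have hz : ∏ i ∈ Finset.range k, (t ^ (m - i) - 1) = 0 := by
    apply Finset.prod_eq_zero (Finset.mem_range.mpr hk0)
    simp [ht.pow_eq_one]
  rw [hz] at h
  rcases mul_eq_zero.mp h with h | h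
  · exact h
  · exfalso
    rw [Finset.prod_eq_zero_iff] at h
    obtain ⟨i, hi, hi0⟩ := h
    rw [Finset.mem_range] at hi
    exact ht.pow_ne_one_of_pos_of_lt (by omega) (by omega) (sub_eq_zero.mp hi0)

lemma gauss_shift [IsDomain A] {m : ℕ} (ht : IsPrimitiveRoot t m) (n : ℕ) {k : ℕ} (hk : k < m) :
    gauss t (m + n) k = gauss t n k := by
  induction n generalizing k with
  | zero =>
    cases k with
    | zero => simp
    | succ k => rw [Nat.add_zero, gauss_primitive t ht (Nat.succ_pos k) hk]; rfl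
  | succ n ih =>
    cases k with
    | zero => simp
    | succ k =>
      rw [← Nat.add_assoc, gauss_succ_succ, gauss_succ_succ, ih (by omega), ih hk]

lemma gauss_shift_mul [IsDomain A] {m : ℕ} (ht : IsPrimitiveRoot t m) (a n : ℕ) {k : ℕ}
    (hk : k < m) : gauss t (m * a + n) k = gauss t n k := by
  induction a with
  | zero => simp
  | succ a ih =>
    rw [Nat.mul_succ, Nat.add_comm (m * a) m, Nat.add_assoc, gauss_shift t ht _ hk, ih]

end

lemma gauss_map {A B : Type*} [CommRing A] [CommRing B] (f : A →+* B) (t : A) (n k : ℕ) :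
    f (gauss t n k) = gauss (f t) n k := by
  induction n generalizing k with
  | zero => cases k <;> simp
  | succ n ih => cases k with
    | zero => simp
    | succ k => rw [gauss_succ_succ, gauss_succ_succ, map_add, map_mul, map_pow, ih, ih]

end Pool.Agent.Work.MP_b30479_gtS

end

section

/-!
# The braiding at a primitive root of unity of order `2s+1`
-/

namespace Pool.Agent.Work.MP_b30479_gtS.TB

open Finset

/-- `(z; z)_k` -/
def qf (z : ℂ) (k : ℕ) : ℂ := ∏ x ∈ range k, (1 - z ^ (x + 1))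

@[simp] lemma qf_zero (z : ℂ) : qf z 0 = 1 := by simp [qf]

lemma qf_succ (z : ℂ) (k : ℕ) : qf z (k + 1) = qf z k * (1 - z ^ (k + 1)) := by
  unfold qf; rw [prod_range_succ]

lemma one_sub_pow_ne {s : ℕ} {z : ℂ} (h : IsPrimitiveRoot z (2 * s + 1)) {k : ℕ} (h0 : 0 < k)
    (hk : k ≤ 2 * s) : 1 - z ^ k ≠ 0 := by
  intro hc
  exact h.pow_ne_one_of_pos_of_lt (by omega) (by omega) (sub_eq_zero.mp hc).symm

lemma qf_ne_zero {s : ℕ} {z : ℂ} (h : IsPrimitiveRoot z (2 * s + 1)) {k : ℕ} (hk : k ≤ 2 * s) :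
    qf z k ≠ 0 := by
  unfold qf
  rw [prod_ne_zero_iff]
  intro x hx
  rw [mem_range] at hx
  exact one_sub_pow_ne h (by omega) (by omega)

lemma qf_add (z : ℂ) (j k : ℕ) :
    qf z (j + k) = qf z j * ∏ x ∈ range k, (1 - z ^ (j + 1 + x)) := by
  unfold qf
  rw [prod_range_add]
  congr 1
  apply prod_congr rfl
  intro x _
  congr 2
  ring

lemma star_root {s : ℕ} {z : ℂ} (h : IsPrimitiveRoot z (2 * s + 1)) : star z = z⁻¹ := by
  have h1 : ‖z‖ = 1 := h.norm'_eq_one (by omega)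
  have h0 : z ≠ 0 := h.ne_zero (by omega)
  have h2 : star z * z = 1 := by
    have := Complex.normSq_eq_conj_mul_self (z := z)
    rw [Complex.normSq_eq_norm_sq, h1] at this
    simpa using this.symm
  field_simp
  exact h2

lemma star_qf {s : ℕ} {z : ℂ} (h : IsPrimitiveRoot z (2 * s + 1)) (k : ℕ) :
    star (qf z k) = qf z⁻¹ k := by
  unfold qf
  rw [star_prod]
  apply prod_congr rfl
  intro x _
  rw [star_sub, star_one, star_pow, star_root h]

lemma qf_inv {s : ℕ} {z : ℂ} (h : IsPrimitiveRoot z (2 * s + 1)) (k : ℕ) :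
    qf z⁻¹ k * z ^ ((k + 1).choose 2) = (-1) ^ k * qf z k := by
  have h0 : z ≠ 0 := h.ne_zero (by omega)
  induction k with
  | zero => simp
  | succ k ih =>
    rw [qf_succ, qf_succ, Nat.choose_succ_succ' (k + 1) 1, Nat.choose_one_right]
    have e1 : (1 - z⁻¹ ^ (k + 1)) * z ^ (k + 1) = -(1 - z ^ (k + 1)) := by
      rw [inv_pow]
      field_simp
      ring
    calc qf z⁻¹ k * (1 - z⁻¹ ^ (k + 1)) * z ^ (k + 1 + (k + 1).choose 2)
        = (qf z⁻¹ k * z ^ ((k + 1).choose 2)) * ((1 - z⁻¹ ^ (k + 1)) * z ^ (k + 1)) := by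
          rw [pow_add]; ring
      _ = _ := by rw [ih, e1, pow_succ]; ring

/-- `[2s-i+k choose k]` at a root of unity of order `2s+1` -/
lemma gauss_closed {s : ℕ} {z : ℂ} (h : IsPrimitiveRoot z (2 * s + 1)) {i k : ℕ} (hk : k ≤ i)
    (hi : i ≤ 2 * s) : gauss z (2 * s - i + k) k = qf z⁻¹ i / (qf z⁻¹ (i - k) * qf z k) := by
  have h0 : z ≠ 0 := h.ne_zero (by omega)
  have hinv : IsPrimitiveRoot z⁻¹ (2 * s + 1) := h.inv
  have n1 : qf z⁻¹ (i - k) ≠ 0 := qf_ne_zero hinv (by omega)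
  have n2 : qf z k ≠ 0 := qf_ne_zero h (by omega)
  rw [eq_div_iff (mul_ne_zero n1 n2)]
  have h1 := gauss_mul_prod z (n := 2 * s - i + k) (k := k) (by omega)
  have e1 : ∏ x ∈ range k, (z ^ (x + 1) - 1) = (-1) ^ k * qf z k := by
    unfold qf
    rw [← Finset.card_range k, ← Finset.prod_const, Finset.card_range, ← prod_mul_distrib]
    apply prod_congr rfl
    intro x _
    ring
  have e2 : ∏ x ∈ range k, (z ^ (2 * s - i + k - x) - 1) =
      (-1) ^ k * ∏ x ∈ range k, (1 - z⁻¹ ^ (i - k + 1 + x)) := by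
    rw [← Finset.card_range k, ← Finset.prod_const, Finset.card_range, ← prod_mul_distrib]
    apply prod_congr rfl
    intro x hx
    rw [mem_range] at hx
    have : z ^ (2 * s - i + k - x) = z⁻¹ ^ (i - k + 1 + x) := by
      rw [inv_pow]
      apply eq_inv_of_mul_eq_one_left
      rw [← pow_add, show 2 * s - i + k - x + (i - k + 1 + x) = 2 * s + 1 by omega,
        h.pow_eq_one]
    rw [this]; ring
  rw [e1, e2] at h1
  have e3 : qf z⁻¹ i = qf z⁻¹ (i - k) * ∏ x ∈ range k, (1 - z⁻¹ ^ (i - k + 1 + x)) := by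
    rw [← qf_add, Nat.sub_add_cancel hk]
  rw [e3]
  have hm : ((-1 : ℂ)) ^ k ≠ 0 := pow_ne_zero _ (by norm_num)
  apply mul_left_cancel₀ hm
  calc (-1) ^ k * (gauss z (2 * s - i + k) k * (qf z⁻¹ (i - k) * qf z k))
      = (gauss z (2 * s - i + k) k * ((-1) ^ k * qf z k)) * qf z⁻¹ (i - k) := by ring
    _ = _ := by rw [h1]; ring

lemma prod_closed {s : ℕ} {z : ℂ} (h : IsPrimitiveRoot z (2 * s + 1)) {j : ℕ} (k : ℕ)
    (hj : j ≤ 2 * s) : ∏ x ∈ range k, (z ^ (j + 1 + x) - 1) = (-1) ^ k * qf z (j + k) / qf z j := by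
  have n1 : qf z j ≠ 0 := qf_ne_zero h hj
  rw [eq_div_iff n1, qf_add]
  have : ∏ x ∈ range k, (z ^ (j + 1 + x) - 1) = (-1) ^ k * ∏ x ∈ range k, (1 - z ^ (j + 1 + x)) := by
    rw [← Finset.card_range k, ← Finset.prod_const, Finset.card_range, ← prod_mul_distrib]
    apply prod_congr rfl
    intro x _
    ring
  rw [this]; ring

section
variable {s : ℕ} {u : ℂˣ} (h : IsPrimitiveRoot (u : ℂ) (2 * s + 1))
include h

lemma coeffPos_closed {i j k : ℕ} (hk : k ≤ i) (hi : i ≤ 2 * s) (hj : j ≤ 2 * s) :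
    coeffPos s u i j k =
      (u : ℂ) ^ ((k.choose 2 : ℤ) - s * k + ((s : ℤ) - i + k) * ((s : ℤ) - j - k)) * (-1) ^ k *
        (qf (u : ℂ)⁻¹ i * qf u (j + k) / (qf (u : ℂ)⁻¹ (i - k) * qf u k * qf u j)) := by
  have hinv : IsPrimitiveRoot (u : ℂ)⁻¹ (2 * s + 1) := h.inv
  have n1 : qf (u : ℂ)⁻¹ (i - k) ≠ 0 := qf_ne_zero hinv (by omega)
  have n2 : qf (u : ℂ) k ≠ 0 := qf_ne_zero h (by omega)
  have n3 : qf (u : ℂ) j ≠ 0 := qf_ne_zero h (by omega)
  unfold coeffPos
  rw [gauss_closed h hk hi, prod_closed h k hj, Units.val_zpow_eq_zpow_val]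
  field_simp

lemma coeffNeg_closed {i j k : ℕ} (hk : k ≤ j) (hi : i ≤ 2 * s) (hj : j ≤ 2 * s) :
    coeffNeg s u i j k =
      (u : ℂ) ^ (-(s : ℤ) * k - ((s : ℤ) - i) * ((s : ℤ) - j)) *
        (qf (u : ℂ)⁻¹ j * qf u (i + k) / (qf (u : ℂ)⁻¹ (j - k) * qf u k * qf u i)) := by
  have hinv : IsPrimitiveRoot (u : ℂ)⁻¹ (2 * s + 1) := h.inv
  have n1 : qf (u : ℂ)⁻¹ (j - k) ≠ 0 := qf_ne_zero hinv (by omega)
  have n2 : qf (u : ℂ) k ≠ 0 := qf_ne_zero h (by omega)
  have n3 : qf (u : ℂ) i ≠ 0 := qf_ne_zero h (by omega)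
  have hm : ((-1 : ℂ)) ^ k * (-1) ^ k = 1 := by rw [← mul_pow]; simp
  unfold coeffNeg
  rw [gauss_closed h hk hj, prod_closed h k hi, Units.val_zpow_eq_zpow_val]
  generalize (u : ℂ) ^ (-(s : ℤ) * k - ((s : ℤ) - i) * ((s : ℤ) - j)) = A
  generalize qf (u : ℂ)⁻¹ (j - k) = B at *
  generalize qf (u : ℂ)⁻¹ j = C
  calc (-1) ^ k * A * (C / (B * qf (↑u) k)) * ((-1) ^ k * qf (↑u) (i + k) / qf (↑u) i)
      = ((-1) ^ k * (-1) ^ k) * (A * (C / (B * qf (↑u) k)) * (qf (↑u) (i + k) / qf (↑u) i)) := by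
        ring
    _ = _ := by rw [hm]; field_simp

end

end Pool.Agent.Work.MP_b30479_gtS.TB

end

section

/-!
# The braiding commutes with `E`, and its adjoint
-/

namespace Pool.Agent.Work.MP_b30479_gtS.TB

open Finset

/-- coefficient form of: the operator `e` on `V ⊗ V` commutes with
`E (e_i ⊗ e_j) = (1 - t^{-i}) t^{s-j} e_{i-1} ⊗ e_j + (1 - t^{-j}) e_i ⊗ e_{j-1}` -/
def CommC (s : ℕ) (t : ℂ) (e : Ent) : Prop :=
  ∀ i j a b : ℕ, i + j = a + b + 1 → i + j ≤ 2 * s →
    (1 - t⁻¹ ^ (a + 1)) * t ^ ((s : ℤ) - b) * e i j (a + 1) b + (1 - t⁻¹ ^ (b + 1)) * e i j a (b + 1)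
      = (1 - t⁻¹ ^ i) * t ^ ((s : ℤ) - j) * e (i - 1) j a b + (1 - t⁻¹ ^ j) * e i (j - 1) a b

lemma entry_true (s : ℕ) (u : ℂˣ) (i j k b : ℕ) (h : b + k = i) :
    entry s u true i j (j + k) b = coeffPos s u i j k := by
  unfold entry
  simp only [if_true]
  rw [if_pos (by omega), Nat.add_sub_cancel_left]

lemma entry_true_zero (s : ℕ) (u : ℂˣ) (i j a b : ℕ) (h : a < j) :
    entry s u true i j a b = 0 := by
  unfold entry
  simp only [if_true]
  rw [if_neg (by omega)]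

lemma entry_false (s : ℕ) (u : ℂˣ) (i j k a : ℕ) (h : a + k = j) :
    entry s u false i j a (i + k) = coeffNeg s u i j k := by
  unfold entry
  simp only [Bool.false_eq_true, if_false]
  rw [if_pos (by omega), Nat.add_sub_cancel_left]

lemma entry_false_zero (s : ℕ) (u : ℂˣ) (i j a b : ℕ) (h : b < i) :
    entry s u false i j a b = 0 := by
  unfold entry
  simp only [Bool.false_eq_true, if_false]
  rw [if_neg (by omega)]

lemma alg_pos (X Y : ℂ) (hX : X ≠ 0) (hY : Y ≠ 0) :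
    -(1 - X⁻¹ * Y⁻¹) * X⁻¹ * (1 - X * Y) + (1 - Y) =
      X⁻¹ ^ 2 * Y⁻¹ * (1 - Y) - (1 - X⁻¹) * X⁻¹ * (1 - X) := by
  field_simp
  ring

lemma alg_neg (X Y : ℂ) (hX : X ≠ 0) (hY : Y ≠ 0) :
    X⁻¹ * Y⁻¹ * (1 - Y) + (1 - X⁻¹ * Y⁻¹) * (1 - X * Y) =
      (1 - X⁻¹) * (1 - X) + X * (1 - Y) := by
  field_simp
  ring

section
variable {s : ℕ} {u : ℂˣ} (h : IsPrimitiveRoot (u : ℂ) (2 * s + 1))
include h


omit h in
lemma coeffPos_zero (i j : ℕ) :
    coeffPos s u i j 0 = (u : ℂ) ^ (((s : ℤ) - i) * ((s : ℤ) - j)) := by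
  unfold coeffPos
  rw [Units.val_zpow_eq_zpow_val]
  simp

omit h in
lemma coeffNeg_zero (i j : ℕ) :
    coeffNeg s u i j 0 = (u : ℂ) ^ (-(((s : ℤ) - i) * ((s : ℤ) - j))) := by
  unfold coeffNeg
  rw [Units.val_zpow_eq_zpow_val]
  simp

lemma commC_true : CommC s (u : ℂ) (entry s u true) := by
  intro i j a b hij hS
  have hinv : IsPrimitiveRoot (u : ℂ)⁻¹ (2 * s + 1) := h.inv
  have h0 : (u : ℂ) ≠ 0 := u.ne_zero
  rcases lt_trichotomy (a + 1) j with hlt | heq | hgt
  · rw [entry_true_zero _ _ _ _ _ _ hlt, entry_true_zero _ _ _ _ _ _ (by omega),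
      entry_true_zero _ _ _ _ _ _ (by omega), entry_true_zero _ _ _ _ _ _ (by omega)]
    ring
  · subst heq
    have hb : b = i := by omega
    subst hb
    have e1 := entry_true s u b (a + 1) 0 b (by omega)
    have e2 := entry_true s u b a 0 b (by omega)
    rw [Nat.add_zero] at e1 e2
    rw [e1, entry_true_zero s u b (a + 1) a (b + 1) (by omega),
      entry_true_zero s u (b - 1) (a + 1) a b (by omega)]
    rw [Nat.add_sub_cancel, e2, coeffPos_zero, coeffPos_zero]
    have e3 : (u : ℂ) ^ ((s : ℤ) - b) * (u : ℂ) ^ (((s : ℤ) - b) * ((s : ℤ) - ((a + 1 : ℕ) : ℤ))) =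
        (u : ℂ) ^ (((s : ℤ) - b) * ((s : ℤ) - a)) := by
      rw [← zpow_add₀ h0]
      congr 1
      push_cast
      ring
    linear_combination (1 - (u : ℂ)⁻¹ ^ (a + 1)) * e3
  · obtain ⟨k, rfl⟩ : ∃ k, a = j + k := ⟨a - j, by omega⟩
    have hi : i = b + k + 1 := by omega
    subst hi
    have p1 := entry_true s u (b + k + 1) j (k + 1) b (by omega)
    rw [← Nat.add_assoc] at p1
    have p2 := entry_true s u (b + k + 1) j k (b + 1) (by omega)
    have p3 := entry_true s u (b + k) j k b (by omega)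
    rw [p1, p2, Nat.add_sub_cancel, p3]
    -- closed forms
    have c1 := coeffPos_closed h (i := b + k + 1) (j := j) (k := k + 1) (by omega) (by omega)
      (by omega)
    have c2 := coeffPos_closed h (i := b + k + 1) (j := j) (k := k) (by omega) (by omega)
      (by omega)
    have c3 := coeffPos_closed h (i := b + k) (j := j) (k := k) (by omega) (by omega)
      (by omega)
    rw [show b + k + 1 - (k + 1) = b by omega, show j + (k + 1) = j + k + 1 by ring] at c1
    rw [show b + k + 1 - k = b + 1 by omega] at c2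
    rw [show b + k - k = b by omega] at c3
    have nb : qf (u : ℂ)⁻¹ b ≠ 0 := qf_ne_zero hinv (by omega)
    have nb1 : 1 - (u : ℂ)⁻¹ ^ (b + 1) ≠ 0 := one_sub_pow_ne hinv (by omega) (by omega)
    have nk : qf (u : ℂ) k ≠ 0 := qf_ne_zero h (by omega)
    have nk1 : 1 - (u : ℂ) ^ (k + 1) ≠ 0 := one_sub_pow_ne h (by omega) (by omega)
    have nj : qf (u : ℂ) j ≠ 0 := qf_ne_zero h (by omega)
    set E : ℂ := (u : ℂ) ^ ((k.choose 2 : ℤ) - s * k +
      ((s : ℤ) - (b + k + 1 : ℕ) + k) * ((s : ℤ) - j - k)) with hE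
    set D : ℂ := (-1) ^ k * (qf (u : ℂ)⁻¹ (b + k) * qf (u : ℂ) (j + k) /
      (qf (u : ℂ)⁻¹ b * (qf (u : ℂ) k * (1 - (u : ℂ) ^ (k + 1))) * qf (u : ℂ) j)) with hD
    have hP1 : (u : ℂ) ^ ((s : ℤ) - b) * coeffPos s u (b + k + 1) j (k + 1) =
        -(E * (u : ℂ)⁻¹ ^ j * (1 - (u : ℂ)⁻¹ ^ (b + k + 1)) * (1 - (u : ℂ) ^ (j + k + 1)) * D) := by
      rw [c1, qf_succ _ (b + k), qf_succ _ (j + k), qf_succ _ k]
      have e1 : (u : ℂ) ^ ((s : ℤ) - b) * (u : ℂ) ^ (((k + 1).choose 2 : ℤ) - s * ((k + 1 : ℕ) : ℤ) +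
          ((s : ℤ) - (b + k + 1 : ℕ) + ((k + 1 : ℕ) : ℤ)) * ((s : ℤ) - j - ((k + 1 : ℕ) : ℤ))) =
          E * (u : ℂ)⁻¹ ^ j := by
        rw [hE, inv_pow, ← zpow_natCast, ← zpow_neg, ← zpow_add₀ h0, ← zpow_add₀ h0]
        congr 1
        rw [Nat.choose_succ_succ' k 1, Nat.choose_one_right]
        push_cast
        ring
      rw [hD, pow_succ]
      calc _ = ((u : ℂ) ^ ((s : ℤ) - b) * (u : ℂ) ^ (((k + 1).choose 2 : ℤ) -
          s * ((k + 1 : ℕ) : ℤ) + ((s : ℤ) - (b + k + 1 : ℕ) + ((k + 1 : ℕ) : ℤ)) *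
          ((s : ℤ) - j - ((k + 1 : ℕ) : ℤ)))) * ((-1) ^ k * -1) *
          (qf (u : ℂ)⁻¹ (b + k) * (1 - (u : ℂ)⁻¹ ^ (b + k + 1)) *
            (qf (u : ℂ) (j + k) * (1 - (u : ℂ) ^ (j + k + 1))) /
              (qf (u : ℂ)⁻¹ b * (qf (u : ℂ) k * (1 - (u : ℂ) ^ (k + 1))) * qf (u : ℂ) j)) := by
            ring
        _ = _ := by rw [e1]; ring
    have hP2 : (1 - (u : ℂ)⁻¹ ^ (b + 1)) * coeffPos s u (b + k + 1) j k =
        E * (1 - (u : ℂ)⁻¹ ^ (b + k + 1)) * (1 - (u : ℂ) ^ (k + 1)) * D := by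
      rw [c2, qf_succ _ (b + k), qf_succ _ b, hD]
      have : (1 - (u : ℂ)⁻¹ ^ (b + 1)) * (qf (u : ℂ)⁻¹ (b + k) * (1 - (u : ℂ)⁻¹ ^ (b + k + 1)) *
          qf (u : ℂ) (j + k) / (qf (u : ℂ)⁻¹ b * (1 - (u : ℂ)⁻¹ ^ (b + 1)) * qf (u : ℂ) k *
            qf (u : ℂ) j)) = (1 - (u : ℂ)⁻¹ ^ (b + k + 1)) * (1 - (u : ℂ) ^ (k + 1)) *
          (qf (u : ℂ)⁻¹ (b + k) * qf (u : ℂ) (j + k) /
      (qf (u : ℂ)⁻¹ b * (qf (u : ℂ) k * (1 - (u : ℂ) ^ (k + 1))) * qf (u : ℂ) j)) := by
        generalize qf (u : ℂ)⁻¹ b = B at *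
        generalize qf (u : ℂ)⁻¹ (b + k) = B' at *
        generalize (u : ℂ)⁻¹ ^ (b + 1) = B2 at *
        generalize (u : ℂ)⁻¹ ^ (b + k + 1) = B3 at *
        field_simp
      linear_combination (E * (-1) ^ k) * this
    have hP3 : (u : ℂ) ^ ((s : ℤ) - j) * coeffPos s u (b + k) j k =
        E * ((u : ℂ)⁻¹ ^ j) ^ 2 * (u : ℂ)⁻¹ ^ (k + 1) * (1 - (u : ℂ) ^ (k + 1)) * D := by
      rw [c3, hD]
      have e1 : (u : ℂ) ^ ((s : ℤ) - j) * (u : ℂ) ^ ((k.choose 2 : ℤ) - s * (k : ℤ) +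
          ((s : ℤ) - (b + k : ℕ) + (k : ℤ)) * ((s : ℤ) - j - (k : ℤ))) =
          E * ((u : ℂ)⁻¹ ^ j) ^ 2 * (u : ℂ)⁻¹ ^ (k + 1) := by
        have e2 : (u : ℂ) ^ (2 * (s : ℤ) + 1) = 1 := by
          have := h.pow_eq_one
          rw [← zpow_natCast] at this
          push_cast at this
          exact this
        rw [hE, ← pow_mul, inv_pow, inv_pow, ← zpow_natCast, ← zpow_natCast, ← zpow_neg,
          ← zpow_neg, ← zpow_add₀ h0, ← zpow_add₀ h0, ← zpow_add₀ h0]
        rw [← mul_one ((u : ℂ) ^ ((k.choose 2 : ℤ) - s * k +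
          ((s : ℤ) - (b + k + 1 : ℕ) + k) * ((s : ℤ) - j - k) + -((j * 2 : ℕ) : ℤ) +
            -((k + 1 : ℕ) : ℤ))), ← e2, ← zpow_add₀ h0]
        congr 1
        push_cast
        ring
      have e3 : qf (u : ℂ)⁻¹ (b + k) * qf (u : ℂ) (j + k) /
          (qf (u : ℂ)⁻¹ b * qf (u : ℂ) k * qf (u : ℂ) j) = (1 - (u : ℂ) ^ (k + 1)) *
          (qf (u : ℂ)⁻¹ (b + k) * qf (u : ℂ) (j + k) /
      (qf (u : ℂ)⁻¹ b * (qf (u : ℂ) k * (1 - (u : ℂ) ^ (k + 1))) * qf (u : ℂ) j)) := by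
        generalize qf (u : ℂ)⁻¹ b = B at *
        generalize qf (u : ℂ)⁻¹ (b + k) = B' at *
        field_simp
      rw [e3]
      linear_combination ((-1) ^ k * (1 - (u : ℂ) ^ (k + 1)) *
          (qf (u : ℂ)⁻¹ (b + k) * qf (u : ℂ) (j + k) /
      (qf (u : ℂ)⁻¹ b * (qf (u : ℂ) k * (1 - (u : ℂ) ^ (k + 1))) * qf (u : ℂ) j))) * e1
    have hP4 : (1 - (u : ℂ)⁻¹ ^ j) * entry s u true (b + k + 1) (j - 1) (j + k) b =
        -((1 - (u : ℂ)⁻¹ ^ j) * (E * (u : ℂ)⁻¹ ^ j * (1 - (u : ℂ)⁻¹ ^ (b + k + 1)) *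
          (1 - (u : ℂ) ^ j) * D)) := by
      cases j with
      | zero => simp
      | succ j =>
        have p4 := entry_true s u (b + k + 1) j (k + 1) b (by omega)
        rw [show j + (k + 1) = j + 1 + k by ring] at p4
        have c4 := coeffPos_closed h (i := b + k + 1) (j := j) (k := k + 1) (by omega) (by omega)
          (by omega)
        rw [show b + k + 1 - (k + 1) = b by omega, show j + (k + 1) = j + 1 + k by ring] at c4
        rw [Nat.add_sub_cancel, p4, c4]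
        have e1 : (u : ℂ) ^ (((k + 1).choose 2 : ℤ) - s * ((k + 1 : ℕ) : ℤ) +
            ((s : ℤ) - (b + k + 1 : ℕ) + ((k + 1 : ℕ) : ℤ)) * ((s : ℤ) - j - ((k + 1 : ℕ) : ℤ))) =
            E * (u : ℂ)⁻¹ ^ (j + 1) := by
          rw [hE, inv_pow, ← zpow_natCast, ← zpow_neg, ← zpow_add₀ h0]
          congr 1
          rw [Nat.choose_succ_succ' k 1, Nat.choose_one_right]
          push_cast
          ring
        have nj' : qf (u : ℂ) j ≠ 0 := qf_ne_zero h (by omega)
        have nj1 : 1 - (u : ℂ) ^ (j + 1) ≠ 0 := one_sub_pow_ne h (by omega) (by omega)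
        rw [e1, hD, qf_succ _ (b + k), qf_succ _ k, qf_succ _ j, pow_succ]
        generalize qf (u : ℂ)⁻¹ b = B at *
        generalize qf (u : ℂ)⁻¹ (b + k) = B' at *
        generalize (u : ℂ)⁻¹ ^ (b + k + 1) = B3 at *
        generalize (u : ℂ)⁻¹ ^ (j + 1) = B4 at *
        generalize E = E' at *
        field_simp
        ring
    have hX : (u : ℂ) ^ j ≠ 0 := pow_ne_zero _ h0
    have hY : (u : ℂ) ^ (k + 1) ≠ 0 := pow_ne_zero _ h0
    have key := alg_pos ((u : ℂ) ^ j) ((u : ℂ) ^ (k + 1)) hX hY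
    simp only [← inv_pow] at key
    have q1 : (u : ℂ)⁻¹ ^ (j + k + 1) = (u : ℂ)⁻¹ ^ j * (u : ℂ)⁻¹ ^ (k + 1) := by
      rw [← pow_add, Nat.add_assoc]
    have q2 : (u : ℂ) ^ (j + k + 1) = (u : ℂ) ^ j * (u : ℂ) ^ (k + 1) := by
      rw [← pow_add, Nat.add_assoc]
    rw [q2] at hP1
    rw [q1]
    linear_combination (1 - (u : ℂ)⁻¹ ^ j * (u : ℂ)⁻¹ ^ (k + 1)) * hP1 + hP2 -
      (1 - (u : ℂ)⁻¹ ^ (b + k + 1)) * hP3 - hP4 +
      (E * (1 - (u : ℂ)⁻¹ ^ (b + k + 1)) * D) * key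

end

end Pool.Agent.Work.MP_b30479_gtS.TB

end

section

/-!
# The Casimir operator of `V ⊗ V`
-/

namespace Pool.Agent.Work.MP_b30479_gtS.TB

open Finset

/-- diagonal entries of the Casimir operator -/
noncomputable def dg (s : ℕ) (t : ℂ) (i j : ℕ) : ℂ :=
  2 * t ^ s * t⁻¹ ^ j + 2 * t ^ (s + 1) * t ^ i - t ^ s * t ^ i * t⁻¹ ^ j -
    t ^ (s + 1) * t ^ i * t⁻¹ ^ j

/-- the Casimir operator of `V ⊗ V` -/
noncomputable def cas (s : ℕ) (t : ℂ) : Ent := fun i j a b =>
  if a = i ∧ b = j then dg s t i j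
  else if a = i + 1 ∧ b + 1 = j then (1 - t ^ (i + 1)) * (1 - t⁻¹ ^ j)
  else if a + 1 = i ∧ b = j + 1 then (1 - t⁻¹ ^ i) * (1 - t ^ (j + 1)) * (t ^ i * t⁻¹ ^ (j + 1))
  else 0

lemma cas_diag (s : ℕ) (t : ℂ) (i j : ℕ) : cas s t i j i j = dg s t i j := by
  unfold cas; simp

lemma cas_up (s : ℕ) (t : ℂ) (i j : ℕ) :
    cas s t i (j + 1) (i + 1) j = (1 - t ^ (i + 1)) * (1 - t⁻¹ ^ (j + 1)) := by
  unfold cas
  rw [if_neg (by omega), if_pos (by omega)]

lemma cas_dn (s : ℕ) (t : ℂ) (i j : ℕ) :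
    cas s t (i + 1) j i (j + 1) =
      (1 - t⁻¹ ^ (i + 1)) * (1 - t ^ (j + 1)) * (t ^ (i + 1) * t⁻¹ ^ (j + 1)) := by
  unfold cas
  rw [if_neg (by omega), if_neg (by omega), if_pos (by omega)]

lemma cas_zero (s : ℕ) (t : ℂ) (i j a b : ℕ) (h0 : a ≠ i) (h1 : a ≠ i + 1) (h2 : a + 1 ≠ i) :
    cas s t i j a b = 0 := by
  unfold cas
  rw [if_neg (by tauto), if_neg (by tauto), if_neg (by tauto)]

lemma zp {s : ℕ} {t : ℂ} (ht : t ≠ 0) (j : ℕ) : t ^ ((s : ℤ) - j) = t ^ s * t⁻¹ ^ j := by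
  rw [zpow_sub₀ ht, zpow_natCast, zpow_natCast, inv_pow]
  rfl

lemma sq_mul {s : ℕ} {t : ℂ} (h : IsPrimitiveRoot t (2 * s + 1)) : (t ^ s) ^ 2 * t = 1 := by
  rw [← h.pow_eq_one]; ring

lemma eq_inv_sq {V t : ℂ} (h : V ^ 2 * t = 1) : t = (V ^ 2)⁻¹ ∧ V ≠ 0 := by
  have hV : V ≠ 0 := by rintro rfl; simp at h
  refine ⟨?_, hV⟩
  field_simp
  linear_combination h

lemma commC_cas {s : ℕ} {t : ℂ} (h : IsPrimitiveRoot t (2 * s + 1)) : CommC s t (cas s t) := by
  intro i j a b hij hS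
  have h0 : t ≠ 0 := h.ne_zero (by omega)
  have hV := sq_mul h
  rw [zp h0, zp h0]
  rcases lt_trichotomy (a + 1) i with hlt | heq | hgt
  · rcases Nat.lt_or_ge (a + 2) i with h3 | h3
    · rw [cas_zero _ _ _ _ _ _ (by omega) (by omega) (by omega),
        cas_zero _ _ _ _ _ _ (by omega) (by omega) (by omega),
        cas_zero _ _ _ _ _ _ (by omega) (by omega) (by omega),
        cas_zero _ _ _ _ _ _ (by omega) (by omega) (by omega)]
      ring
    · have hi : i = a + 2 := by omega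
      subst hi
      have hb : b = j + 1 := by omega
      subst hb
      have e1 := cas_dn s t (a + 1) j
      have e2 := cas_dn s t a j
      rw [show a + 1 + 1 = a + 2 by ring] at e1
      rw [e1, show a + 2 - 1 = a + 1 by omega, e2,
        cas_zero s t (a + 2) j a (j + 1 + 1) (by omega) (by omega) (by omega),
        cas_zero s t (a + 2) (j - 1) a (j + 1) (by omega) (by omega) (by omega)]
      have e3 : t ^ (a + 2) = t ^ a * t * t := by ring
      have e4 : t⁻¹ ^ (a + 2) = t⁻¹ ^ a * t⁻¹ * t⁻¹ := by ring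
      rw [e3, e4, pow_succ t a, pow_succ t j, pow_succ t⁻¹ a, pow_succ t⁻¹ j, inv_pow, inv_pow]
      have nx : t ^ a ≠ 0 := pow_ne_zero _ h0
      have ny : t ^ j ≠ 0 := pow_ne_zero _ h0
      generalize t ^ s = V at *
      generalize t ^ a = x at *
      generalize t ^ j = y at *
      field_simp
      ring
  · subst heq
    have hb : b = j := by omega
    subst hb
    rw [cas_diag, Nat.add_sub_cancel, cas_diag, cas_dn]
    rcases Nat.eq_zero_or_pos b with hj | hj
    · subst hj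
      simp only [pow_zero, sub_self, zero_mul, add_zero, zero_add]
      unfold dg
      rw [pow_succ t s, pow_succ t a, pow_succ t⁻¹ a, inv_pow, pow_one, pow_one]
      simp only [pow_zero, mul_one]
      have nx : t ^ a ≠ 0 := pow_ne_zero _ h0
      generalize t ^ s = V at *
      generalize t ^ a = x at *
      obtain ⟨ht, hV0⟩ := eq_inv_sq hV
      rw [ht]
      field_simp
      ring
    · obtain ⟨j, rfl⟩ : ∃ j, b = j + 1 := ⟨b - 1, by omega⟩
      rw [Nat.add_sub_cancel, cas_dn]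
      unfold dg
      simp only [pow_succ, inv_pow]
      have nx : t ^ a ≠ 0 := pow_ne_zero _ h0
      have ny : t ^ j ≠ 0 := pow_ne_zero _ h0
      generalize t ^ s = V at *
      generalize t ^ a = x at *
      generalize t ^ j = y at *
      obtain ⟨ht, hV0⟩ := eq_inv_sq hV
      rw [ht]
      field_simp
      ring
  · rcases Nat.lt_or_ge a (i + 1) with h3 | h3
    · have hi : a = i := by omega
      subst hi
      obtain ⟨j, rfl⟩ : ∃ j', j = j' + 1 := ⟨j - 1, by omega⟩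
      have hb : b = j := by omega
      subst hb
      rw [cas_diag, Nat.add_sub_cancel, cas_diag, cas_up]
      rcases Nat.eq_zero_or_pos a with hi | hi
      · subst hi
        simp only [pow_zero, sub_self, zero_mul, add_zero, zero_add]
        unfold dg
        rw [pow_succ t s, pow_succ t⁻¹ b, inv_pow]
        simp only [pow_zero, mul_one]
        have ny : t ^ b ≠ 0 := pow_ne_zero _ h0
        generalize t ^ s = V at *
        generalize t ^ b = y at *
        obtain ⟨ht, hV0⟩ := eq_inv_sq hV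
        rw [ht]
        field_simp
        ring
      · obtain ⟨i, rfl⟩ : ∃ i, a = i + 1 := ⟨a - 1, by omega⟩
        rw [Nat.add_sub_cancel, cas_up]
        unfold dg
        simp only [pow_succ, inv_pow]
        have nx : t ^ i ≠ 0 := pow_ne_zero _ h0
        have ny : t ^ b ≠ 0 := pow_ne_zero _ h0
        generalize t ^ s = V at *
        generalize t ^ i = x at *
        generalize t ^ b = y at *
        obtain ⟨ht, hV0⟩ := eq_inv_sq hV
        rw [ht]
        field_simp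
        ring
    · rcases Nat.lt_or_ge (i + 1) a with h4 | h4
      · rw [cas_zero _ _ _ _ _ _ (by omega) (by omega) (by omega),
          cas_zero _ _ _ _ _ _ (by omega) (by omega) (by omega),
          cas_zero _ _ _ _ _ _ (by omega) (by omega) (by omega),
          cas_zero _ _ _ _ _ _ (by omega) (by omega) (by omega)]
        ring
      · have ha : a = i + 1 := by omega
        subst ha
        obtain ⟨j, rfl⟩ : ∃ j', j = j' + 2 := ⟨j - 2, by omega⟩
        have hb : b = j := by omega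
        subst hb
        have e1 := cas_up s t i (b + 1)
        have e2 := cas_up s t i b
        rw [show b + 1 + 1 = b + 2 by ring] at e1
        have e3 : (1 - t⁻¹ ^ i) * cas s t (i - 1) (b + 2) (i + 1) b = 0 := by
          rcases Nat.eq_zero_or_pos i with hi | hi
          · subst hi; simp
          · rw [cas_zero s t (i - 1) (b + 2) (i + 1) b (by omega) (by omega) (by omega), mul_zero]
        rw [e1, show b + 2 - 1 = b + 1 by omega, e2,
          cas_zero s t i (b + 2) (i + 1 + 1) b (by omega) (by omega) (by omega)]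
        linear_combination -(t ^ s * t⁻¹ ^ (b + 2)) * e3

lemma isDag_cas {s : ℕ} {t : ℂ} (h : IsPrimitiveRoot t (2 * s + 1)) (S : ℕ) :
    IsDag S (cas s t) (cas s t) := by
  intro i j a b hij hab
  have h0 : t ≠ 0 := h.ne_zero (by omega)
  have hV := sq_mul h
  have hs : star t = t⁻¹ := star_root h
  rcases lt_trichotomy a i with hlt | heq | hgt
  · rcases Nat.lt_or_ge (a + 1) i with h3 | h3
    · rw [cas_zero _ _ _ _ _ _ (by omega) (by omega) (by omega),
        cas_zero _ _ _ _ _ _ (by omega) (by omega) (by omega), star_zero]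
    · have hi : i = a + 1 := by omega
      subst hi
      have hb : b = j + 1 := by omega
      subst hb
      rw [cas_dn, cas_dn]
      rw [star_mul', star_mul', star_mul', star_sub, star_sub, star_one, star_pow, star_pow,
        star_pow, star_pow, star_inv₀, hs, inv_inv]
      simp only [pow_succ, inv_pow]
      have nx : t ^ a ≠ 0 := pow_ne_zero _ h0
      have ny : t ^ j ≠ 0 := pow_ne_zero _ h0
      generalize t ^ a = x at *
      generalize t ^ j = y at *
      field_simp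
  · subst heq
    have hb : b = j := by omega
    subst hb
    rw [cas_diag, cas_diag]
    unfold dg
    simp only [star_sub, star_add, star_mul', star_pow, star_inv₀, hs, inv_inv, star_ofNat]
    simp only [pow_succ, inv_pow]
    have nx : t ^ a ≠ 0 := pow_ne_zero _ h0
    have ny : t ^ b ≠ 0 := pow_ne_zero _ h0
    generalize t ^ s = V at *
    generalize t ^ a = x at *
    generalize t ^ b = y at *
    obtain ⟨ht, hV0⟩ := eq_inv_sq hV
    rw [ht]
    field_simp
    ring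
  · rcases Nat.lt_or_ge (i + 1) a with h3 | h3
    · rw [cas_zero _ _ _ _ _ _ (by omega) (by omega) (by omega),
        cas_zero _ _ _ _ _ _ (by omega) (by omega) (by omega), star_zero]
    · have ha : a = i + 1 := by omega
      subst ha
      obtain ⟨j, rfl⟩ : ∃ j', j = j' + 1 := ⟨j - 1, by omega⟩
      have hb : b = j := by omega
      subst hb
      rw [cas_up, cas_up]
      rw [star_mul', star_sub, star_sub, star_one, star_pow, star_pow, star_inv₀, hs, inv_inv]
      ring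

end Pool.Agent.Work.MP_b30479_gtS.TB

end

section

/-!
# Definitions for the trace formula
-/

namespace Pool.Agent.Work.MP_b30479_gtS.AX

open Finset Polynomial TB

/-- index set of `V ⊗ V` -/
abbrev I2 (s : ℕ) := Fin (2 * s + 1) × Fin (2 * s + 1)

/-- `V ⊗ V ⊗ V`: the first argument is the third tensor index -/
abbrev V3 (s : ℕ) := Fin (2 * s + 1) → (I2 s → ℂ)

/-- the braiding (`b = true`) and its inverse (`b = false`) on `V ⊗ V` (row = output) -/
noncomputable def Rm (s : ℕ) (u : ℂˣ) (b : Bool) : Matrix (I2 s) (I2 s) ℂ := fun p q =>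
  entry s u b q.1 q.2 p.1 p.2

/-- the Casimir operator on `V ⊗ V` -/
noncomputable def Cm (s : ℕ) (t : ℂ) : Matrix (I2 s) (I2 s) ℂ := fun p q => cas s t q.1 q.2 p.1 p.2

/-- the operator `E` on `V ⊗ V` -/
noncomputable def Em (s : ℕ) (t : ℂ) : Matrix (I2 s) (I2 s) ℂ := fun p q =>
  (if (q.1 : ℕ) = p.1 + 1 ∧ q.2 = p.2 then (1 - t⁻¹ ^ ((p.1 : ℕ) + 1)) * t ^ ((s : ℤ) - (p.2 : ℕ))
    else 0) +
  (if q.1 = p.1 ∧ (q.2 : ℕ) = p.2 + 1 then 1 - t⁻¹ ^ ((p.2 : ℕ) + 1) else 0)

/-- eigenvalues of the Casimir operator -/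
noncomputable def xx (s : ℕ) (t : ℂ) (b : ℕ) : ℂ := t ^ s * t⁻¹ ^ b + t ^ (s + 1) * t ^ b

/-- the Casimir operator `C_{23}` on the kernel of `E`, in the coordinates `X(i, j, 0)` -/
noncomputable def Um (s : ℕ) (t : ℂ) : Matrix (I2 s) (I2 s) ℂ := fun p q =>
  if q = p then xx s t p.2
  else if (q.1 : ℕ) = p.1 + 1 ∧ (q.2 : ℕ) + 1 = p.2 then
    (1 - t⁻¹ ^ (p.2 : ℕ)) * (1 - t⁻¹ ^ ((p.1 : ℕ) + 1))
  else 0

/-- the operator `E` on `V ⊗ V ⊗ V` -/
noncomputable def E3 (s : ℕ) (t : ℂ) : Module.End ℂ (V3 s) where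
  toFun X k := t ^ ((s : ℤ) - (k : ℕ)) • (Em s t).mulVec (X k) +
    if h : (k : ℕ) + 1 < 2 * s + 1 then (1 - t⁻¹ ^ ((k : ℕ) + 1)) • X ⟨(k : ℕ) + 1, h⟩ else 0
  map_add' X Y := by
    funext k
    by_cases h : (k : ℕ) + 1 < 2 * s + 1
    · simp only [Pi.add_apply, dif_pos h, Matrix.mulVec_add, smul_add]
      abel
    · simp only [Pi.add_apply, dif_neg h, Matrix.mulVec_add, smul_add, add_zero]
  map_smul' c X := by
    funext k
    by_cases h : (k : ℕ) + 1 < 2 * s + 1
    · simp only [Pi.smul_apply, dif_pos h, Matrix.mulVec_smul, smul_add, RingHom.id_apply]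
      rw [smul_comm c, smul_comm c]
    · simp only [Pi.smul_apply, dif_neg h, Matrix.mulVec_smul, smul_zero, add_zero,
        RingHom.id_apply]
      rw [smul_comm c]

/-- action of a matrix on the first two tensor factors -/
noncomputable def op12 {s : ℕ} (T : Matrix (I2 s) (I2 s) ℂ) : Module.End ℂ (V3 s) where
  toFun X k := T.mulVec (X k)
  map_add' X Y := by
    funext k
    simp only [Pi.add_apply, Matrix.mulVec_add]
  map_smul' c X := by
    funext k
    simp only [Pi.smul_apply, Matrix.mulVec_smul, RingHom.id_apply]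

/-- action of a matrix on the last two tensor factors -/
noncomputable def op23 {s : ℕ} (T : Matrix (I2 s) (I2 s) ℂ) : Module.End ℂ (V3 s) where
  toFun X k p := ∑ q : I2 s, T (p.2, k) q * X q.2 (p.1, q.1)
  map_add' X Y := by
    funext k p
    simp only [Pi.add_apply, mul_add, Finset.sum_add_distrib]
  map_smul' c X := by
    funext k p
    simp only [Pi.smul_apply, smul_eq_mul, RingHom.id_apply, Finset.mul_sum]
    apply Finset.sum_congr rfl
    intro q _
    ring

/-- complex conjugation of polynomials -/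
noncomputable def pbar (p : ℂ[X]) : ℂ[X] := p.map (starRingEnd ℂ)

/-! ### levels -/

/-- `C_{12}` on level `N` (index = first tensor index) -/
noncomputable def TN (s : ℕ) (t : ℂ) (N : ℕ) : Matrix (Fin (N + 1)) (Fin (N + 1)) ℂ := fun a b =>
  cas s t (b : ℕ) (N - b) a (N - a)

/-- `C_{23}` on level `N ≤ 2s` -/
noncomputable def UN (s : ℕ) (t : ℂ) (N : ℕ) : Matrix (Fin (N + 1)) (Fin (N + 1)) ℂ := fun a b =>
  if (b : ℕ) = a then xx s t (N - a)
  else if (b : ℕ) = a + 1 then (1 - t⁻¹ ^ (N - a)) * (1 - t⁻¹ ^ ((a : ℕ) + 1)) else 0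

/-- `C_{23}` on level `4s - M > 2s`, `M < 2s` (index = first tensor index minus `2s - M`) -/
noncomputable def UB (s : ℕ) (t : ℂ) (M : ℕ) : Matrix (Fin (M + 1)) (Fin (M + 1)) ℂ := fun a b =>
  if (b : ℕ) = a then xx s t a
  else if (b : ℕ) = a + 1 then (1 - t ^ ((a : ℕ) + 1)) * (1 - t ^ (M - a)) else 0

/-- split form of `C_{12}` -/
noncomputable def LN (s : ℕ) (t : ℂ) (N : ℕ) : Matrix (Fin (N + 1)) (Fin (N + 1)) ℂ := fun a b =>
  if (a : ℕ) = b then xx s t (N - b) else if (a : ℕ) = b + 1 then 1 else 0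

/-- the split parameters -/
noncomputable def phi (t : ℂ) (N k : ℕ) : ℂ :=
  (1 - t ^ k) * (1 - t ^ (N + 1 - k)) * (1 - t⁻¹ ^ (N + 1 - k)) * (1 - t ^ (2 * N + 2 - k)) *
    t⁻¹ ^ (N + 1)

/-- split form of `C_{23}` -/
noncomputable def SN (s : ℕ) (t : ℂ) (N : ℕ) : Matrix (Fin (N + 1)) (Fin (N + 1)) ℂ := fun a b =>
  if (a : ℕ) = b then xx s t (N - b) else if (b : ℕ) = a + 1 then phi t N b else 0

/-- the change of basis -/
noncomputable def PN (s : ℕ) (t : ℂ) (N : ℕ) : Matrix (Fin (N + 1)) (Fin (N + 1)) ℂ := fun i k =>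
  if (i : ℕ) ≤ k then (t ^ s * t) ^ ((k : ℕ) - i) * (qf t k / qf t ((k : ℕ) - i)) *
    (∏ l ∈ range k, (1 - t⁻¹ ^ (N - l))) * ∏ l ∈ Ico (i : ℕ) k, (1 - t ^ (N - l))
  else 0

/-- the matrix of the braiding `σ_1` in the split basis -/
noncomputable def alM (s : ℕ) (t : ℂ) (N : ℕ) : Matrix (Fin (N + 1)) (Fin (N + 1)) ℂ := fun k j =>
  if (j : ℕ) ≤ k then (-1) ^ N * t ^ (s * s + (N + 1).choose 2) *
    ((-1) ^ (j : ℕ) * (t ^ (j : ℕ).choose 2 * t⁻¹ ^ ((j : ℕ) * N)) * (t ^ s)⁻¹ ^ ((k : ℕ) - j)) *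
      (qf t (N - k) / (qf t ((k : ℕ) - j) * qf t (N - j)))
  else 0

/-- the matrix of `σ_2^{-1}` in the split basis -/
noncomputable def stM (s : ℕ) (t : ℂ) (N : ℕ) : Matrix (Fin (N + 1)) (Fin (N + 1)) ℂ := fun j k =>
  star (alM s t N k j) * ∏ l ∈ Ioc (j : ℕ) k, phi t N l

end Pool.Agent.Work.MP_b30479_gtS.AX

end

section

/-!
# Products of sines
-/

namespace Pool.Agent.Work.MP_b30479_gtS.AX

open Finset TB

lemma sinF_tt_pow (s l : ℕ) : tt s ^ l =
    Complex.exp (((2 * (Real.pi * l / ((2 * s + 1 : ℕ) : ℝ)) : ℝ) : ℂ) * Complex.I) := by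
  unfold tt
  rw [← Complex.exp_nat_mul]
  congr 1
  push_cast
  ring

lemma sinF_one_sub (x : ℝ) : 1 - Complex.exp (((2 * x : ℝ) : ℂ) * Complex.I) =
    ((2 * Real.sin x : ℝ) : ℂ) * (-Complex.I * Complex.exp ((x : ℂ) * Complex.I)) := by
  have e1 : Complex.exp (((2 * x : ℝ) : ℂ) * Complex.I) =
      Complex.exp ((x : ℂ) * Complex.I) * Complex.exp ((x : ℂ) * Complex.I) := by
    rw [← Complex.exp_add]
    congr 1
    push_cast
    ring
  have e2 : Complex.exp ((x : ℂ) * Complex.I) * Complex.exp (-(x : ℂ) * Complex.I) = 1 := by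
    rw [← Complex.exp_add]
    rw [show (x : ℂ) * Complex.I + -(x : ℂ) * Complex.I = 0 by ring, Complex.exp_zero]
  rw [e1]
  push_cast
  rw [Complex.sin]
  linear_combination (Complex.I ^ 2 : ℂ) * e2 + (1 - Complex.exp ((x : ℂ) * Complex.I) *
    Complex.exp ((x : ℂ) * Complex.I)) * Complex.I_sq

lemma sinF_one_sub_tt (s l : ℕ) : 1 - tt s ^ l =
    ((2 * Real.sin (Real.pi * l / ((2 * s + 1 : ℕ) : ℝ)) : ℝ) : ℂ) *
      (-Complex.I * Complex.exp (((Real.pi * l / ((2 * s + 1 : ℕ) : ℝ) : ℝ) : ℂ) *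
        Complex.I)) := by
  rw [sinF_tt_pow, sinF_one_sub]

lemma sinF_inv_tt_pow (s l : ℕ) : (tt s)⁻¹ ^ l =
    Complex.exp (((2 * (-(Real.pi * l / ((2 * s + 1 : ℕ) : ℝ))) : ℝ) : ℂ) * Complex.I) := by
  rw [inv_pow, sinF_tt_pow, ← Complex.exp_neg]
  congr 1
  push_cast
  ring

lemma sinF_one_sub_inv_tt (s l : ℕ) : 1 - (tt s)⁻¹ ^ l =
    ((2 * Real.sin (Real.pi * l / ((2 * s + 1 : ℕ) : ℝ)) : ℝ) : ℂ) *
      (Complex.I * Complex.exp (((-(Real.pi * l / ((2 * s + 1 : ℕ) : ℝ)) : ℝ) : ℂ) *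
        Complex.I)) := by
  rw [sinF_inv_tt_pow, sinF_one_sub, Real.sin_neg]
  push_cast
  ring

theorem qf_tt {s m : ℕ} (hm : m ≤ 2 * s) : qf (tt s) m = (fS (2 * s + 1) m : ℂ) *
    ((-Complex.I) ^ m * Complex.exp
      (((Real.pi * (m * (m + 1)) / (2 * ((2 * s + 1 : ℕ) : ℝ)) : ℝ) : ℂ) * Complex.I)) := by
  clear hm
  induction m with
  | zero => simp [fS]
  | succ m ih =>
    rw [qf_succ, ih, fS_succ, sinF_one_sub_tt]
    have e : Complex.exp (((Real.pi * (((m + 1 : ℕ) : ℝ) * (((m + 1 : ℕ) : ℝ) + 1)) /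
        (2 * ((2 * s + 1 : ℕ) : ℝ)) : ℝ) : ℂ) * Complex.I) =
        Complex.exp (((Real.pi * (m * (m + 1)) / (2 * ((2 * s + 1 : ℕ) : ℝ)) : ℝ) : ℂ) *
          Complex.I) *
        Complex.exp (((Real.pi * ((m + 1 : ℕ) : ℝ) / ((2 * s + 1 : ℕ) : ℝ) : ℝ) : ℂ) *
          Complex.I) := by
      rw [← Complex.exp_add]
      congr 1
      have hn : ((2 * s + 1 : ℕ) : ℂ) ≠ 0 := by exact_mod_cast (by omega : 2 * s + 1 ≠ 0)
      push_cast
      push_cast at hn
      field_simp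
      ring
    rw [e, pow_succ]
    push_cast
    ring

theorem phi_tt {s N l : ℕ} (hl : l ≤ N) : phi (tt s) N l =
    ((-16 * Real.sin (Real.pi * l / ((2 * s + 1 : ℕ) : ℝ)) *
      Real.sin (Real.pi * ((N : ℝ) + 1 - l) / ((2 * s + 1 : ℕ) : ℝ)) ^ 2 *
      Real.sin (Real.pi * (2 * (N : ℝ) + 2 - l) / ((2 * s + 1 : ℕ) : ℝ)) : ℝ) : ℂ) := by
  unfold phi
  have c1 : ((N + 1 - l : ℕ) : ℝ) = (N : ℝ) + 1 - l := by
    rw [Nat.cast_sub (by omega)]
    push_cast
    ring
  have c2 : ((2 * N + 2 - l : ℕ) : ℝ) = 2 * (N : ℝ) + 2 - l := by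
    rw [Nat.cast_sub (by omega)]
    push_cast
    ring
  rw [sinF_one_sub_tt s l, sinF_one_sub_tt s (N + 1 - l), sinF_one_sub_inv_tt s (N + 1 - l),
    sinF_one_sub_tt s (2 * N + 2 - l), sinF_inv_tt_pow, c1, c2]
  have e : Complex.exp (((Real.pi * l / ((2 * s + 1 : ℕ) : ℝ) : ℝ) : ℂ) * Complex.I) *
      Complex.exp (((Real.pi * ((N : ℝ) + 1 - l) / ((2 * s + 1 : ℕ) : ℝ) : ℝ) : ℂ) * Complex.I) *
      Complex.exp (((-(Real.pi * ((N : ℝ) + 1 - l) / ((2 * s + 1 : ℕ) : ℝ)) : ℝ) : ℂ) *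
        Complex.I) *
      Complex.exp (((Real.pi * (2 * (N : ℝ) + 2 - l) / ((2 * s + 1 : ℕ) : ℝ) : ℝ) : ℂ) *
        Complex.I) *
      Complex.exp (((2 * (-(Real.pi * ((N + 1 : ℕ) : ℝ) / ((2 * s + 1 : ℕ) : ℝ))) : ℝ) : ℂ) *
        Complex.I) = 1 := by
    rw [← Complex.exp_add, ← Complex.exp_add, ← Complex.exp_add, ← Complex.exp_add,
      ← Complex.exp_zero]
    congr 1
    push_cast
    ring
  have i4 : Complex.I ^ 4 = 1 := Complex.I_pow_four
  push_cast at e ⊢
  linear_combination (-16 * Complex.sin (Real.pi * l / (2 * s + 1)) *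
      Complex.sin (Real.pi * ((N : ℂ) + 1 - l) / (2 * s + 1)) ^ 2 *
      Complex.sin (Real.pi * (2 * (N : ℂ) + 2 - l) / (2 * s + 1)) * Complex.I ^ 4) * e +
    (-16 * Complex.sin (Real.pi * l / (2 * s + 1)) *
      Complex.sin (Real.pi * ((N : ℂ) + 1 - l) / (2 * s + 1)) ^ 2 *
      Complex.sin (Real.pi * (2 * (N : ℂ) + 2 - l) / (2 * s + 1))) * i4

end Pool.Agent.Work.MP_b30479_gtS.AX

end

section

/-!
# A deformation of the matrix of the braiding
-/

namespace Pool.Agent.Work.MP_b30479_gtS.TB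

open Finset

/-- deformed eigenvalues -/
noncomputable def cz (s : ℕ) (t z : ℂ) (k : ℕ) : ℂ := t ^ s * (t⁻¹ ^ k + z ^ 2 * t ^ (k + 1))

/-- deformed product -/
noncomputable def pz (t z : ℂ) (j k : ℕ) : ℂ := ∏ l ∈ Ico j k, (1 - z * t ^ (l + 1))

/-- deformed matrix -/
noncomputable def gz (s : ℕ) (t z : ℂ) (j k : ℕ) : ℂ :=
  if j ≤ k then t ^ (s * s) * (-1) ^ k * (t ^ s) ^ (k + j) * z ^ j * t ^ ((k + 1).choose 2 + k) /
    (pz t z j k * qf t (k - j)) else 0

/-- powers of the deformed matrix -/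
noncomputable def Gm (s : ℕ) (t z : ℂ) : ℕ → ℕ → ℕ → ℂ
  | 0, j, k => if j = k then 1 else 0
  | m + 1, j, k => ∑ l ∈ range (k + 1), Gm s t z m j l * gz s t z l k

lemma gz_lt {s : ℕ} {t z : ℂ} {j k : ℕ} (h : k < j) : gz s t z j k = 0 := by
  unfold gz; rw [if_neg (by omega)]

lemma Gm_lt {s : ℕ} {t z : ℂ} {m j k : ℕ} (h : k < j) : Gm s t z m j k = 0 := by
  induction m generalizing j k with
  | zero => unfold Gm; rw [if_neg (by omega)]
  | succ m ih =>
    unfold Gm
    apply Finset.sum_eq_zero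
    intro l hl
    rw [mem_range] at hl
    rw [ih (by omega), zero_mul]

lemma Gm_diag (s : ℕ) (t z : ℂ) (m j : ℕ) : Gm s t z m j j = gz s t z j j ^ m := by
  induction m with
  | zero => unfold Gm; simp
  | succ m ih =>
    have e : Gm s t z (m + 1) j j = ∑ l ∈ range (j + 1), Gm s t z m j l * gz s t z l j := rfl
    rw [e, Finset.sum_range_succ, ih, Finset.sum_eq_zero, zero_add, pow_succ]
    intro l hl
    rw [mem_range] at hl
    rw [Gm_lt hl, zero_mul]

section
variable {s : ℕ} {t : ℂ} (h : IsPrimitiveRoot t (2 * s + 1))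
include h

lemma gz_rec {z : ℂ} (hz : ∀ l, 1 ≤ l → l ≤ 2 * s → 1 - z * t ^ l ≠ 0) (j k : ℕ)
    (hk : k + 1 ≤ 2 * s) :
    (cz s t z (k + 1) - cz s t z j) * gz s t z j (k + 1) = gz s t z (j + 1) (k + 1) -
      gz s t z j k := by
  have h0 : t ≠ 0 := h.ne_zero (by omega)
  have hV := sq_mul h
  rcases lt_trichotomy j (k + 1) with hlt | heq | hgt
  · obtain ⟨m, rfl⟩ : ∃ m, k = j + m := ⟨k - j, by omega⟩
    have nQ : qf t m ≠ 0 := qf_ne_zero h (by omega)
    have nd : 1 - t ^ (m + 1) ≠ 0 := one_sub_pow_ne h (by omega) (by omega)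
    have na : 1 - z * t ^ (j + m + 1) ≠ 0 := hz _ (by omega) (by omega)
    have nb : 1 - z * t ^ (j + 1) ≠ 0 := hz _ (by omega) (by omega)
    have nP : pz t z j (j + m) ≠ 0 := by
      unfold pz
      rw [Finset.prod_ne_zero_iff]
      intro l hl
      rw [Finset.mem_Ico] at hl
      exact hz _ (by omega) (by omega)
    have p1 : pz t z j (j + m + 1) = pz t z j (j + m) * (1 - z * t ^ (j + m + 1)) := by
      unfold pz
      rw [Finset.prod_Ico_succ_top (by omega)]
    have p2 : pz t z j (j + m + 1) = (1 - z * t ^ (j + 1)) * pz t z (j + 1) (j + m + 1) := by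
      unfold pz
      rw [Finset.prod_eq_prod_Ico_succ_bot (by omega)]
    have p3 : pz t z (j + 1) (j + m + 1) = pz t z j (j + m) * (1 - z * t ^ (j + m + 1)) /
        (1 - z * t ^ (j + 1)) := by
      rw [eq_div_iff nb, ← p1, p2]; ring
    have eT : (j + m + 1 + 1).choose 2 + (j + m + 1) =
        ((j + m + 1).choose 2 + (j + m)) + (j + m + 2) := by
      have := Nat.choose_succ_succ' (j + m + 1) 1
      rw [Nat.choose_one_right] at this
      simp only [Nat.reduceAdd] at this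
      omega
    unfold gz
    rw [if_pos (by omega), if_pos (by omega), if_pos (by omega), p1, p3,
      show j + m + 1 - j = m + 1 by omega, show j + m + 1 - (j + 1) = m by omega,
      show j + m - j = m by omega, qf_succ, eT]
    have e1 : (cz s t z (j + m + 1) - cz s t z j) * (t ^ s * t ^ (j + m + 2)) =
        (1 - t ^ (m + 1)) * (1 - z ^ 2 * t ^ (j + m + 1) * t ^ (j + 1)) := by
      unfold cz
      have nj : t ^ j ≠ 0 := pow_ne_zero _ h0
      have nm : t ^ m ≠ 0 := pow_ne_zero _ h0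
      simp only [pow_add, inv_pow, pow_one]
      generalize t ^ j = J at *
      generalize t ^ m = K at *
      generalize t ^ s = V at *
      obtain ⟨ht, hV0⟩ := eq_inv_sq hV
      subst ht
      field_simp
      ring
    rw [pow_add t ((j + m + 1).choose 2 + (j + m)), show j + m + 1 + j = j + m + j + 1 by ring,
      show j + m + 1 + (j + 1) = j + m + j + 2 by ring, pow_succ (t ^ s), pow_add (t ^ s) _ 2,
      pow_succ (-1 : ℂ), pow_succ z]
    generalize t ^ ((j + m + 1).choose 2 + (j + m)) = T at *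
    generalize (t ^ s) ^ (j + m + j) = U at *
    generalize pz t z j (j + m) = P at *
    generalize qf t m = Q at *
    generalize (-1 : ℂ) ^ (j + m) = ε at *
    generalize z ^ j = y at *
    generalize t ^ (s * s) = α at *
    generalize cz s t z (j + m + 1) - cz s t z j = D at *
    have e2 : t ^ (j + m + 2) = t * t ^ (j + m + 1) := by ring
    rw [e2] at e1 ⊢
    clear p1 p2 p3
    generalize t ^ (j + m + 1) = A at *
    generalize t ^ (j + 1) = B at *
    generalize t ^ (m + 1) = K at *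
    obtain ⟨a, ha⟩ : ∃ a, a = 1 - z * A := ⟨_, rfl⟩
    obtain ⟨b, hb⟩ : ∃ b, b = 1 - z * B := ⟨_, rfl⟩
    obtain ⟨d, hd⟩ : ∃ d, d = 1 - K := ⟨_, rfl⟩
    have core : D * (t ^ s * (t * A)) - ((t ^ s) ^ 2 * (t * A) * z * b * d + a * d) = 0 := by
      rw [e1, ha, hb, hd]
      linear_combination (-(A * z * (1 - z * B) * (1 - K))) * hV
    rw [← ha, ← hb, ← hd]
    rw [← ha] at na
    rw [← hb] at nb
    rw [← hd] at nd
    clear ha hb hd e1
    generalize t ^ s = V at *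
    rw [← sub_eq_zero]
    have key : D * (α * (ε * -1) * (U * V) * y * (T * (t * A)) / (P * a * (Q * d))) -
        (α * (ε * -1) * (U * V ^ 2) * (y * z) * (T * (t * A)) / (P * a / b * Q) -
          α * ε * U * y * T / (P * Q)) =
        -(α * ε * U * y * T) / (P * a * Q * d) *
          (D * (V * (t * A)) - (V ^ 2 * (t * A) * z * b * d + a * d)) := by
      field_simp
      ring
    rw [key, core, mul_zero]
  · subst heq
    rw [gz_lt (show k + 1 < k + 1 + 1 by omega), gz_lt (show k < k + 1 by omega)]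
    ring
  · rw [gz_lt hgt, gz_lt (by omega), gz_lt (by omega)]
    ring

lemma Gm_rec {z : ℂ} (hz : ∀ l, 1 ≤ l → l ≤ 2 * s → 1 - z * t ^ l ≠ 0) (m j k : ℕ)
    (hk : k + 1 ≤ 2 * s) :
    (cz s t z (k + 1) - cz s t z j) * Gm s t z m j (k + 1) = Gm s t z m (j + 1) (k + 1) -
      Gm s t z m j k := by
  induction m generalizing j k with
  | zero =>
    unfold Gm
    by_cases hj : j = k + 1
    · subst hj
      rw [if_pos rfl, if_neg (by omega), if_neg (by omega)]
      ring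
    · rw [if_neg hj]
      by_cases hj2 : j = k
      · subst hj2
        rw [if_pos rfl, if_pos rfl]
        ring
      · rw [if_neg (by omega), if_neg hj2]
        ring
  | succ m ih =>
    have e : ∀ j k, Gm s t z (m + 1) j k = ∑ l ∈ range (k + 1), Gm s t z m j l * gz s t z l k :=
      fun _ _ => rfl
    rw [e, e, e, Finset.mul_sum]
    have e1 : ∀ l ∈ range (k + 1 + 1), (cz s t z (k + 1) - cz s t z j) *
        (Gm s t z m j l * gz s t z l (k + 1)) =
        Gm s t z m j l * (gz s t z (l + 1) (k + 1) - gz s t z l k) +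
        (cz s t z l - cz s t z j) * Gm s t z m j l * gz s t z l (k + 1) := by
      intro l _
      rw [← gz_rec h hz l k hk]
      ring
    rw [Finset.sum_congr rfl e1, Finset.sum_add_distrib]
    -- second sum
    have e2 : ∑ l ∈ range (k + 1 + 1), (cz s t z l - cz s t z j) * Gm s t z m j l *
        gz s t z l (k + 1) = ∑ l ∈ range (k + 1), (Gm s t z m (j + 1) (l + 1) - Gm s t z m j l) *
        gz s t z (l + 1) (k + 1) := by
      rw [Finset.sum_range_succ']
      have z0 : (cz s t z 0 - cz s t z j) * Gm s t z m j 0 * gz s t z 0 (k + 1) = 0 := by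
        rcases Nat.eq_zero_or_pos j with rfl | hj
        · ring
        · rw [Gm_lt hj]; ring
      rw [z0, add_zero]
      apply Finset.sum_congr rfl
      intro l hl
      rw [mem_range] at hl
      rw [ih j l (by omega)]
    rw [e2]
    simp only [mul_sub, sub_mul, Finset.sum_sub_distrib]
    have e3 : ∑ l ∈ range (k + 1 + 1), Gm s t z m j l * gz s t z (l + 1) (k + 1) =
        ∑ l ∈ range (k + 1), Gm s t z m j l * gz s t z (l + 1) (k + 1) := by
      rw [Finset.sum_range_succ, gz_lt (show k + 1 < k + 1 + 1 by omega)]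
      ring
    have e4 : ∑ l ∈ range (k + 1 + 1), Gm s t z m j l * gz s t z l k =
        ∑ l ∈ range (k + 1), Gm s t z m j l * gz s t z l k := by
      rw [Finset.sum_range_succ, gz_lt (show k < k + 1 by omega)]
      ring
    have e5 : ∑ l ∈ range (k + 1 + 1), Gm s t z m (j + 1) l * gz s t z l (k + 1) =
        ∑ l ∈ range (k + 1), Gm s t z m (j + 1) (l + 1) * gz s t z (l + 1) (k + 1) := by
      rw [Finset.sum_range_succ', Gm_lt (show 0 < j + 1 by omega)]
      ring
    rw [e3, e4, e5]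
    ring

end

/-! ### divided differences -/

/-- divided differences of `y` at the nodes `c j, ..., c k` -/
noncomputable def dd (c y : ℕ → ℂ) (j k : ℕ) : ℂ :=
  ∑ i ∈ Icc j k, y i / ∏ l ∈ (Icc j k).erase i, (c i - c l)

lemma dd_rec (c y : ℕ → ℂ) {j k : ℕ} (hjk : j ≤ k)
    (hc : ∀ i ∈ Icc j (k + 1), ∀ l ∈ Icc j (k + 1), i ≠ l → c i ≠ c l) :
    (c (k + 1) - c j) * dd c y j (k + 1) = dd c y (j + 1) (k + 1) - dd c y j k := by
  unfold dd
  have s1 : Icc (j + 1) (k + 1) = (Icc j (k + 1)).erase j := by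
    ext x; simp only [Finset.mem_Icc, Finset.mem_erase]; omega
  have s2 : Icc j k = (Icc j (k + 1)).erase (k + 1) := by
    ext x; simp only [Finset.mem_Icc, Finset.mem_erase]; omega
  rw [s1, s2]
  set I := Icc j (k + 1) with hI
  have hj : j ∈ I := by rw [hI, Finset.mem_Icc]; omega
  have hk : k + 1 ∈ I := by rw [hI, Finset.mem_Icc]; omega
  have f1 : ∑ i ∈ I.erase j, y i / ∏ l ∈ (I.erase j).erase i, (c i - c l) =
      ∑ i ∈ I, y i * (c i - c j) / ∏ l ∈ I.erase i, (c i - c l) := by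
    rw [← Finset.add_sum_erase I _ hj]
    simp only [sub_self, mul_zero, zero_div, zero_add]
    apply Finset.sum_congr rfl
    intro i hi
    rw [Finset.mem_erase] at hi
    have hne : c i - c j ≠ 0 := sub_ne_zero.mpr (hc i hi.2 j hj hi.1)
    have : ∏ l ∈ I.erase i, (c i - c l) = (c i - c j) * ∏ l ∈ (I.erase j).erase i, (c i - c l) := by
      rw [Finset.erase_right_comm, Finset.mul_prod_erase (I.erase i) (fun l => c i - c l)]
      rw [Finset.mem_erase]
      exact ⟨Ne.symm hi.1, hj⟩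
    rw [this, mul_comm (y i), mul_div_mul_left _ _ hne]
  have f2 : ∑ i ∈ I.erase (k + 1), y i / ∏ l ∈ (I.erase (k + 1)).erase i, (c i - c l) =
      ∑ i ∈ I, y i * (c i - c (k + 1)) / ∏ l ∈ I.erase i, (c i - c l) := by
    rw [← Finset.add_sum_erase I _ hk]
    simp only [sub_self, mul_zero, zero_div, zero_add]
    apply Finset.sum_congr rfl
    intro i hi
    rw [Finset.mem_erase] at hi
    have hne : c i - c (k + 1) ≠ 0 := sub_ne_zero.mpr (hc i hi.2 (k + 1) hk hi.1)
    have : ∏ l ∈ I.erase i, (c i - c l) =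
        (c i - c (k + 1)) * ∏ l ∈ (I.erase (k + 1)).erase i, (c i - c l) := by
      rw [Finset.erase_right_comm, Finset.mul_prod_erase (I.erase i) (fun l => c i - c l)]
      rw [Finset.mem_erase]
      exact ⟨Ne.symm hi.1, hk⟩
    rw [this, mul_comm (y i), mul_div_mul_left _ _ hne]
  rw [f1, f2, ← Finset.sum_sub_distrib, Finset.mul_sum]
  apply Finset.sum_congr rfl
  intro i _
  ring

lemma dd_diag (c y : ℕ → ℂ) (j : ℕ) : dd c y j j = y j := by
  unfold dd
  simp

section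
variable {s : ℕ} {t : ℂ} (h : IsPrimitiveRoot t (2 * s + 1))
include h

/-- the powers are divided differences -/
lemma Gm_eq_dd {z : ℂ} (hz : ∀ l, 1 ≤ l → l ≤ 2 * s → 1 - z * t ^ l ≠ 0)
    (hc : ∀ i ≤ 2 * s, ∀ l ≤ 2 * s, i ≠ l → cz s t z i ≠ cz s t z l) (m : ℕ) (d j : ℕ)
    (hd : j + d ≤ 2 * s) :
    Gm s t z m j (j + d) = dd (cz s t z) (fun i => gz s t z i i ^ m) j (j + d) := by
  induction d generalizing j with
  | zero => rw [Nat.add_zero, Gm_diag, dd_diag]
  | succ d ih =>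
    have h1 := Gm_rec h hz m j (j + d) hd
    have h2 := dd_rec (cz s t z) (fun i => gz s t z i i ^ m) (show j ≤ j + d by omega)
      (fun i hi l hl hne => hc i (by rw [Finset.mem_Icc] at hi; omega) l
        (by rw [Finset.mem_Icc] at hl; omega) hne)
    have h3 := ih j (by omega)
    have h4 := ih (j + 1) (by omega)
    rw [show j + 1 + d = j + d + 1 by ring] at h4
    have hne : cz s t z (j + d + 1) - cz s t z j ≠ 0 :=
      sub_ne_zero.mpr (hc _ hd _ (by omega) (by omega))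
    apply mul_left_cancel₀ hne
    rw [← Nat.add_assoc, h1, h2, h3, h4]

end

end Pool.Agent.Work.MP_b30479_gtS.TB

end

section

/-!
# The deformed braiding at `z = e^{2πiε/n}`
-/

namespace Pool.Agent.Work.MP_b30479_gtS.DT

open Finset TB AX

/-- the deformation parameter -/
noncomputable def ze (s : ℕ) (ε : ℝ) : ℂ :=
  Complex.exp (2 * Real.pi * Complex.I * ε / ((2 * s + 1 : ℕ) : ℂ))

/-- `e^{2πix/n}` -/
noncomputable def ee (s : ℕ) (x : ℂ) : ℂ :=
  Complex.exp (2 * Real.pi * Complex.I * x / ((2 * s + 1 : ℕ) : ℂ))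

lemma nn_ne (s : ℕ) : ((2 * s + 1 : ℕ) : ℂ) ≠ 0 := by
  exact_mod_cast (by omega : (2 * s + 1 : ℕ) ≠ 0)

lemma ee_add (s : ℕ) (x y : ℂ) : ee s (x + y) = ee s x * ee s y := by
  rw [ee, ee, ee, ← Complex.exp_add]
  congr 1
  ring

lemma ee_ne (s : ℕ) (x : ℂ) : ee s x ≠ 0 := Complex.exp_ne_zero _

lemma ee_zero (s : ℕ) : ee s 0 = 1 := by simp [ee]

lemma ee_neg (s : ℕ) (x : ℂ) : ee s (-x) = (ee s x)⁻¹ := by
  rw [ee, ee, ← Complex.exp_neg]
  congr 1
  ring

lemma ee_pow (s : ℕ) (x : ℂ) (k : ℕ) : ee s x ^ k = ee s (k * x) := by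
  rw [ee, ee, ← Complex.exp_nat_mul]
  congr 1
  ring

lemma ze_eq (s : ℕ) (ε : ℝ) : ze s ε = ee s ε := rfl

lemma tt_eq (s : ℕ) : tt s = ee s 1 := by
  rw [tt, ee, mul_one]

lemma tt_pow (s k : ℕ) : tt s ^ k = ee s k := by
  rw [tt_eq, ee_pow, mul_one]

lemma ee_int (s : ℕ) (m : ℤ) : ee s (m * ((2 * s + 1 : ℕ) : ℂ)) = 1 := by
  rw [ee]
  rw [show 2 * (Real.pi : ℂ) * Complex.I * (m * ((2 * s + 1 : ℕ) : ℂ)) / ((2 * s + 1 : ℕ) : ℂ) =
    m * (2 * Real.pi * Complex.I) by
      rw [div_eq_iff (nn_ne s)]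
      ring]
  exact Complex.exp_int_mul_two_pi_mul_I m

lemma ee_half (s : ℕ) : ee s (((2 * s + 1 : ℕ) : ℂ) / 2) = -1 := by
  rw [ee, ← Complex.exp_pi_mul_I]
  congr 1
  rw [div_eq_iff (nn_ne s)]
  ring

lemma norm_ee (s : ℕ) (x : ℝ) : ‖ee s x‖ = 1 := by
  rw [ee]
  rw [show 2 * (Real.pi : ℂ) * Complex.I * (x : ℂ) / ((2 * s + 1 : ℕ) : ℂ) =
    ((2 * Real.pi * x / ((2 * s + 1 : ℕ) : ℝ) : ℝ) : ℂ) * Complex.I by push_cast; ring]
  exact Complex.norm_exp_ofReal_mul_I _

lemma cc_ee (s : ℕ) (z : ℂ) : cc (2 * s + 1) z = ee s z + ee s (-z) := by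
  rw [cc, Complex.cos, ee, ee]
  rw [show 2 * (Real.pi : ℂ) * z / ((2 * s + 1 : ℕ) : ℂ) * Complex.I =
    2 * Real.pi * Complex.I * z / ((2 * s + 1 : ℕ) : ℂ) by ring,
    show -(2 * (Real.pi : ℂ) * z / ((2 * s + 1 : ℕ) : ℂ)) * Complex.I =
    2 * Real.pi * Complex.I * -z / ((2 * s + 1 : ℕ) : ℂ) by ring]
  ring

theorem cz_ze (s i : ℕ) (ε : ℝ) :
    cz s (tt s) (ze s ε) i = ze s ε * cc (2 * s + 1) ((i : ℂ) - s + ε) := by
  rw [cz, cc_ee, ze_eq, inv_pow, tt_pow, tt_pow, tt_pow, ← ee_neg, mul_add, mul_add, ← ee_add,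
    ee_pow, ← ee_add, ← ee_add, ← ee_add, ← ee_add, add_comm]
  congr 1
  · rw [show ((s : ℕ) : ℂ) + (((2 : ℕ) : ℂ) * ε + ((i + 1 : ℕ) : ℂ)) =
      (ε + ((i : ℂ) - s + ε)) + ((1 : ℤ) : ℂ) * ((2 * s + 1 : ℕ) : ℂ) by push_cast; ring,
      ee_add, ee_int, mul_one]
  · congr 1
    ring

theorem gz_ze (s : ℕ) (ε : ℝ) : ∃ κ : ℂ, ‖κ‖ = 1 ∧ ∀ i : ℕ,
    gz s (tt s) (ze s ε) i i = κ * Complex.exp (Real.pi * Complex.I * ((i : ℂ) - s + ε) ^ 2 /
      ((2 * s + 1 : ℕ) : ℂ)) := by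
  refine ⟨ee s (((s : ℝ) ^ 2 / 2 + s * ε - ε ^ 2 / 2 : ℝ) : ℂ), norm_ee s _, ?_⟩
  intro i
  have h1 : Complex.exp (Real.pi * Complex.I * ((i : ℂ) - s + ε) ^ 2 / ((2 * s + 1 : ℕ) : ℂ)) =
      ee s (((i : ℂ) - s + ε) ^ 2 / 2) := by
    rw [ee]
    congr 1
    ring
  have h2 : (-1 : ℂ) ^ i = ee s (-((i : ℂ) * (((2 * s + 1 : ℕ) : ℂ) / 2))) := by
    rw [ee_neg, ← ee_pow, ee_half, ← inv_pow]
    norm_num
  have h3 : ((i + 1).choose 2 : ℂ) = (i : ℂ) * (i + 1) / 2 := by
    rw [Nat.cast_choose_two]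
    push_cast
    ring
  have h4 : pz (tt s) (ze s ε) i i = 1 := by simp [pz]
  have h5 : qf (tt s) (i - i) = 1 := by simp [qf]
  rw [h1, gz, if_pos le_rfl, h4, h5, mul_one, div_one, h2, ← pow_mul, tt_pow, tt_pow, tt_pow,
    ze_eq, ee_pow]
  simp only [← ee_add]
  rw [show ((s * s : ℕ) : ℂ) + -((i : ℂ) * (((2 * s + 1 : ℕ) : ℂ) / 2)) +
      ((s * (i + i) : ℕ) : ℂ) + (i : ℂ) * ε + (((i + 1).choose 2 + i : ℕ) : ℂ) =
      ((((s : ℝ) ^ 2 / 2 + s * ε - ε ^ 2 / 2 : ℝ) : ℂ) + ((i : ℂ) - s + ε) ^ 2 / 2) +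
        ((i : ℤ) : ℂ) * ((2 * s + 1 : ℕ) : ℂ) by
    push_cast [h3]
    ring, ee_add _ _ (_ * _), ee_int, mul_one]

lemma ee_eq_one {s : ℕ} {x : ℝ} (h : ee s x = 1) : ∃ m : ℤ, x = m * ((2 * s + 1 : ℕ) : ℝ) := by
  rw [ee, Complex.exp_eq_one_iff] at h
  obtain ⟨m, hm⟩ := h
  refine ⟨m, ?_⟩
  have hn := nn_ne s
  have hp : (2 * (Real.pi : ℂ) * Complex.I) ≠ 0 := Complex.two_pi_I_ne_zero
  have : (x : ℂ) = m * ((2 * s + 1 : ℕ) : ℂ) := by
    field_simp at hm
    have h2 := mul_left_cancel₀ hp (show (2 * (Real.pi : ℂ) * Complex.I) * x =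
      (2 * (Real.pi : ℂ) * Complex.I) * (m * ((2 * s + 1 : ℕ) : ℂ)) by
        linear_combination (2 * (Real.pi : ℂ) * Complex.I) * hm)
    exact h2
  exact_mod_cast this

theorem ze_ne {s : ℕ} {ε : ℝ} (h0 : 0 < ε) (h1 : ε < 1 / 2) {l : ℕ} (hl : 1 ≤ l)
    (hl' : l ≤ 2 * s) : 1 - ze s ε * tt s ^ l ≠ 0 := by
  intro h
  rw [ze_eq, tt_pow, ← ee_add] at h
  have h' : ee s ((ε + l : ℝ) : ℂ) = 1 := by
    push_cast
    linear_combination -h
  obtain ⟨m, hm⟩ := ee_eq_one h'
  have a1 : (0 : ℝ) < ε + l := by positivity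
  have a2 : (ε + l : ℝ) < ((2 * s + 1 : ℕ) : ℝ) := by
    have : (l : ℝ) ≤ 2 * s := by exact_mod_cast hl'
    push_cast
    linarith only [h0, h1, this]
  have hn : (0 : ℝ) < ((2 * s + 1 : ℕ) : ℝ) := by positivity
  rw [hm] at a1 a2
  have b1 : (0 : ℝ) < m := by
    by_contra hcon
    push Not at hcon
    nlinarith only [h0, hm, hcon]
  have b2 : (m : ℝ) < 1 := by
    by_contra hcon
    push Not at hcon
    nlinarith only [a2, hcon]
  have b1' : (0 : ℤ) < m := by exact_mod_cast b1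
  have b2' : m < 1 := by exact_mod_cast b2
  omega

theorem cc_ne {s : ℕ} {ε : ℝ} (h0 : 0 < ε) (h1 : ε < 1 / 2) {i l : ℕ} (hi : i ≤ 2 * s)
    (hl : l ≤ 2 * s) (hne : i ≠ l) :
    cc (2 * s + 1) ((i : ℂ) - s + ε) ≠ cc (2 * s + 1) ((l : ℂ) - s + ε) := by
  intro h
  rw [cc_ee, cc_ee] at h
  set x : ℂ := (i : ℂ) - s + ε with hx
  set y : ℂ := (l : ℂ) - s + ε with hy
  have nx := ee_ne s x
  have ny := ee_ne s y
  rw [ee_neg, ee_neg] at h
  have key : (ee s x - ee s y) * (ee s x * ee s y - 1) = 0 := by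
    field_simp at h
    linear_combination h
  rcases mul_eq_zero.1 key with hk | hk
  · have h' : ee s (((i : ℝ) - l : ℝ) : ℂ) = 1 := by
      rw [show (((i : ℝ) - l : ℝ) : ℂ) = x + -y by rw [hx, hy]; push_cast; ring, ee_add, ee_neg,
        sub_eq_zero.1 hk, mul_inv_cancel₀ ny]
    obtain ⟨m, hm⟩ := ee_eq_one h'
    have hm' : (i : ℤ) - l = m * (2 * s + 1) := by
      have : (((i : ℤ) - l : ℤ) : ℝ) = ((m * (2 * s + 1) : ℤ) : ℝ) := by
        push_cast
        push_cast at hm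
        exact hm
      exact_mod_cast this
    rcases lt_trichotomy m 0 with h2 | h2 | h2
    · nlinarith only [hl, hm', h2]
    · rw [h2] at hm'
      omega
    · nlinarith only [hi, hm', h2]
  · have h' : ee s (((i : ℝ) - s + ε + (l - s + ε) : ℝ) : ℂ) = 1 := by
      rw [show (((i : ℝ) - s + ε + (l - s + ε) : ℝ) : ℂ) = x + y by rw [hx, hy]; push_cast; ring,
        ee_add, sub_eq_zero.1 hk]
    obtain ⟨m, hm⟩ := ee_eq_one h'
    have e : 2 * ε = ((m * (2 * s + 1) - i - l + 2 * s : ℤ) : ℝ) := by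
      push_cast
      push_cast at hm
      linarith only [hm]
    have b1 : (0 : ℝ) < ((m * (2 * s + 1) - i - l + 2 * s : ℤ) : ℝ) := by rw [← e]; linarith only [h0]
    have b2 : ((m * (2 * s + 1) - i - l + 2 * s : ℤ) : ℝ) < 1 := by rw [← e]; linarith only [h1]
    have b1' : (0 : ℤ) < m * (2 * s + 1) - i - l + 2 * s := by exact_mod_cast b1
    have b2' : m * (2 * s + 1) - i - l + 2 * s < (1 : ℤ) := by exact_mod_cast b2
    omega

/-- scaling of divided differences -/
lemma dd_scale (c y : ℕ → ℂ) {z : ℂ} (hz : z ≠ 0) (κ : ℂ) (k : ℕ) :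
    dd (fun i => z * c i) (fun i => κ * y i) 0 k = κ * z⁻¹ ^ k * dd c y 0 k := by
  unfold dd
  rw [Finset.mul_sum]
  apply Finset.sum_congr rfl
  intro i hi
  have hcard : ((Icc 0 k).erase i).card = k := by
    rw [Finset.card_erase_of_mem hi, Nat.card_Icc]
    omega
  have : ∏ l ∈ (Icc 0 k).erase i, (z * c i - z * c l) =
      z ^ k * ∏ l ∈ (Icc 0 k).erase i, (c i - c l) := by
    have e : z ^ k = ∏ _l ∈ (Icc 0 k).erase i, z := by rw [Finset.prod_const, hcard]
    rw [e, ← Finset.prod_mul_distrib]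
    apply Finset.prod_congr rfl
    intro l _
    ring
  rw [this, inv_pow]
  have hz' : z ^ k ≠ 0 := pow_ne_zero _ hz
  rw [div_eq_mul_inv, div_eq_mul_inv, mul_inv]
  ring

/-- the power of the deformed braiding as a divided difference -/
theorem Gm_ze {s a k : ℕ} (hk : k ≤ 2 * s) {ε : ℝ} (h0 : 0 < ε) (h1 : ε < 1 / 2) :
    ‖Gm s (tt s) (ze s ε) a 0 k‖ = ‖dd (fun i => cc (2 * s + 1) ((i : ℂ) - s + ε))
      (fun i => Complex.exp (Real.pi * Complex.I * a * ((i : ℂ) - s + ε) ^ 2 /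
        ((2 * s + 1 : ℕ) : ℂ))) 0 k‖ := by
  have hz1 : ‖ze s ε‖ = 1 := by rw [ze_eq]; exact norm_ee s ε
  have hz0 : ze s ε ≠ 0 := by rw [ze_eq]; exact ee_ne s _
  obtain ⟨κ, hκ, hg⟩ := gz_ze s ε
  have h := Gm_eq_dd (tt_prim s) (z := ze s ε) (fun l h1' h2' => ze_ne h0 h1 h1' h2')
    (fun i hi l hl hne => by
      rw [cz_ze, cz_ze]
      intro hcon
      exact cc_ne h0 h1 hi hl hne (mul_left_cancel₀ hz0 hcon)) a k 0 (by omega)
  rw [Nat.zero_add] at h
  have e1 : cz s (tt s) (ze s ε) = fun i : ℕ => ze s ε * cc (2 * s + 1) ((i : ℂ) - s + ε) := by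
    ext i
    exact cz_ze s i ε
  have e2 : (fun i => gz s (tt s) (ze s ε) i i ^ a) = fun i : ℕ => κ ^ a *
      Complex.exp (Real.pi * Complex.I * a * ((i : ℂ) - s + ε) ^ 2 / ((2 * s + 1 : ℕ) : ℂ)) := by
    ext i
    rw [hg i, mul_pow, ← Complex.exp_nat_mul]
    congr 2
    ring
  rw [h, e1, e2, dd_scale _ _ hz0, norm_mul, norm_mul, norm_pow, norm_pow, hκ, norm_inv, hz1]
  simp

end Pool.Agent.Work.MP_b30479_gtS.DT

end

section

/-!
# Integrals over the boundary of a rectangle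
-/

namespace Pool.Agent.Work.MP_b30479_gtS.DT

open Finset

/-- boundary integral over the rectangle `[-b, b] × [-h, h]` (counterclockwise) -/
noncomputable def rectInt (F : ℂ → ℂ) (b h : ℝ) : ℂ :=
  (∫ x in (-b)..b, F ((x : ℂ) - h * Complex.I)) +
    Complex.I * (∫ y in (-h)..h, F ((b : ℂ) + y * Complex.I)) -
    (∫ x in (-b)..b, F ((x : ℂ) + h * Complex.I)) -
    Complex.I * (∫ y in (-h)..h, F (((-b : ℝ) : ℂ) + y * Complex.I))

/-- the function is continuous at all points of the four lines through the sides -/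
def BC (F : ℂ → ℂ) (b h : ℝ) : Prop :=
  ∀ z : ℂ, (z.im = h ∨ z.im = -h ∨ z.re = b ∨ z.re = -b) → ContinuousAt F z

theorem rectInt_congr {F G : ℂ → ℂ} {b h : ℝ}
    (hFG : ∀ z : ℂ, (z.im = h ∨ z.im = -h ∨ z.re = b ∨ z.re = -b) → F z = G z) :
    rectInt F b h = rectInt G b h := by
  unfold rectInt
  congr 1
  · congr 1
    · congr 1
      · refine intervalIntegral.integral_congr fun x _ => hFG _ ?_
        simp
      · congr 1
        refine intervalIntegral.integral_congr fun x _ => hFG _ ?_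
        simp
    · refine intervalIntegral.integral_congr fun x _ => hFG _ ?_
      simp
  · congr 1
    refine intervalIntegral.integral_congr fun x _ => hFG _ ?_
    simp

theorem BC.bot {F : ℂ → ℂ} {b h : ℝ} (hF : BC F b h) :
    Continuous fun x : ℝ => F ((x : ℂ) - h * Complex.I) := by
  rw [continuous_iff_continuousAt]
  intro x
  have h1 : ContinuousAt F ((x : ℂ) - h * Complex.I) := hF _ (by simp)
  exact ContinuousAt.comp (f := fun x : ℝ => (x : ℂ) - h * Complex.I) h1 (by fun_prop)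

theorem BC.top {F : ℂ → ℂ} {b h : ℝ} (hF : BC F b h) :
    Continuous fun x : ℝ => F ((x : ℂ) + h * Complex.I) := by
  rw [continuous_iff_continuousAt]
  intro x
  have h1 : ContinuousAt F ((x : ℂ) + h * Complex.I) := hF _ (by simp)
  exact ContinuousAt.comp (f := fun x : ℝ => (x : ℂ) + h * Complex.I) h1 (by fun_prop)

theorem BC.rt {F : ℂ → ℂ} {b h : ℝ} (hF : BC F b h) :
    Continuous fun y : ℝ => F ((b : ℂ) + y * Complex.I) := by
  rw [continuous_iff_continuousAt]
  intro x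
  have h1 : ContinuousAt F ((b : ℂ) + x * Complex.I) := hF _ (by simp)
  exact ContinuousAt.comp (f := fun x : ℝ => (b : ℂ) + x * Complex.I) h1 (by fun_prop)

theorem BC.lt {F : ℂ → ℂ} {b h : ℝ} (hF : BC F b h) :
    Continuous fun y : ℝ => F (((-b : ℝ) : ℂ) + y * Complex.I) := by
  rw [continuous_iff_continuousAt]
  intro x
  have h1 : ContinuousAt F (((-b : ℝ) : ℂ) + x * Complex.I) := hF _ (by simp)
  exact ContinuousAt.comp (f := fun x : ℝ => ((-b : ℝ) : ℂ) + x * Complex.I) h1 (by fun_prop)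

theorem rectInt_add {F G : ℂ → ℂ} {b h : ℝ} (hF : BC F b h) (hG : BC G b h) :
    rectInt (fun z => F z + G z) b h = rectInt F b h + rectInt G b h := by
  unfold rectInt
  rw [intervalIntegral.integral_add (hF.bot.intervalIntegrable _ _) (hG.bot.intervalIntegrable _ _),
    intervalIntegral.integral_add (hF.rt.intervalIntegrable _ _) (hG.rt.intervalIntegrable _ _),
    intervalIntegral.integral_add (hF.top.intervalIntegrable _ _) (hG.top.intervalIntegrable _ _),
    intervalIntegral.integral_add (hF.lt.intervalIntegrable _ _) (hG.lt.intervalIntegrable _ _)]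
  ring

theorem rectInt_mul (c : ℂ) (F : ℂ → ℂ) (b h : ℝ) :
    rectInt (fun z => c * F z) b h = c * rectInt F b h := by
  unfold rectInt
  rw [intervalIntegral.integral_const_mul, intervalIntegral.integral_const_mul,
    intervalIntegral.integral_const_mul, intervalIntegral.integral_const_mul]
  ring

theorem BC.add {F G : ℂ → ℂ} {b h : ℝ} (hF : BC F b h) (hG : BC G b h) :
    BC (fun z => F z + G z) b h := fun z hz => (hF z hz).add (hG z hz)

theorem BC.mul {F G : ℂ → ℂ} {b h : ℝ} (hF : BC F b h) (hG : BC G b h) :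
    BC (fun z => F z * G z) b h := fun z hz => (hF z hz).mul (hG z hz)

theorem BC.const_mul {F : ℂ → ℂ} {b h : ℝ} (c : ℂ) (hF : BC F b h) :
    BC (fun z => c * F z) b h := fun z hz => continuousAt_const.mul (hF z hz)

theorem BC.sum {ι : Type*} {F : ι → ℂ → ℂ} {b h : ℝ} (I : Finset ι)
    (hF : ∀ i ∈ I, BC (F i) b h) : BC (fun z => ∑ i ∈ I, F i z) b h := by
  intro z hz
  exact tendsto_finsetSum _ fun i hi => hF i hi z hz

theorem rectInt_sum {ι : Type*} {F : ι → ℂ → ℂ} {b h : ℝ} (I : Finset ι)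
    (hF : ∀ i ∈ I, BC (F i) b h) :
    rectInt (fun z => ∑ i ∈ I, F i z) b h = ∑ i ∈ I, rectInt (F i) b h := by
  classical
  induction I using Finset.induction_on with
  | empty => simp [rectInt]
  | insert i I hi ih =>
    have h1 : (fun z => ∑ j ∈ insert i I, F j z) = fun z => F i z + ∑ j ∈ I, F j z := by
      funext z
      rw [Finset.sum_insert hi]
    rw [h1, rectInt_add (hF i (Finset.mem_insert_self _ _))
      (BC.sum I fun j hj => hF j (Finset.mem_insert_of_mem hj)), Finset.sum_insert hi,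
      ih fun j hj => hF j (Finset.mem_insert_of_mem hj)]

theorem side_ne {b h w : ℝ} (hh : 0 < h) (hw : |w| < b) {z : ℂ}
    (hz : z.im = h ∨ z.im = -h ∨ z.re = b ∨ z.re = -b) : z - (w : ℂ) ≠ 0 := by
  rw [abs_lt] at hw
  intro h0
  have h1 : z = w := sub_eq_zero.mp h0
  rw [h1] at hz
  simp only [Complex.ofReal_im, Complex.ofReal_re] at hz
  rcases hz with hz | hz | hz | hz <;> linarith only [hh, hz, hw, hw.1, hw.2]

theorem rect_inv {b h w : ℝ} (hh : 0 < h) (hw : |w| < b) :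
    rectInt (fun z => 1 / (z - w)) b h = 2 * Real.pi * Complex.I := by
  have hw' := abs_lt.mp hw
  have key : ∀ (g g' : ℝ → ℂ) (p q : ℝ), Continuous g' → (∀ x, HasDerivAt g (g' x) x) →
      ∫ x in p..q, g' x = g q - g p := by
    intro g g' p q hc hd
    exact intervalIntegral.integral_eq_sub_of_hasDerivAt (fun x _ => hd x)
      (hc.intervalIntegrable _ _)
  have hBC : BC (fun z => 1 / (z - w)) b h := by
    intro z hz
    have := side_ne hh hw hz
    fun_prop (disch := assumption)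
  have i1 : ∫ x in (-b)..b, 1 / ((x : ℂ) - h * Complex.I - w) =
      Complex.log ((b : ℂ) - h * Complex.I - w) - Complex.log (((-b : ℝ) : ℂ) - h * Complex.I - w) := by
    refine key (fun x => Complex.log ((x : ℂ) - h * Complex.I - w)) _ _ _ hBC.bot fun x => ?_
    have h1 : (x : ℂ) - h * Complex.I - w ∈ Complex.slitPlane := by
      rw [Complex.mem_slitPlane_iff]
      right
      simp
      linarith only [hh]
    have h2 : HasDerivAt (fun x : ℝ => (x : ℂ) - h * Complex.I - w) 1 x :=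
      ((Complex.ofRealCLM.hasDerivAt (x := x)).sub_const _).sub_const _
    exact h2.clog_real h1
  have i2 : ∫ x in (-b)..b, 1 / ((x : ℂ) + h * Complex.I - w) =
      Complex.log ((b : ℂ) + h * Complex.I - w) - Complex.log (((-b : ℝ) : ℂ) + h * Complex.I - w) := by
    refine key (fun x => Complex.log ((x : ℂ) + h * Complex.I - w)) _ _ _ hBC.top fun x => ?_
    have h1 : (x : ℂ) + h * Complex.I - w ∈ Complex.slitPlane := by
      rw [Complex.mem_slitPlane_iff]
      right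
      simp
      linarith only [hh]
    have h2 : HasDerivAt (fun x : ℝ => (x : ℂ) + h * Complex.I - w) 1 x :=
      ((Complex.ofRealCLM.hasDerivAt (x := x)).add_const _).sub_const _
    exact h2.clog_real h1
  have i3 : Complex.I * ∫ y in (-h)..h, 1 / ((b : ℂ) + y * Complex.I - w) =
      Complex.log ((b : ℂ) + h * Complex.I - w) - Complex.log ((b : ℂ) + ((-h : ℝ) : ℂ) * Complex.I - w) := by
    rw [← intervalIntegral.integral_const_mul]
    refine key (fun y => Complex.log ((b : ℂ) + y * Complex.I - w)) _ _ _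
      (continuous_const.mul hBC.rt) fun y => ?_
    have h1 : (b : ℂ) + y * Complex.I - w ∈ Complex.slitPlane := by
      rw [Complex.mem_slitPlane_iff]
      left
      simp
      linarith only [hw']
    have h2 : HasDerivAt (fun y : ℝ => (b : ℂ) + y * Complex.I - w) Complex.I y := by
      have := (((Complex.ofRealCLM.hasDerivAt (x := y)).mul_const Complex.I).const_add (b : ℂ)).sub_const
        (w : ℂ)
      simpa using this
    have h3 := h2.clog_real h1
    rw [mul_one_div]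
    exact h3
  have i4 : Complex.I * ∫ y in (-h)..h, 1 / (((-b : ℝ) : ℂ) + y * Complex.I - w) =
      Complex.log (-(((-b : ℝ) : ℂ) + h * Complex.I - w)) -
        Complex.log (-(((-b : ℝ) : ℂ) + ((-h : ℝ) : ℂ) * Complex.I - w)) := by
    rw [← intervalIntegral.integral_const_mul]
    refine key (fun y => Complex.log (-(((-b : ℝ) : ℂ) + y * Complex.I - w))) _ _ _
      (continuous_const.mul hBC.lt) fun y => ?_
    have h1 : -(((-b : ℝ) : ℂ) + y * Complex.I - w) ∈ Complex.slitPlane := by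
      rw [Complex.mem_slitPlane_iff]
      left
      simp
      linarith only [hw']
    have h2 : HasDerivAt (fun y : ℝ => -(((-b : ℝ) : ℂ) + y * Complex.I - w)) (-Complex.I) y := by
      have := ((((Complex.ofRealCLM.hasDerivAt (x := y)).mul_const Complex.I).const_add
        ((-b : ℝ) : ℂ)).sub_const (w : ℂ)).fun_neg
      simpa only [Complex.ofRealCLM_apply, Complex.ofReal_one, one_mul] using this
    have h3 := h2.clog_real h1
    rw [mul_one_div]
    rw [neg_div_neg_eq] at h3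
    exact h3
  unfold rectInt
  simp only
  rw [i1, i2, i3, i4]
  set p : ℂ := (b : ℂ) + w with hp
  have e1 : ((-b : ℝ) : ℂ) - h * Complex.I - w = -(p + h * Complex.I) := by
    rw [hp]; push_cast; ring
  have e2 : ((-b : ℝ) : ℂ) + h * Complex.I - w = -(p - h * Complex.I) := by
    rw [hp]; push_cast; ring
  have e3 : (b : ℂ) + ((-h : ℝ) : ℂ) * Complex.I - w = (b : ℂ) - h * Complex.I - w := by
    push_cast; ring
  have e4 : ((-b : ℝ) : ℂ) + ((-h : ℝ) : ℂ) * Complex.I - w = -(p + h * Complex.I) := by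
    rw [hp]; push_cast; ring
  rw [e1, e2, e3, e4, neg_neg, neg_neg]
  have l1 : Complex.log (-(p + h * Complex.I)) = Complex.log (p + h * Complex.I) -
      Real.pi * Complex.I := by
    have : 0 < (p + h * Complex.I).im := by simp [hp, hh]
    unfold Complex.log
    rw [Complex.arg_neg_eq_arg_sub_pi_of_im_pos this, norm_neg]
    push_cast
    ring
  have l2 : Complex.log (-(p - h * Complex.I)) = Complex.log (p - h * Complex.I) +
      Real.pi * Complex.I := by
    have : (p - h * Complex.I).im < 0 := by simp [hp, hh]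
    unfold Complex.log
    rw [Complex.arg_neg_eq_arg_add_pi_of_im_neg this, norm_neg]
    push_cast
    ring
  rw [l1, l2]
  ring

/-- Cauchy's formula for the rectangle -/
theorem rect_cauchy {N : ℂ → ℂ} {b h w : ℝ} (hh : 0 < h) (hw : |w| < b)
    (hN : DifferentiableOn ℂ N (Set.Icc (-b) b ×ℂ Set.Icc (-h) h)) (hB : BC N b h) :
    rectInt (fun z => N z / (z - w)) b h = 2 * Real.pi * Complex.I * N w := by
  have hb : 0 < b := lt_of_le_of_lt (abs_nonneg _) hw
  have hw' := abs_lt.mp hw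
  have hmem : (Set.Icc (-b) b ×ℂ Set.Icc (-h) h) ∈ nhds (w : ℂ) := by
    refine Filter.mem_of_superset ((isOpen_Ioo (a := -b) (b := b)).reProdIm
      (isOpen_Ioo (a := -h) (b := h)) |>.mem_nhds ?_) ?_
    · rw [Complex.mem_reProdIm]
      simp only [Complex.ofReal_re, Complex.ofReal_im, Set.mem_Ioo]
      exact ⟨hw', by linarith only [hh], hh⟩
    · intro z hz
      rw [Complex.mem_reProdIm] at hz ⊢
      exact ⟨Set.Ioo_subset_Icc_self hz.1, Set.Ioo_subset_Icc_self hz.2⟩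
  have hD := (Complex.differentiableOn_dslope hmem).mpr hN
  have h0 := Complex.integral_boundary_rect_eq_zero_of_differentiableOn (dslope N w)
    (⟨-b, -h⟩ : ℂ) (⟨b, h⟩ : ℂ) (by
      simp only [Set.uIcc_of_le (show -b ≤ b by linarith only [hb]), Set.uIcc_of_le (show -h ≤ h by linarith only [hh])]
      exact hD)
  simp only [smul_eq_mul] at h0
  have h1 : rectInt (dslope N w) b h = 0 := by
    unfold rectInt
    rw [← h0]
    simp only [Complex.ofReal_neg, neg_mul, ← sub_eq_add_neg]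
    ring
  have h2 : rectInt (fun z => N z / (z - w)) b h =
      rectInt (fun z => dslope N w z + N w * (1 / (z - w))) b h := by
    refine rectInt_congr fun z hz => ?_
    have hne := side_ne hh hw hz
    rw [dslope_of_ne _ (sub_ne_zero.mp hne), slope_def_field]
    field_simp
    ring
  have hBD : BC (dslope N w) b h := by
    intro z hz
    have hne := side_ne hh hw hz
    rw [continuousAt_dslope_of_ne (sub_ne_zero.mp hne)]
    exact hB z hz
  have hBI : BC (fun z => 1 / (z - w)) b h := by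
    intro z hz
    have := side_ne hh hw hz
    fun_prop (disch := assumption)
  rw [h2, rectInt_add hBD (hBI.const_mul (N w)), h1, rectInt_mul, rect_inv hh hw]
  ring

theorem sin_rect_ne {b w : ℝ} (hw : |w| < b) {z : ℂ} (hz : |z.re| ≤ b ∨ z.im ≠ 0)
    (hne : z ≠ w) : Complex.sin (Real.pi * (z - w) / (2 * b)) ≠ 0 := by
  have hb : 0 < b := lt_of_le_of_lt (abs_nonneg _) hw
  intro h0
  rw [Complex.sin_eq_zero_iff] at h0
  obtain ⟨m, hm⟩ := h0
  have hb' : (b : ℂ) ≠ 0 := by exact_mod_cast hb.ne'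
  have hpi : (Real.pi : ℂ) ≠ 0 := by exact_mod_cast Real.pi_ne_zero
  have h1 : z = w + 2 * b * m := by
    field_simp at hm
    linear_combination hm
  have h2 : z.re = w + 2 * b * m := by
    rw [h1]; simp
  have h3 : z.im = 0 := by
    rw [h1]; simp
  rcases hz with hz | hz
  · have h4 : |2 * b * (m : ℝ)| < 2 * b := by
      have : 2 * b * (m : ℝ) = z.re - w := by linarith only [h2]
      rw [this]
      calc |z.re - w| ≤ |z.re| + |w| := abs_sub _ _
        _ < 2 * b := by linarith only [hw, hz]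
    rw [abs_mul, abs_of_pos (by positivity : 0 < 2 * b)] at h4
    have h5 : |(m : ℝ)| < 1 := by
      by_contra hc
      push Not at hc
      nlinarith only [h4, hb, hc]
    have h6 : m = 0 := by
      have : |m| < 1 := by exact_mod_cast h5
      exact Int.abs_lt_one_iff.mp this
    apply hne
    rw [h1, h6]
    simp
  · exact hz h3

theorem rect_cot {F : ℂ → ℂ} (hF : Differentiable ℂ F) {b h w : ℝ} (hh : 0 < h) (hw : |w| < b) :
    rectInt (fun z => F z * (Real.pi / (2 * b) * (Complex.cos (Real.pi * (z - w) / (2 * b)) /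
      Complex.sin (Real.pi * (z - w) / (2 * b))))) b h = 2 * Real.pi * Complex.I * F w := by
  have hb : 0 < b := lt_of_le_of_lt (abs_nonneg _) hw
  have hb' : (b : ℂ) ≠ 0 := by exact_mod_cast hb.ne'
  have hpi : (Real.pi : ℂ) ≠ 0 := by exact_mod_cast Real.pi_ne_zero
  set sn : ℂ → ℂ := fun z => Complex.sin (Real.pi * (z - w) / (2 * b)) with hsn
  set S : ℂ → ℂ := dslope sn w with hS
  have hsnd : Differentiable ℂ sn := by
    rw [hsn]
    fun_prop
  have hSd : Differentiable ℂ S := by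
    rw [← differentiableOn_univ]
    exact (Complex.differentiableOn_dslope Filter.univ_mem).mpr hsnd.differentiableOn
  have hSw : S w = Real.pi / (2 * b) := by
    rw [hS, dslope_same]
    have h1 : HasDerivAt (fun z : ℂ => Real.pi * (z - w) / (2 * b)) (Real.pi / (2 * b) : ℂ) w := by
      have := (((hasDerivAt_id (w : ℂ)).sub_const (w : ℂ)).const_mul (Real.pi : ℂ)).div_const
        ((2 * b : ℂ))
      simpa using this
    have h2 := h1.csin
    simp only [sub_self, mul_zero, zero_div, Complex.cos_zero, one_mul] at h2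
    exact h2.deriv
  have hSne : ∀ z : ℂ, (|z.re| ≤ b ∨ z.im ≠ 0) → S z ≠ 0 := by
    intro z hz
    by_cases hzw : z = w
    · rw [hzw, hSw]
      exact div_ne_zero hpi (mul_ne_zero two_ne_zero hb')
    · rw [hS, dslope_of_ne _ hzw, slope_def_field, hsn]
      simp only [sub_self, mul_zero, zero_div, Complex.sin_zero, sub_zero]
      exact div_ne_zero (sin_rect_ne hw hz hzw) (sub_ne_zero.mpr hzw)
  have hside : ∀ z : ℂ, (z.im = h ∨ z.im = -h ∨ z.re = b ∨ z.re = -b) →
      (|z.re| ≤ b ∨ z.im ≠ 0) := by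
    intro z hz
    rcases hz with hz | hz | hz | hz
    · right; rw [hz]; exact hh.ne'
    · right; rw [hz]; linarith only [hh]
    · left; rw [hz, abs_of_pos hb]
    · left; rw [hz, abs_neg, abs_of_pos hb]
  set N : ℂ → ℂ := fun z => F z * (Real.pi / (2 * b) *
    (Complex.cos (Real.pi * (z - w) / (2 * b)) / S z)) with hN
  have hNd : ∀ z : ℂ, (|z.re| ≤ b ∨ z.im ≠ 0) → DifferentiableAt ℂ N z := by
    intro z hz
    have h1 := hSne z hz
    have h2 : DifferentiableAt ℂ (fun z : ℂ => Complex.cos (Real.pi * (z - w) / (2 * b))) z := by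
      fun_prop
    exact (hF z).mul ((differentiableAt_const _).mul (h2.div (hSd z) h1))
  have hc := rect_cauchy hh hw (N := N) (by
    intro z hz
    rw [Complex.mem_reProdIm] at hz
    exact (hNd z (Or.inl (abs_le.mpr hz.1))).differentiableWithinAt)
    (fun z hz => (hNd z (hside z hz)).continuousAt)
  rw [show N w = F w by
    rw [hN]
    simp only [hSw, sub_self, mul_zero, zero_div, Complex.cos_zero]
    field_simp] at hc
  rw [← hc]
  refine rectInt_congr fun z hz => ?_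
  have hne := side_ne hh hw hz
  have h1 : S z = sn z / (z - w) := by
    rw [hS, dslope_of_ne _ (sub_ne_zero.mp hne), slope_def_field, hsn]
    simp
  have h2 : sn z ≠ 0 := sin_rect_ne hw (hside z hz) (sub_ne_zero.mp hne)
  simp only [hN, h1]
  change F z * (Real.pi / (2 * b) * (Complex.cos (Real.pi * (z - w) / (2 * b)) / sn z)) = _
  field_simp

end Pool.Agent.Work.MP_b30479_gtS.DT

end

section

/-!
# Divided differences as contour integrals
-/

namespace Pool.Agent.Work.MP_b30479_gtS.DT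

open Finset TB AX

/-- the integrand for `ε ≠ 0` -/
noncomputable def Ge (a s k : ℕ) (ε : ℝ) (z : ℂ) : ℂ :=
  Complex.exp (Real.pi * Complex.I * a * z ^ 2 / ((2 * s + 1 : ℕ) : ℂ)) *
    Complex.sin (2 * Real.pi * z / ((2 * s + 1 : ℕ) : ℂ)) /
    ∏ l ∈ range (k + 1), (cc (2 * s + 1) z - cc (2 * s + 1) ((l : ℂ) - s + ε))

/-- partial fractions -/
theorem partial_fractions {c : ℕ → ℂ} {k : ℕ}
    (hc : ∀ i ∈ range (k + 1), ∀ l ∈ range (k + 1), i ≠ l → c i ≠ c l) {C : ℂ}
    (hC : ∀ i ∈ range (k + 1), C ≠ c i) :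
    ∑ i ∈ range (k + 1), 1 / (∏ l ∈ (range (k + 1)).erase i, (c i - c l)) * (1 / (C - c i)) =
      1 / ∏ l ∈ range (k + 1), (C - c l) := by
  have hinj : Set.InjOn c (range (k + 1) : Finset ℕ) := by
    intro i hi l hl h
    by_contra hne
    exact hc i hi l hl hne h
  have h1 := Lagrange.eval_interpolate_not_at_node (s := range (k + 1)) (v := c) (x := C)
    (fun _ => (1 : ℂ)) hC
  have h2 : Lagrange.interpolate (range (k + 1)) c (fun _ => (1 : ℂ)) = 1 := by
    have := Lagrange.interpolate_one (s := range (k + 1)) (v := c) hinj ⟨0, by simp⟩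
    exact this
  rw [h2, Polynomial.eval_one, Lagrange.eval_nodal] at h1
  have h3 : ∏ l ∈ range (k + 1), (C - c l) ≠ 0 :=
    Finset.prod_ne_zero_iff.mpr fun i hi => sub_ne_zero.mpr (hC i hi)
  rw [eq_div_iff h3, mul_comm]
  rw [eq_comm] at h1
  convert h1 using 2
  refine Finset.sum_congr rfl fun i hi => ?_
  rw [Lagrange.nodalWeight, Finset.prod_inv_distrib]
  simp

theorem cc_sub (n : ℕ) (z w : ℂ) : cc n z - cc n w =
    -4 * (Complex.sin (Real.pi * (z - w) / n) * Complex.sin (Real.pi * (z + w) / n)) := by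
  unfold cc
  have h1 : (2 : ℂ) * Real.pi * z / n = Real.pi * (z - w) / n + Real.pi * (z + w) / n := by ring
  have h2 : (2 : ℂ) * Real.pi * w / n = Real.pi * (z + w) / n - Real.pi * (z - w) / n := by ring
  rw [h1, h2, Complex.cos_add, Complex.cos_sub]
  ring

theorem cc_side_ne {n : ℕ} {w h : ℝ} (hh : 0 < h) (hw : |w| < (n : ℝ) / 2) {z : ℂ}
    (hz : z.im = h ∨ z.im = -h ∨ z.re = (n : ℝ) / 2 ∨ z.re = -((n : ℝ) / 2)) :
    Complex.sin (Real.pi * (z - w) / n) ≠ 0 := by
  have hb : 0 < (n : ℝ) / 2 := lt_of_le_of_lt (abs_nonneg _) hw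
  have h1 := sin_rect_ne hw (z := z) (by
    rcases hz with hz | hz | hz | hz
    · right; rw [hz]; exact hh.ne'
    · right; rw [hz]; linarith
    · left; rw [hz, abs_of_pos hb]
    · left; rw [hz, abs_neg, abs_of_pos hb]) (sub_ne_zero.mp (side_ne hh hw hz))
  have h2 : (2 : ℂ) * ((((n : ℝ) / 2 : ℝ)) : ℂ) = n := by
    push_cast; ring
  rwa [h2] at h1

/-- one node -/
theorem one_node {F : ℂ → ℂ} (hF : Differentiable ℂ F) (hev : ∀ z, F (-z) = F z) {n : ℕ} {w h : ℝ}
    (hh : 0 < h) (hw : |w| < (n : ℝ) / 2) :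
    rectInt (fun z => F z * Complex.sin (2 * Real.pi * z / n) * (1 / (cc n z - cc n w)))
      ((n : ℝ) / 2) h = -(n * Complex.I) * F w := by
  have hb : 0 < (n : ℝ) / 2 := lt_of_le_of_lt (abs_nonneg _) hw
  have hn : (n : ℂ) ≠ 0 := by
    have : (0 : ℝ) < n := by linarith
    exact_mod_cast this.ne'
  have hpi : (Real.pi : ℂ) ≠ 0 := by exact_mod_cast Real.pi_ne_zero
  have h1 := rect_cot hF hh hw
  have hw2 : |-w| < (n : ℝ) / 2 := by rwa [abs_neg]
  have h2 := rect_cot hF hh hw2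
  have e2 : (2 : ℂ) * ((((n : ℝ) / 2 : ℝ)) : ℂ) = n := by
    push_cast; ring
  rw [e2] at h1 h2
  have hBC : ∀ v : ℝ, |v| < (n : ℝ) / 2 → BC (fun z => F z * (Real.pi / n *
      (Complex.cos (Real.pi * (z - v) / n) / Complex.sin (Real.pi * (z - v) / n)))) ((n : ℝ) / 2) h := by
    intro v hv z hz
    have hne := cc_side_ne hh hv hz
    have hFz := (hF z).continuousAt
    fun_prop (disch := assumption)
  have h3 := rectInt_add (hBC w hw) (hBC (-w) hw2)
  rw [h1, h2] at h3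
  rw [show F ((-w : ℝ) : ℂ) = F w by push_cast; exact hev _] at h3
  have h4 : rectInt (fun z => F z * Complex.sin (2 * Real.pi * z / n) * (1 / (cc n z - cc n w)))
      ((n : ℝ) / 2) h = rectInt (fun z => (-(n / (4 * Real.pi)) : ℂ) *
        (F z * (Real.pi / n * (Complex.cos (Real.pi * (z - w) / n) /
          Complex.sin (Real.pi * (z - w) / n))) +
        F z * (Real.pi / n * (Complex.cos (Real.pi * (z - (-w : ℝ)) / n) /
          Complex.sin (Real.pi * (z - (-w : ℝ)) / n))))) ((n : ℝ) / 2) h := by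
    refine rectInt_congr fun z hz => ?_
    have n1 := cc_side_ne hh hw hz
    have n2 := cc_side_ne hh hw2 hz
    rw [show z - ((-w : ℝ) : ℂ) = z + w by push_cast; ring] at n2 ⊢
    rw [cc_sub, show (2 : ℂ) * Real.pi * z / n = Real.pi * (z - w) / n + Real.pi * (z + w) / n by ring,
      Complex.sin_add]
    set A := Complex.sin (Real.pi * (z - w) / n)
    set B := Complex.sin (Real.pi * (z + w) / n)
    set CA := Complex.cos (Real.pi * (z - w) / n)
    set CB := Complex.cos (Real.pi * (z + w) / n)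
    field_simp
    ring
  rw [h4, rectInt_mul, h3]
  field_simp
  ring

/-- integral of an odd function -/
theorem rectInt_odd {F : ℂ → ℂ} {b h : ℝ} (hF : BC F b h) (hodd : ∀ z, F (-z) = -F z) :
    rectInt F b h = 2 * pathInt F b (-b) h h := by
  unfold rectInt pathInt
  have e1 : ∫ x in (-b)..b, F ((x : ℂ) - h * Complex.I) =
      -∫ x in (-b)..b, F ((x : ℂ) + h * Complex.I) := by
    have := intervalIntegral.integral_comp_neg (a := -b) (b := b)
      (fun x : ℝ => F ((x : ℂ) - h * Complex.I))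
    rw [neg_neg] at this
    rw [← this, ← intervalIntegral.integral_neg]
    refine intervalIntegral.integral_congr fun x _ => ?_
    rw [← hodd]
    congr 1
    push_cast
    ring
  have e2 : ∫ y in (-h)..h, F ((b : ℂ) + y * Complex.I) =
      (∫ y in (0 : ℝ)..h, F ((b : ℂ) + y * Complex.I)) -
        ∫ y in (0 : ℝ)..h, F (((-b : ℝ) : ℂ) + y * Complex.I) := by
    rw [← intervalIntegral.integral_add_adjacent_intervals (b := 0)
      (hF.rt.intervalIntegrable _ _) (hF.rt.intervalIntegrable _ _)]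
    have := intervalIntegral.integral_comp_neg (a := 0) (b := h)
      (fun y : ℝ => F ((b : ℂ) + y * Complex.I))
    rw [neg_zero] at this
    rw [← this, add_comm, sub_eq_add_neg, ← intervalIntegral.integral_neg]
    congr 1
    refine intervalIntegral.integral_congr fun x _ => ?_
    rw [← hodd]
    congr 1
    push_cast
    ring
  have e3 : ∫ y in (-h)..h, F (((-b : ℝ) : ℂ) + y * Complex.I) =
      (∫ y in (0 : ℝ)..h, F (((-b : ℝ) : ℂ) + y * Complex.I)) -
        ∫ y in (0 : ℝ)..h, F ((b : ℂ) + y * Complex.I) := by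
    rw [← intervalIntegral.integral_add_adjacent_intervals (b := 0)
      (hF.lt.intervalIntegrable _ _) (hF.lt.intervalIntegrable _ _)]
    have := intervalIntegral.integral_comp_neg (a := 0) (b := h)
      (fun y : ℝ => F (((-b : ℝ) : ℂ) + y * Complex.I))
    rw [neg_zero] at this
    rw [← this, add_comm, sub_eq_add_neg, ← intervalIntegral.integral_neg]
    congr 1
    refine intervalIntegral.integral_congr fun x _ => ?_
    rw [← hodd]
    congr 1
    push_cast
    ring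
  rw [e1, e2, e3]
  simp only [intervalIntegral.integral_same]
  ring

theorem dd_contour {s a k : ℕ} (hk : k ≤ 2 * s) {ε : ℝ} (h0 : 0 < ε) (h1 : ε < 1 / 2) {h : ℝ}
    (hh : 0 < h) :
    ‖dd (fun i => cc (2 * s + 1) ((i : ℂ) - s + ε))
      (fun i => Complex.exp (Real.pi * Complex.I * a * ((i : ℂ) - s + ε) ^ 2 /
        ((2 * s + 1 : ℕ) : ℂ))) 0 k‖ =
      2 / ((2 * s + 1 : ℕ) : ℝ) * ‖pathInt (Ge a s k ε) (hn s) (-(hn s)) h h‖ := by
  set n : ℕ := 2 * s + 1 with hnn
  have hn0 : (n : ℂ) ≠ 0 := by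
    rw [hnn]; exact_mod_cast (by omega : 2 * s + 1 ≠ 0)
  have hnpos : (0 : ℝ) < n := by
    rw [hnn]; exact_mod_cast (by omega : 0 < 2 * s + 1)
  have hhn : hn s = (n : ℝ) / 2 := rfl
  set Th : ℂ → ℂ := fun z => Complex.exp (Real.pi * Complex.I * a * z ^ 2 / (n : ℂ)) with hTh
  set w : ℕ → ℝ := fun i => (i : ℝ) - s + ε with hwdef
  have hwc : ∀ i : ℕ, ((w i : ℝ) : ℂ) = (i : ℂ) - s + ε := by
    intro i; rw [hwdef]; push_cast; ring
  have hw : ∀ i ∈ range (k + 1), |w i| < (n : ℝ) / 2 := by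
    intro i hi
    have h2 : (i : ℝ) ≤ 2 * s := by
      have : i ≤ 2 * s := by rw [Finset.mem_range] at hi; omega
      exact_mod_cast this
    have h3 : (0 : ℝ) ≤ i := Nat.cast_nonneg _
    rw [hwdef, hnn, abs_lt]
    push_cast
    constructor <;> linarith
  have hTd : Differentiable ℂ Th := by
    rw [hTh]; fun_prop
  have hTe : ∀ z, Th (-z) = Th z := by
    intro z; rw [hTh]; simp
  have hcn : ∀ i ∈ range (k + 1), ∀ l ∈ range (k + 1), i ≠ l →
      (fun j : ℕ => cc n ((j : ℂ) - s + ε)) i ≠ (fun j : ℕ => cc n ((j : ℂ) - s + ε)) l := by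
    intro i hi l hl hne
    rw [Finset.mem_range] at hi hl
    exact cc_ne h0 h1 (by omega) (by omega) hne
  have hC : ∀ z : ℂ, (z.im = h ∨ z.im = -h ∨ z.re = (n : ℝ) / 2 ∨ z.re = -((n : ℝ) / 2)) →
      ∀ i ∈ range (k + 1), cc n z ≠ cc n ((i : ℂ) - s + ε) := by
    intro z hz i hi
    rw [← sub_ne_zero, cc_sub, ← hwc]
    have n1 := cc_side_ne hh (hw i hi) hz
    have hw2 : |-(w i)| < (n : ℝ) / 2 := by rw [abs_neg]; exact hw i hi
    have n2 := cc_side_ne hh hw2 hz
    rw [show z - ((-(w i) : ℝ) : ℂ) = z + w i by push_cast; ring] at n2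
    exact mul_ne_zero (by norm_num) (mul_ne_zero n1 n2)
  have hccc : Continuous (cc n) := by
    unfold cc; fun_prop
  -- the integrand for one node
  have hBC : ∀ i ∈ range (k + 1), BC (fun z => 1 / (∏ l ∈ (range (k + 1)).erase i,
      (cc n ((i : ℂ) - s + ε) - cc n ((l : ℂ) - s + ε))) *
      (Th z * Complex.sin (2 * Real.pi * z / n) * (1 / (cc n z - cc n (w i))))) ((n : ℝ) / 2) h := by
    intro i hi z hz
    have hne : cc n z - cc n (w i) ≠ 0 := by
      rw [hwc]; exact sub_ne_zero.mpr (hC z hz i hi)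
    have c1 : ContinuousAt Th z := (hTd z).continuousAt
    have c2 : ContinuousAt (cc n) z := hccc.continuousAt
    fun_prop (disch := assumption)
  have h3 := rectInt_sum (range (k + 1)) hBC
  have h4 : rectInt (Ge a s k ε) ((n : ℝ) / 2) h = rectInt (fun z => ∑ i ∈ range (k + 1),
      1 / (∏ l ∈ (range (k + 1)).erase i,
      (cc n ((i : ℂ) - s + ε) - cc n ((l : ℂ) - s + ε))) *
      (Th z * Complex.sin (2 * Real.pi * z / n) * (1 / (cc n z - cc n (w i))))) ((n : ℝ) / 2) h := by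
    refine rectInt_congr fun z hz => ?_
    have h5 := partial_fractions hcn (hC z hz)
    unfold Ge
    rw [← hnn, div_eq_mul_one_div _ (∏ l ∈ range (k + 1), _)]
    rw [← h5, Finset.mul_sum]
    refine Finset.sum_congr rfl fun i _ => ?_
    rw [hwc]
    ring
  have h6 : dd (fun i => cc n ((i : ℂ) - s + ε))
      (fun i => Complex.exp (Real.pi * Complex.I * a * ((i : ℂ) - s + ε) ^ 2 / (n : ℂ))) 0 k =
      ∑ i ∈ range (k + 1), Th (w i) / (∏ l ∈ (range (k + 1)).erase i,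
      (cc n ((i : ℂ) - s + ε) - cc n ((l : ℂ) - s + ε))) := by
    unfold dd
    rw [show Icc 0 k = range (k + 1) by ext x; simp only [Finset.mem_Icc, Finset.mem_range]; omega]
    refine Finset.sum_congr rfl fun i _ => ?_
    rw [hwc]
  have h7 : rectInt (Ge a s k ε) ((n : ℝ) / 2) h = -(n * Complex.I) *
      dd (fun i => cc n ((i : ℂ) - s + ε))
      (fun i => Complex.exp (Real.pi * Complex.I * a * ((i : ℂ) - s + ε) ^ 2 / (n : ℂ))) 0 k := by
    rw [h4, h3, h6, Finset.mul_sum]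
    refine Finset.sum_congr rfl fun i hi => ?_
    rw [rectInt_mul, one_node hTd hTe hh (hw i hi)]
    ring
  have hGB : BC (Ge a s k ε) ((n : ℝ) / 2) h := by
    intro z hz
    have hne : ∏ l ∈ range (k + 1), (cc n z - cc n ((l : ℂ) - s + ε)) ≠ 0 :=
      Finset.prod_ne_zero_iff.mpr fun i hi => sub_ne_zero.mpr (hC z hz i hi)
    have c1 : ContinuousAt (fun z => ∏ l ∈ range (k + 1), (cc n z - cc n ((l : ℂ) - s + ε))) z := by
      refine Continuous.continuousAt ?_
      exact continuous_finsetProd _ fun i _ => hccc.sub continuous_const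
    unfold Ge
    refine ContinuousAt.div ?_ c1 hne
    fun_prop
  have hodd : ∀ z, Ge a s k ε (-z) = -Ge a s k ε z := by
    intro z
    unfold Ge cc
    have e1 : ∀ n' : ℂ, (2 : ℂ) * Real.pi * (-z) / n' = -(2 * Real.pi * z / n') := by
      intro n'; ring
    simp only [e1, Complex.sin_neg, Complex.cos_neg, neg_sq]
    ring
  have h8 := rectInt_odd hGB hodd
  rw [h7] at h8
  have h9 := congrArg norm h8
  rw [norm_mul, norm_mul, norm_neg, norm_mul, Complex.norm_I, mul_one, Complex.norm_natCast,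
    Complex.norm_ofNat] at h9
  rw [hhn]
  field_simp
  linarith

end Pool.Agent.Work.MP_b30479_gtS.DT

end

section

/-!
# The matrix entries as contour integrals
-/

namespace Pool.Agent.Work.MP_b30479_gtS.DT

open Finset TB AX

/-! ### the full product -/

lemma cont_prod_root {n : ℕ} {ζ : ℂ} (hn : 0 < n) (h : IsPrimitiveRoot ζ n) (x w : ℂ) :
    ∏ l ∈ range n, (x - ζ ^ l * w) = x ^ n - w ^ n := by
  rw [h.pow_sub_pow_eq_prod_sub_mul x w hn]
  have h1 := h.nthRoots_eq (one_pow n)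
  have h2 : ∏ μ ∈ Polynomial.nthRootsFinset n (1 : ℂ), (x - μ * w) =
      (Multiset.map (fun μ => x - μ * w) (Polynomial.nthRoots n (1 : ℂ))).prod := by
    rw [Finset.prod, Polynomial.nthRootsFinset, Multiset.toFinset_val,
      Multiset.dedup_eq_self.mpr h.nthRoots_one_nodup]
  rw [h2, h1, Multiset.map_map]
  simp only [mul_one]
  rfl

lemma cont_cc_exp (n : ℕ) (z : ℂ) : cc n z = Complex.exp (2 * Real.pi * Complex.I * z / n) +
    (Complex.exp (2 * Real.pi * Complex.I * z / n))⁻¹ := by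
  rw [← Complex.exp_neg, cc, Complex.cos]
  rw [show 2 * (Real.pi : ℂ) * z / n * Complex.I = 2 * Real.pi * Complex.I * z / n by ring,
    show -(2 * (Real.pi : ℂ) * z / n) * Complex.I = -(2 * Real.pi * Complex.I * z / n) by ring]
  ring

theorem prod_cc (s : ℕ) (z : ℂ) :
    ∏ l ∈ range (2 * s + 1), (cc (2 * s + 1) z - cc (2 * s + 1) ((l : ℂ) - s)) =
      -4 * Complex.sin (Real.pi * z) ^ 2 := by
  have hn0 : (((2 * s + 1 : ℕ) : ℕ) : ℂ) ≠ 0 := by
    exact_mod_cast Nat.succ_ne_zero (2 * s)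
  have hprim := tt_prim s
  have ht0 : tt s ≠ 0 := hprim.ne_zero (by omega)
  set x := Complex.exp (2 * Real.pi * Complex.I * z / ((2 * s + 1 : ℕ) : ℂ)) with hx
  have hx0 : x ≠ 0 := Complex.exp_ne_zero _
  set v := (tt s ^ s)⁻¹ with hv
  have hv0 : v ≠ 0 := inv_ne_zero (pow_ne_zero _ ht0)
  have hy : ∀ l : ℕ, Complex.exp (2 * Real.pi * Complex.I * ((l : ℂ) - s) /
      ((2 * s + 1 : ℕ) : ℂ)) = tt s ^ l * v := by
    intro l
    rw [hv, ← div_eq_mul_inv, eq_div_iff (pow_ne_zero _ ht0)]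
    unfold tt
    rw [← Complex.exp_nat_mul, ← Complex.exp_nat_mul, ← Complex.exp_add]
    congr 1
    field_simp
    ring
  have e : ∀ l ∈ range (2 * s + 1), cc (2 * s + 1) z - cc (2 * s + 1) ((l : ℂ) - s) =
      x⁻¹ * ((x - tt s ^ l * v) * (x - (tt s)⁻¹ ^ l * v⁻¹)) := by
    intro l _
    rw [cont_cc_exp, cont_cc_exp, ← hx, hy l]
    have h1 : tt s ^ l ≠ 0 := pow_ne_zero _ ht0
    rw [inv_pow]
    field_simp
    ring
  rw [Finset.prod_congr rfl e, Finset.prod_mul_distrib, Finset.prod_mul_distrib,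
    cont_prod_root (by omega) hprim, cont_prod_root (by omega) hprim.inv, Finset.prod_const,
    card_range]
  have hvn : v ^ (2 * s + 1) = 1 := by
    rw [hv, inv_pow, ← pow_mul, mul_comm s, pow_mul, hprim.pow_eq_one, one_pow, inv_one]
  have hxn : x ^ (2 * s + 1) = Complex.exp (2 * Real.pi * Complex.I * z) := by
    rw [hx, ← Complex.exp_nat_mul]
    congr 1
    field_simp
  rw [inv_pow v, hvn, inv_one, inv_pow, hxn, Complex.sin]
  have e1 : Complex.exp (2 * Real.pi * Complex.I * z) =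
      Complex.exp (Real.pi * z * Complex.I) ^ 2 := by
    rw [← Complex.exp_nat_mul]
    congr 1
    push_cast
    ring
  have e2 : Complex.exp (-(Real.pi * z) * Complex.I) = (Complex.exp (Real.pi * z * Complex.I))⁻¹ := by
    rw [← Complex.exp_neg]
    congr 1
    ring
  rw [e1, e2]
  have h3 := Complex.exp_ne_zero (Real.pi * z * Complex.I)
  set y := Complex.exp (Real.pi * z * Complex.I)
  have hI : Complex.I ^ 2 = -1 := Complex.I_sq
  field_simp
  rw [hI]
  ring

/-! ### the integrand on the path -/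

lemma cont_cc_ne {n : ℕ} (hn : 0 < n) {z : ℂ} {x : ℝ} (hx : |x| < (n : ℝ) / 2)
    (hz : z.im ≠ 0 ∨ |z.re| = (n : ℝ) / 2) : cc n z - cc n (x : ℂ) ≠ 0 := by
  intro h0
  have hn' : (0 : ℝ) < n := by exact_mod_cast hn
  have hnc : (n : ℂ) ≠ 0 := by exact_mod_cast hn.ne'
  have hpi : (Real.pi : ℂ) ≠ 0 := by exact_mod_cast Real.pi_ne_zero
  rw [sub_eq_zero] at h0
  unfold cc at h0
  have h1 := mul_left_cancel₀ (two_ne_zero) h0
  rw [Complex.cos_eq_cos_iff] at h1
  obtain ⟨m, hm⟩ := h1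
  have h2 : (x : ℂ) = m * n + z ∨ (x : ℂ) = m * n - z := by
    rcases hm with hm | hm
    · left
      field_simp at hm
      linear_combination hm
    · right
      field_simp at hm
      linear_combination hm
  have h3 : z.im = 0 := by
    rcases h2 with h2 | h2
    · have := congrArg Complex.im h2
      simp at this
      exact this.symm
    · have := congrArg Complex.im h2
      simp at this
      exact this
  rcases hz with hz | hz
  · exact hz h3
  · have h4 : x = m * n + z.re ∨ x = m * n - z.re := by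
      rcases h2 with h2 | h2
      · left
        have := congrArg Complex.re h2
        simp at this
        exact this
      · right
        have := congrArg Complex.re h2
        simp at this
        exact this
    have h5 : x = (2 * m + 1 : ℤ) * ((n : ℝ) / 2) ∨ x = (2 * m - 1 : ℤ) * ((n : ℝ) / 2) := by
      rcases abs_eq (by positivity : (0 : ℝ) ≤ (n : ℝ) / 2) |>.mp hz with hr | hr <;>
      rcases h4 with h4 | h4 <;> rw [hr] at h4
      · left; rw [h4]; push_cast; ring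
      · right; rw [h4]; push_cast; ring
      · right; rw [h4]; push_cast; ring
      · left; rw [h4]; push_cast; ring
    have h6 : ∀ j : ℤ, Odd j → |x| < (n : ℝ) / 2 → x = (j : ℝ) * ((n : ℝ) / 2) → False := by
      intro j hj hxx hxe
      rw [hxe, abs_mul, abs_of_pos (by positivity : (0 : ℝ) < (n : ℝ) / 2)] at hxx
      have h7 : |(j : ℝ)| < 1 := by
        by_contra hcon
        push Not at hcon
        nlinarith
      have h8 : |j| < 1 := by exact_mod_cast h7
      rw [Int.abs_lt_one_iff] at h8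
      rw [h8] at hj
      simp at hj
    rcases h5 with h5 | h5
    · exact h6 _ (by use m) hx h5
    · exact h6 _ (by use m - 1; ring) hx h5

lemma cont_node {s l : ℕ} (hl : l ≤ 2 * s) {ε : ℝ} (h : |ε| < 1 / 2) :
    |((l : ℝ) - s + ε)| < ((2 * s + 1 : ℕ) : ℝ) / 2 := by
  have h1 : (l : ℝ) ≤ 2 * s := by exact_mod_cast hl
  have h2 : (0 : ℝ) ≤ l := Nat.cast_nonneg l
  rw [abs_lt] at h ⊢
  push_cast
  constructor <;> linarith [h.1, h.2]

lemma cont_prod_ne {s k : ℕ} (hk : k ≤ 2 * s) {ε : ℝ} (h : |ε| < 1 / 2) {z : ℂ}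
    (hz : z.im ≠ 0 ∨ |z.re| = ((2 * s + 1 : ℕ) : ℝ) / 2) :
    ∏ l ∈ range (k + 1), (cc (2 * s + 1) z - cc (2 * s + 1) ((l : ℂ) - s + ε)) ≠ 0 := by
  rw [Finset.prod_ne_zero_iff]
  intro l hl
  rw [Finset.mem_range] at hl
  have := cont_cc_ne (n := 2 * s + 1) (by omega) (cont_node (s := s) (l := l) (by omega) h) hz
  push_cast at this ⊢
  exact this

lemma cont_sin_ne {s : ℕ} {z : ℂ} (hz : z.im ≠ 0 ∨ |z.re| = ((2 * s + 1 : ℕ) : ℝ) / 2) :
    Complex.sin (Real.pi * z) ≠ 0 := by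
  have h1 := cont_prod_ne (s := s) (k := 2 * s) le_rfl (ε := 0) (by norm_num) hz
  have h2 := prod_cc s z
  simp only [Complex.ofReal_zero, add_zero] at h1
  rw [h2] at h1
  intro h3
  apply h1
  rw [h3]
  ring

lemma cont_Gk_eq {a s k : ℕ} (hk : k ≤ 2 * s) {z : ℂ}
    (hz : z.im ≠ 0 ∨ |z.re| = ((2 * s + 1 : ℕ) : ℝ) / 2) : Gk a s k z = -4 * Ge a s k 0 z := by
  have h1 := cont_prod_ne (s := s) (k := k) hk (ε := 0) (by norm_num) hz
  have h2 := prod_cc s z
  have h3 := cont_sin_ne hz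
  unfold Gk Ge
  simp only [Complex.ofReal_zero, add_zero] at h1 ⊢
  have h4 : (∏ l ∈ range (k + 1), (cc (2 * s + 1) z - cc (2 * s + 1) ((l : ℂ) - s))) * Qk s k z =
      -4 * Complex.sin (Real.pi * z) ^ 2 := by
    rw [← h2, Qk]
    have : Ioc k (2 * s) = Ico (k + 1) (2 * s + 1) := by
      ext l
      simp only [Finset.mem_Ioc, Finset.mem_Ico]
      omega
    rw [this, Finset.prod_range_mul_prod_Ico _ (by omega)]
  rw [eq_comm, ← sub_eq_zero]
  set P := ∏ l ∈ range (k + 1), (cc (2 * s + 1) z - cc (2 * s + 1) ((l : ℂ) - s)) with hP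
  set S := Complex.sin (Real.pi * z) with hS
  set E := Complex.exp (Real.pi * Complex.I * a * z ^ 2 / ((2 * s + 1 : ℕ) : ℂ))
  set T := Complex.sin (2 * Real.pi * z / ((2 * s + 1 : ℕ) : ℂ))
  have h5 : -4 * (E * T / P) - E * T * Qk s k z / S ^ 2 =
      E * T / (P * S ^ 2) * (-4 * S ^ 2 - P * Qk s k z) := by
    field_simp
  rw [h5, h4, sub_self, mul_zero]

/-! ### dependence on the parameter -/

lemma cont_param {f : ℝ → ℝ → ℂ} {a b c d : ℝ} (hab : a ≤ b)
    (hf : ContinuousOn (Function.uncurry f) (Set.Icc c d ×ˢ Set.Icc a b)) :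
    ContinuousOn (fun e => ∫ y in a..b, f e y) (Set.Icc c d) := by
  rw [continuousOn_iff_continuous_domRestrict]
  have h1 : Continuous (Function.uncurry fun (e : Set.Icc c d) (y : ℝ) =>
      f e (Set.projIcc a b hab y)) := by
    have h2 : Continuous fun p : (Set.Icc c d) × ℝ =>
        (((p.1 : ℝ), ((Set.projIcc a b hab p.2 : Set.Icc a b) : ℝ)) : ℝ × ℝ) := by
      fun_prop
    have h3 := hf.comp_continuous h2 (fun p => ⟨p.1.2, (Set.projIcc a b hab p.2).2⟩)
    exact h3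
  have h4 := intervalIntegral.continuous_parametric_intervalIntegral_of_continuous'
    (μ := MeasureTheory.volume) h1 a b
  convert h4 using 2 with e
  refine intervalIntegral.integral_congr fun y hy => ?_
  rw [Set.uIcc_of_le hab] at hy
  rw [Set.projIcc_of_mem hab hy]

lemma cont_Ge {a s k : ℕ} (hk : k ≤ 2 * s) :
    ContinuousOn (fun p : ℝ × ℂ => Ge a s k p.1 p.2)
      {p | |p.1| < 1 / 2 ∧ (p.2.im ≠ 0 ∨ |p.2.re| = ((2 * s + 1 : ℕ) : ℝ) / 2)} := by
  unfold Ge cc
  refine ContinuousOn.div (by fun_prop) (by fun_prop) ?_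
  intro p hp
  have := cont_prod_ne (s := s) hk hp.1 hp.2
  exact this

attribute [local irreducible] Ge in
lemma cont_path {a s k : ℕ} (hk : k ≤ 2 * s) {h : ℝ} (hh : 0 < h) :
    ContinuousOn (fun ε : ℝ => pathInt (Ge a s k ε) (hn s) (-(hn s)) h h)
      (Set.Icc (-(1 / 4)) (1 / 4)) := by
  have hab : |hn s| = ((2 * s + 1 : ℕ) : ℝ) / 2 := by
    unfold hn
    exact abs_of_nonneg (by positivity)
  have hnn : 0 ≤ hn s := by unfold hn; positivity
  have hG := cont_Ge (a := a) hk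
  have key : ∀ (φ : ℝ → ℂ) (u v : ℝ), u ≤ v → Continuous φ →
      (∀ y ∈ Set.Icc u v, (φ y).im ≠ 0 ∨ |(φ y).re| = ((2 * s + 1 : ℕ) : ℝ) / 2) →
      ContinuousOn (fun ε : ℝ => ∫ y in u..v, Ge a s k ε (φ y)) (Set.Icc (-(1 / 4)) (1 / 4)) := by
    intro φ u v huv hφ hφ2
    refine cont_param huv ?_
    rw [Function.uncurry_def]
    have h2 : Continuous fun p : ℝ × ℝ => (p.1, φ p.2) := by fun_prop
    refine ContinuousOn.comp (g := fun p : ℝ × ℂ => Ge a s k p.1 p.2)
      (f := fun p : ℝ × ℝ => (p.1, φ p.2)) hG h2.continuousOn ?_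
    rintro ⟨e, y⟩ ⟨he, hy⟩
    simp only [Set.mem_Icc] at he
    refine ⟨?_, hφ2 y hy⟩
    have : |e| < 1 / 2 := by
      rw [abs_lt]
      constructor <;> linarith [he.1, he.2]
    exact this
  unfold pathInt
  simp only [intervalIntegral.integral_same, mul_zero, sub_zero]
  refine ContinuousOn.sub (ContinuousOn.sub (ContinuousOn.mul continuousOn_const ?_) ?_)
    (ContinuousOn.mul continuousOn_const ?_)
  · refine key (fun y => (hn s : ℂ) + y * Complex.I) 0 h hh.le (by fun_prop) ?_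
    intro y _
    right
    simp [hab]
  · refine key (fun x => (x : ℂ) + h * Complex.I) (-(hn s)) (hn s) (by linarith) (by fun_prop) ?_
    intro y _
    left
    simp [hh.ne']
  · refine key (fun y => ((-(hn s) : ℝ) : ℂ) + y * Complex.I) 0 h hh.le (by fun_prop) ?_
    intro y _
    right
    simp [hab]

lemma cont_gz {s j k : ℕ} (hk : k ≤ 2 * s) : ContinuousAt (fun z => gz s (tt s) z j k) 1 := by
  unfold gz
  by_cases hjk : j ≤ k
  · simp only [if_pos hjk]
    refine ContinuousAt.div (by fun_prop) ?_ ?_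
    · unfold pz
      fun_prop
    · unfold pz
      refine mul_ne_zero ?_ (qf_ne_zero (tt_prim s) (by omega))
      rw [Finset.prod_ne_zero_iff]
      intro l hl
      rw [Finset.mem_Ico] at hl
      rw [one_mul]
      exact one_sub_pow_ne (tt_prim s) (by omega) (by omega)
  · simp only [if_neg hjk]
    exact continuousAt_const

lemma cont_Gm {s : ℕ} (a j k : ℕ) (hk : k ≤ 2 * s) :
    ContinuousAt (fun z => Gm s (tt s) z a j k) 1 := by
  induction a generalizing k with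
  | zero =>
    unfold Gm
    exact continuousAt_const
  | succ a ih =>
    unfold Gm
    refine tendsto_finsetSum _ fun l hl => ?_
    rw [Finset.mem_range] at hl
    exact (ih l (by omega)).mul (cont_gz hk)

/-- the limit `ε → 0` -/
theorem contour_one {s a k : ℕ} (hk : k ≤ 2 * s) {h : ℝ} (hh : 0 < h) :
    ‖Gm s (tt s) 1 a 0 k‖ =
      ‖pathInt (Gk a s k) (hn s) (-(hn s)) h h‖ / (2 * ((2 * s + 1 : ℕ) : ℝ)) := by
  have hab : |hn s| = ((2 * s + 1 : ℕ) : ℝ) / 2 := by
    unfold hn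
    exact abs_of_nonneg (by positivity)
  have hnn : 0 ≤ hn s := by unfold hn; positivity
  have hn' : (0 : ℝ) < ((2 * s + 1 : ℕ) : ℝ) := by positivity
  -- the two limits
  have hze : Filter.Tendsto (ze s) (nhdsWithin 0 (Set.Ioi 0)) (nhds 1) := by
    have : Continuous (ze s) := by unfold ze; fun_prop
    have h0 : ze s 0 = 1 := by simp [ze]
    have := this.tendsto 0
    rw [h0] at this
    exact this.mono_left nhdsWithin_le_nhds
  have l1 : Filter.Tendsto (fun ε : ℝ => ‖Gm s (tt s) (ze s ε) a 0 k‖)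
      (nhdsWithin 0 (Set.Ioi 0)) (nhds ‖Gm s (tt s) 1 a 0 k‖) :=
    ((cont_Gm a 0 k hk).tendsto.comp hze).norm
  have l2 : Filter.Tendsto (fun ε : ℝ => 2 / ((2 * s + 1 : ℕ) : ℝ) *
      ‖pathInt (Ge a s k ε) (hn s) (-(hn s)) h h‖)
      (nhdsWithin 0 (Set.Ioi 0)) (nhds (2 / ((2 * s + 1 : ℕ) : ℝ) *
      ‖pathInt (Ge a s k 0) (hn s) (-(hn s)) h h‖)) := by
    have h1 := (cont_path (a := a) hk hh).continuousAt
      (Icc_mem_nhds (by norm_num : -(1 / 4 : ℝ) < 0) (by norm_num : (0 : ℝ) < 1 / 4))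
    exact ((h1.tendsto.mono_left nhdsWithin_le_nhds).norm).const_mul _
  have heq : (fun ε : ℝ => ‖Gm s (tt s) (ze s ε) a 0 k‖) =ᶠ[nhdsWithin 0 (Set.Ioi 0)]
      (fun ε : ℝ => 2 / ((2 * s + 1 : ℕ) : ℝ) *
      ‖pathInt (Ge a s k ε) (hn s) (-(hn s)) h h‖) := by
    have h1 : Set.Ioo (0 : ℝ) (1 / 2) ∈ nhdsWithin (0 : ℝ) (Set.Ioi 0) :=
      Ioo_mem_nhdsGT (by norm_num)
    filter_upwards [h1] with ε hε
    rw [Gm_ze hk hε.1 hε.2, dd_contour hk hε.1 hε.2 hh]
  have h3 := tendsto_nhds_unique l1 (l2.congr' heq.symm)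
  have h4 : pathInt (Gk a s k) (hn s) (-(hn s)) h h =
      -4 * pathInt (Ge a s k 0) (hn s) (-(hn s)) h h := by
    unfold pathInt
    simp only [intervalIntegral.integral_same, mul_zero, sub_zero]
    have e1 : (∫ y in (0 : ℝ)..h, Gk a s k ((hn s : ℂ) + y * Complex.I)) =
        -4 * ∫ y in (0 : ℝ)..h, Ge a s k 0 ((hn s : ℂ) + y * Complex.I) := by
      rw [← intervalIntegral.integral_const_mul]
      refine intervalIntegral.integral_congr fun y _ => cont_Gk_eq hk (Or.inr ?_)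
      simp [hab]
    have e2 : (∫ x in (-(hn s))..(hn s), Gk a s k ((x : ℂ) + h * Complex.I)) =
        -4 * ∫ x in (-(hn s))..(hn s), Ge a s k 0 ((x : ℂ) + h * Complex.I) := by
      rw [← intervalIntegral.integral_const_mul]
      refine intervalIntegral.integral_congr fun y _ => cont_Gk_eq hk (Or.inl ?_)
      simp [hh.ne']
    have e3 : (∫ y in (0 : ℝ)..h, Gk a s k (((-(hn s) : ℝ) : ℂ) + y * Complex.I)) =
        -4 * ∫ y in (0 : ℝ)..h, Ge a s k 0 (((-(hn s) : ℝ) : ℂ) + y * Complex.I) := by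
      rw [← intervalIntegral.integral_const_mul]
      refine intervalIntegral.integral_congr fun y _ => cont_Gk_eq hk (Or.inr ?_)
      simp [hab]
    rw [e1, e2, e3]
    ring
  rw [h3, h4, norm_mul]
  norm_num
  field_simp
  ring

/-! ### deformation of the path -/

lemma cont_Gk_diff {a s k : ℕ} {z : ℂ} (hz : Complex.sin (Real.pi * z) ≠ 0) :
    DifferentiableAt ℂ (Gk a s k) z := by
  unfold Gk Qk cc
  refine DifferentiableAt.div (by fun_prop) (by fun_prop) (pow_ne_zero _ hz)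

/-- deformation of the path -/
theorem contour {s a k : ℕ} (hk : k ≤ 2 * s) {x₁ h₁ h₂ : ℝ} (hx : |x₁| ≤ hn s) (hh1 : 0 < h₁)
    (hh2 : 0 < h₂) :
    ‖Gm s (tt s) 1 a 0 k‖ =
      ‖pathInt (Gk a s k) (hn s) x₁ h₁ h₂‖ / (2 * ((2 * s + 1 : ℕ) : ℝ)) := by
  rw [contour_one hk hh1]
  congr 2
  have hab : |hn s| = ((2 * s + 1 : ℕ) : ℝ) / 2 := by
    unfold hn
    exact abs_of_nonneg (by positivity)
  have hdiff : ∀ z : ℂ, 0 < z.im → DifferentiableAt ℂ (Gk a s k) z := fun z hz =>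
    cont_Gk_diff (cont_sin_ne (s := s) (Or.inl hz.ne'))
  -- the rectangle
  have hrect := Complex.integral_boundary_rect_eq_zero_of_differentiableOn (Gk a s k)
    (⟨-(hn s), h₂⟩ : ℂ) (⟨x₁, h₁⟩ : ℂ) (by
      intro z hz
      have h1 : z.im ∈ Set.uIcc h₂ h₁ := hz.2
      rw [Set.mem_uIcc] at h1
      have : 0 < z.im := by
        rcases h1 with h1 | h1
        · exact lt_of_lt_of_le hh2 h1.1
        · exact lt_of_lt_of_le hh1 h1.1
      exact (hdiff z this).differentiableWithinAt)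
  simp only [smul_eq_mul] at hrect
  -- continuity along the sides
  have c1 : ∀ h : ℝ, 0 < h → Continuous fun x : ℝ => Gk a s k ((x : ℂ) + h * Complex.I) := by
    intro h hh
    rw [continuous_iff_continuousAt]
    intro x
    have h2 : (0 : ℝ) < ((x : ℂ) + h * Complex.I).im := by simp [hh]
    have h3 := (hdiff _ h2).continuousAt
    exact ContinuousAt.comp (f := fun x : ℝ => ((x : ℂ) + h * Complex.I)) h3 (by fun_prop)
  have c2 : Continuous fun y : ℝ => Gk a s k (((-(hn s) : ℝ) : ℂ) + y * Complex.I) := by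
    rw [continuous_iff_continuousAt]
    intro y
    have h2 : Complex.sin (Real.pi * (((-(hn s) : ℝ) : ℂ) + y * Complex.I)) ≠ 0 :=
      cont_sin_ne (s := s) (Or.inr (by simp [hab]))
    have h3 := (cont_Gk_diff (a := a) (s := s) (k := k) h2).continuousAt
    exact ContinuousAt.comp (f := fun y : ℝ => (((-(hn s) : ℝ) : ℂ) + y * Complex.I)) h3
      (by fun_prop)
  have s1 : (∫ x in (-(hn s))..x₁, Gk a s k ((x : ℂ) + h₁ * Complex.I)) +
      (∫ x in x₁..(hn s), Gk a s k ((x : ℂ) + h₁ * Complex.I)) =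
      ∫ x in (-(hn s))..(hn s), Gk a s k ((x : ℂ) + h₁ * Complex.I) :=
    intervalIntegral.integral_add_adjacent_intervals ((c1 h₁ hh1).intervalIntegrable _ _)
      ((c1 h₁ hh1).intervalIntegrable _ _)
  have s2 : (∫ y in (0 : ℝ)..h₂, Gk a s k (((-(hn s) : ℝ) : ℂ) + y * Complex.I)) +
      (∫ y in h₂..h₁, Gk a s k (((-(hn s) : ℝ) : ℂ) + y * Complex.I)) =
      ∫ y in (0 : ℝ)..h₁, Gk a s k (((-(hn s) : ℝ) : ℂ) + y * Complex.I) :=
    intervalIntegral.integral_add_adjacent_intervals (c2.intervalIntegrable _ _)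
      (c2.intervalIntegrable _ _)
  unfold pathInt
  simp only [intervalIntegral.integral_same, mul_zero, sub_zero]
  linear_combination s1 + Complex.I * s2 + hrect

end Pool.Agent.Work.MP_b30479_gtS.DT

end

section

/-!
# All entries of the powers of the braiding matrix as contour integrals (exact, with phases)

`n = 2s+1`, `cc n z = 2 cos (2πz/n)`, nodes `l - s`, `l = 0..2s`.
-/

namespace Pool.Agent.Work.MP_b30479_gtS.VC

open Finset AX DT
open TB

/-! ### linearity of the path integral -/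

/-- the set on which the integrands are continuous -/
def US (b : ℝ) : Set ℂ := {z | z.im ≠ 0 ∨ |z.re| = b}

lemma vert_mem {b : ℝ} (hb : 0 ≤ b) (y : ℝ) : (b : ℂ) + y * Complex.I ∈ US b := by
  right
  simp [abs_of_nonneg hb]

lemma vert_mem' {b : ℝ} (hb : 0 ≤ b) (y : ℝ) : ((-b : ℝ) : ℂ) + y * Complex.I ∈ US b := by
  right
  simp [abs_of_nonneg hb]

lemma hor_mem {b h : ℝ} (hh : h ≠ 0) (x : ℝ) : (x : ℂ) + h * Complex.I ∈ US b := by
  left
  simp [hh]

lemma vert_cont {F : ℂ → ℂ} {b : ℝ} (hb : 0 ≤ b) (hF : ContinuousOn F (US b)) :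
    Continuous fun y : ℝ => F ((b : ℂ) + y * Complex.I) :=
  hF.comp_continuous (by fun_prop) (vert_mem hb)

lemma vert_cont' {F : ℂ → ℂ} {b : ℝ} (hb : 0 ≤ b) (hF : ContinuousOn F (US b)) :
    Continuous fun y : ℝ => F (((-b : ℝ) : ℂ) + y * Complex.I) :=
  hF.comp_continuous (by fun_prop) (vert_mem' hb)

lemma hor_cont {F : ℂ → ℂ} {b h : ℝ} (hh : h ≠ 0) (hF : ContinuousOn F (US b)) :
    Continuous fun x : ℝ => F ((x : ℂ) + h * Complex.I) :=
  hF.comp_continuous (by fun_prop) (hor_mem hh)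

/-- the upper half of the boundary of the rectangle -/
lemma pathInt_up (F : ℂ → ℂ) (b h : ℝ) : pathInt F b (-b) h h =
    Complex.I * (∫ y in (0 : ℝ)..h, F ((b : ℂ) + y * Complex.I)) -
    (∫ x in (-b)..b, F ((x : ℂ) + h * Complex.I)) -
    Complex.I * (∫ y in (0 : ℝ)..h, F (((-b : ℝ) : ℂ) + y * Complex.I)) := by
  unfold pathInt
  simp only [intervalIntegral.integral_same, mul_zero, sub_zero]

lemma pathInt_congr {F G : ℂ → ℂ} {b h : ℝ} (hb : 0 ≤ b) (hh : h ≠ 0)
    (hFG : ∀ z ∈ US b, F z = G z) : pathInt F b (-b) h h = pathInt G b (-b) h h := by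
  rw [pathInt_up, pathInt_up]
  congr 1
  · congr 1
    · congr 1
      exact intervalIntegral.integral_congr fun y _ => hFG _ (vert_mem hb y)
    · exact intervalIntegral.integral_congr fun y _ => hFG _ (hor_mem hh y)
  · congr 1
    exact intervalIntegral.integral_congr fun y _ => hFG _ (vert_mem' hb y)

lemma pathInt_const_mul (c : ℂ) (F : ℂ → ℂ) (b h : ℝ) :
    pathInt (fun z => c * F z) b (-b) h h = c * pathInt F b (-b) h h := by
  rw [pathInt_up, pathInt_up]
  simp only [intervalIntegral.integral_const_mul]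
  ring

lemma pathInt_sub {F G : ℂ → ℂ} {b h : ℝ} (hb : 0 ≤ b) (hh : h ≠ 0)
    (hF : ContinuousOn F (US b)) (hG : ContinuousOn G (US b)) :
    pathInt (fun z => F z - G z) b (-b) h h =
      pathInt F b (-b) h h - pathInt G b (-b) h h := by
  rw [pathInt_up, pathInt_up, pathInt_up]
  rw [intervalIntegral.integral_sub ((vert_cont hb hF).intervalIntegrable _ _)
      ((vert_cont hb hG).intervalIntegrable _ _),
    intervalIntegral.integral_sub ((hor_cont hh hF).intervalIntegrable _ _)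
      ((hor_cont hh hG).intervalIntegrable _ _),
    intervalIntegral.integral_sub ((vert_cont' hb hF).intervalIntegrable _ _)
      ((vert_cont' hb hG).intervalIntegrable _ _)]
  ring

/-- for an odd function the rectangle is twice its upper half -/
lemma rectInt_odd {F : ℂ → ℂ} {b h : ℝ} (hb : 0 ≤ b) (hF : ContinuousOn F (US b))
    (hodd : ∀ z, F (-z) = -F z) : rectInt F b h = 2 * pathInt F b (-b) h h := by
  rw [pathInt_up]
  unfold rectInt
  have e1 : (∫ x in (-b)..b, F ((x : ℂ) - h * Complex.I)) =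
      -∫ x in (-b)..b, F ((x : ℂ) + h * Complex.I) := by
    have := intervalIntegral.integral_comp_neg (a := -b) (b := b)
      (fun x : ℝ => F ((x : ℂ) - h * Complex.I))
    rw [neg_neg] at this
    rw [← this, ← intervalIntegral.integral_neg]
    refine intervalIntegral.integral_congr fun x _ => ?_
    rw [← hodd]
    congr 1
    push_cast
    ring
  have e2 : (∫ y in (-h)..0, F ((b : ℂ) + y * Complex.I)) =
      -∫ y in (0 : ℝ)..h, F (((-b : ℝ) : ℂ) + y * Complex.I) := by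
    have := intervalIntegral.integral_comp_neg (a := 0) (b := h)
      (fun y : ℝ => F ((b : ℂ) + y * Complex.I))
    rw [neg_zero] at this
    rw [← this, ← intervalIntegral.integral_neg]
    refine intervalIntegral.integral_congr fun x _ => ?_
    rw [← hodd]
    congr 1
    push_cast
    ring
  have e3 : (∫ y in (-h)..0, F (((-b : ℝ) : ℂ) + y * Complex.I)) =
      -∫ y in (0 : ℝ)..h, F ((b : ℂ) + y * Complex.I) := by
    have := intervalIntegral.integral_comp_neg (a := 0) (b := h)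
      (fun y : ℝ => F (((-b : ℝ) : ℂ) + y * Complex.I))
    rw [neg_zero] at this
    rw [← this, ← intervalIntegral.integral_neg]
    refine intervalIntegral.integral_congr fun x _ => ?_
    rw [← hodd]
    congr 1
    push_cast
    ring
  have s1 := intervalIntegral.integral_add_adjacent_intervals (a := -h) (b := 0) (c := h)
    ((vert_cont hb hF).intervalIntegrable _ _) ((vert_cont hb hF).intervalIntegrable _ _)
    (μ := MeasureTheory.volume)
  have s2 := intervalIntegral.integral_add_adjacent_intervals (a := -h) (b := 0) (c := h)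
    ((vert_cont' hb hF).intervalIntegrable _ _) ((vert_cont' hb hF).intervalIntegrable _ _)
    (μ := MeasureTheory.volume)
  rw [e2] at s1
  rw [e3] at s2
  rw [e1, ← s1, ← s2]
  ring

lemma rectInt_congr {F G : ℂ → ℂ} {b h : ℝ} (hb : 0 ≤ b) (hh : h ≠ 0)
    (hFG : ∀ z ∈ US b, F z = G z) : rectInt F b h = rectInt G b h := by
  unfold rectInt
  have h1 : ∀ x : ℝ, (x : ℂ) - h * Complex.I ∈ US b := by
    intro x
    have := hor_mem (b := b) (neg_ne_zero.mpr hh) x
    rw [show (x : ℂ) - h * Complex.I = x + ((-h : ℝ) : ℂ) * Complex.I by push_cast; ring]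
    exact this
  congr 1
  · congr 1
    · congr 1
      · exact intervalIntegral.integral_congr fun x _ => hFG _ (h1 x)
      · congr 1
        exact intervalIntegral.integral_congr fun y _ => hFG _ (vert_mem hb y)
    · exact intervalIntegral.integral_congr fun y _ => hFG _ (hor_mem hh y)
  · congr 1
    exact intervalIntegral.integral_congr fun y _ => hFG _ (vert_mem' hb y)

lemma rectInt_const_mul (c : ℂ) (F : ℂ → ℂ) (b h : ℝ) :
    rectInt (fun z => c * F z) b h = c * rectInt F b h := by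
  unfold rectInt
  simp only [intervalIntegral.integral_const_mul]
  ring

lemma rectInt_add {F G : ℂ → ℂ} {b h : ℝ} (hb : 0 ≤ b) (hh : h ≠ 0)
    (hF : ContinuousOn F (US b)) (hG : ContinuousOn G (US b)) :
    rectInt (fun z => F z + G z) b h = rectInt F b h + rectInt G b h := by
  have h1 : ∀ {F : ℂ → ℂ}, ContinuousOn F (US b) →
      Continuous fun x : ℝ => F ((x : ℂ) - h * Complex.I) := by
    intro F hF
    have := hor_cont (neg_ne_zero.mpr hh) hF
    refine this.congr fun x => ?_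
    congr 1
    push_cast
    ring
  unfold rectInt
  rw [intervalIntegral.integral_add ((vert_cont hb hF).intervalIntegrable _ _)
      ((vert_cont hb hG).intervalIntegrable _ _),
    intervalIntegral.integral_add ((hor_cont hh hF).intervalIntegrable _ _)
      ((hor_cont hh hG).intervalIntegrable _ _),
    intervalIntegral.integral_add ((vert_cont' hb hF).intervalIntegrable _ _)
      ((vert_cont' hb hG).intervalIntegrable _ _),
    intervalIntegral.integral_add ((h1 hF).intervalIntegrable _ _)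
      ((h1 hG).intervalIntegrable _ _)]
  ring

/-! ### one node -/

lemma cc_sub (n : ℕ) (z w : ℂ) : cc n z - cc n w =
    -4 * Complex.sin (Real.pi * (z + w) / n) * Complex.sin (Real.pi * (z - w) / n) := by
  unfold cc
  have := Complex.cos_sub_cos (2 * Real.pi * z / n) (2 * Real.pi * w / n)
  rw [show (2 * Real.pi * z / n + 2 * Real.pi * w / n) / 2 = (Real.pi * (z + w) / n : ℂ) by ring,
    show (2 * Real.pi * z / n - 2 * Real.pi * w / n) / 2 = (Real.pi * (z - w) / n : ℂ) by ring]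
    at this
  linear_combination 2 * this

lemma US_mem {s : ℕ} {z : ℂ} (hz : z ∈ US (hn s)) :
    z.im ≠ 0 ∨ |z.re| = ((2 * s + 1 : ℕ) : ℝ) / 2 := hz

lemma node_one {s : ℕ} {F : ℂ → ℂ} (hF : Differentiable ℂ F) (heven : ∀ z, F (-z) = F z)
    {w h : ℝ} (hh : 0 < h) (hw : |w| < ((2 * s + 1 : ℕ) : ℝ) / 2) :
    pathInt (fun z => F z * Complex.sin (2 * Real.pi * z / ((2 * s + 1 : ℕ) : ℂ)) /
      (cc (2 * s + 1) z - cc (2 * s + 1) w)) (hn s) (-(hn s)) h h =
      -(((2 * s + 1 : ℕ) : ℂ) * Complex.I / 2) * F w := by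
  have hb : 0 ≤ hn s := by unfold hn; positivity
  have hn0 : (((2 * s + 1 : ℕ) : ℕ) : ℂ) ≠ 0 := by exact_mod_cast Nat.succ_ne_zero (2 * s)
  have hpi : (Real.pi : ℂ) ≠ 0 := by exact_mod_cast Real.pi_ne_zero
  have hw' : |(-w)| < ((2 * s + 1 : ℕ) : ℝ) / 2 := by rwa [abs_neg]
  have hb2 : (2 * (hn s : ℂ)) = ((2 * s + 1 : ℕ) : ℂ) := by
    unfold hn
    push_cast
    ring
  -- denominators
  have hne : ∀ z ∈ US (hn s), cc (2 * s + 1) z - cc (2 * s + 1) w ≠ 0 := fun z hz =>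
    cont_cc_ne (by omega) hw (US_mem hz)
  have hne1 : ∀ z ∈ US (hn s), Complex.sin (Real.pi * (z - w) / ((2 * s + 1 : ℕ) : ℂ)) ≠ 0 := by
    intro z hz h0
    have := hne z hz
    rw [cc_sub, h0, mul_zero] at this
    exact this rfl
  have hne2 : ∀ z ∈ US (hn s), Complex.sin (Real.pi * (z + w) / ((2 * s + 1 : ℕ) : ℂ)) ≠ 0 := by
    intro z hz h0
    have := hne z hz
    rw [cc_sub, h0, mul_zero, zero_mul] at this
    exact this rfl
  set G : ℂ → ℂ := fun z => F z * Complex.sin (2 * Real.pi * z / ((2 * s + 1 : ℕ) : ℂ)) /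
      (cc (2 * s + 1) z - cc (2 * s + 1) w) with hG
  have hGc : ContinuousOn G (US (hn s)) := by
    refine ContinuousOn.div ?_ ?_ hne
    · exact (hF.continuous.mul (by fun_prop)).continuousOn
    · unfold cc
      fun_prop
  have hGodd : ∀ z, G (-z) = -G z := by
    intro z
    simp only [hG]
    rw [heven, show (2 * (Real.pi : ℂ) * -z / ((2 * s + 1 : ℕ) : ℂ)) =
      -(2 * Real.pi * z / ((2 * s + 1 : ℕ) : ℂ)) by ring, Complex.sin_neg]
    have : cc (2 * s + 1) (-z) = cc (2 * s + 1) z := by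
      unfold cc
      rw [show (2 * (Real.pi : ℂ) * -z / ((2 * s + 1 : ℕ) : ℂ)) =
        -(2 * Real.pi * z / ((2 * s + 1 : ℕ) : ℂ)) by ring, Complex.cos_neg]
    rw [this]
    ring
  have h2 := rectInt_odd (h := h) hb hGc hGodd
  -- the two cotangents
  have hbw : |w| < hn s := hw
  have hbw' : |(-w)| < hn s := hw'
  have r1 := rect_cot hF hh hbw
  have r2 := rect_cot hF hh hbw'
  simp only [hb2] at r1 r2
  simp only [Complex.ofReal_neg, sub_neg_eq_add] at r2
  rw [heven] at r2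
  have c1 : ContinuousOn (fun z => F z * (Real.pi / ((2 * s + 1 : ℕ) : ℂ) *
      (Complex.cos (Real.pi * (z - w) / ((2 * s + 1 : ℕ) : ℂ)) /
      Complex.sin (Real.pi * (z - w) / ((2 * s + 1 : ℕ) : ℂ))))) (US (hn s)) := by
    refine hF.continuous.continuousOn.mul (ContinuousOn.mul continuousOn_const ?_)
    exact ContinuousOn.div (by fun_prop) (by fun_prop) hne1
  have c2 : ContinuousOn (fun z => F z * (Real.pi / ((2 * s + 1 : ℕ) : ℂ) *
      (Complex.cos (Real.pi * (z + w) / ((2 * s + 1 : ℕ) : ℂ)) /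
      Complex.sin (Real.pi * (z + w) / ((2 * s + 1 : ℕ) : ℂ))))) (US (hn s)) := by
    refine hF.continuous.continuousOn.mul (ContinuousOn.mul continuousOn_const ?_)
    exact ContinuousOn.div (by fun_prop) (by fun_prop) hne2
  have r3 := rectInt_add hb hh.ne' c1 c2
  have r4 : rectInt G (hn s) h = -(((2 * s + 1 : ℕ) : ℂ) / (4 * Real.pi)) *
      rectInt (fun z => F z * (Real.pi / ((2 * s + 1 : ℕ) : ℂ) *
      (Complex.cos (Real.pi * (z - w) / ((2 * s + 1 : ℕ) : ℂ)) /
      Complex.sin (Real.pi * (z - w) / ((2 * s + 1 : ℕ) : ℂ)))) +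
      F z * (Real.pi / ((2 * s + 1 : ℕ) : ℂ) *
      (Complex.cos (Real.pi * (z + w) / ((2 * s + 1 : ℕ) : ℂ)) /
      Complex.sin (Real.pi * (z + w) / ((2 * s + 1 : ℕ) : ℂ))))) (hn s) h := by
    rw [← rectInt_const_mul]
    refine rectInt_congr hb hh.ne' fun z hz => ?_
    have d0 := hne z hz
    have d1 := hne1 z hz
    have d2 := hne2 z hz
    simp only [hG]
    have e1 : Complex.sin (2 * Real.pi * z / ((2 * s + 1 : ℕ) : ℂ)) =
        Complex.sin (Real.pi * (z + w) / ((2 * s + 1 : ℕ) : ℂ)) *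
          Complex.cos (Real.pi * (z - w) / ((2 * s + 1 : ℕ) : ℂ)) +
        Complex.cos (Real.pi * (z + w) / ((2 * s + 1 : ℕ) : ℂ)) *
          Complex.sin (Real.pi * (z - w) / ((2 * s + 1 : ℕ) : ℂ)) := by
      rw [← Complex.sin_add]
      congr 1
      ring
    rw [e1, cc_sub]
    field_simp
  rw [r4, r3, r1] at h2
  rw [r2] at h2
  have h5 : 2 * pathInt G (hn s) (-(hn s)) h h =
      2 * (-(((2 * s + 1 : ℕ) : ℂ) * Complex.I / 2) * F w) := by
    rw [← h2]
    field_simp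
    ring
  exact mul_left_cancel₀ two_ne_zero h5

/-! ### divided differences -/

lemma path_cont {s : ℕ} {F : ℂ → ℂ} (hF : Differentiable ℂ F) (w : ℕ → ℝ) (S : Finset ℕ)
    (hw : ∀ i ∈ S, |w i| < ((2 * s + 1 : ℕ) : ℝ) / 2) :
    ContinuousOn (fun z => F z * Complex.sin (2 * Real.pi * z / ((2 * s + 1 : ℕ) : ℂ)) /
      ∏ l ∈ S, (cc (2 * s + 1) z - cc (2 * s + 1) (w l))) (US (hn s)) := by
  refine ContinuousOn.div ?_ ?_ ?_
  · exact (hF.continuous.mul (by fun_prop)).continuousOn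
  · unfold cc
    fun_prop
  · intro z hz
    rw [Finset.prod_ne_zero_iff]
    intro l hl
    exact cont_cc_ne (by omega) (hw l hl) (US_mem hz)

lemma dd_path {s : ℕ} {F : ℂ → ℂ} (hF : Differentiable ℂ F) (heven : ∀ z, F (-z) = F z)
    {h : ℝ} (hh : 0 < h) (w : ℕ → ℝ) (d j : ℕ)
    (hw : ∀ i ∈ Icc j (j + d), |w i| < ((2 * s + 1 : ℕ) : ℝ) / 2)
    (hne : ∀ i ∈ Icc j (j + d), ∀ l ∈ Icc j (j + d), i ≠ l →
      cc (2 * s + 1) (w i) ≠ cc (2 * s + 1) (w l)) :
    pathInt (fun z => F z * Complex.sin (2 * Real.pi * z / ((2 * s + 1 : ℕ) : ℂ)) /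
      ∏ l ∈ Icc j (j + d), (cc (2 * s + 1) z - cc (2 * s + 1) (w l))) (hn s) (-(hn s)) h h =
      -(((2 * s + 1 : ℕ) : ℂ) * Complex.I / 2) *
        dd (fun i => cc (2 * s + 1) (w i)) (fun i => F (w i)) j (j + d) := by
  have hb : 0 ≤ hn s := by unfold hn; positivity
  induction d generalizing j with
  | zero =>
    have h1 := node_one hF heven hh (hw j (by simp))
    have h2 := dd_diag (fun i => cc (2 * s + 1) (w i)) (fun i => F (w i)) j
    simp only [add_zero, Finset.Icc_self, Finset.prod_singleton]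
    rw [h2]
    exact h1
  | succ d ih =>
    have i1 := ih (j + 1) (fun i hi => hw i (by rw [Finset.mem_Icc] at hi ⊢; omega))
      (fun i hi l hl => hne i (by rw [Finset.mem_Icc] at hi ⊢; omega) l
        (by rw [Finset.mem_Icc] at hl ⊢; omega))
    have i2 := ih j (fun i hi => hw i (by rw [Finset.mem_Icc] at hi ⊢; omega))
      (fun i hi l hl => hne i (by rw [Finset.mem_Icc] at hi ⊢; omega) l
        (by rw [Finset.mem_Icc] at hl ⊢; omega))
    have hc : cc (2 * s + 1) (w (j + d + 1)) - cc (2 * s + 1) (w j) ≠ 0 :=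
      sub_ne_zero.mpr (hne _ (by rw [Finset.mem_Icc]; omega) _ (by rw [Finset.mem_Icc]; omega)
        (by omega))
    have h2 := dd_rec (fun i => cc (2 * s + 1) (w i)) (fun i => F (w i)) (show j ≤ j + d by omega)
      (fun i hi l hl hil => hne i (by rw [Finset.mem_Icc] at hi ⊢; omega) l
        (by rw [Finset.mem_Icc] at hl ⊢; omega) hil)
    have c1 := path_cont (s := s) hF w (Icc (j + 1) (j + 1 + d))
      (fun i hi => hw i (by rw [Finset.mem_Icc] at hi ⊢; omega))
    have c2 := path_cont (s := s) hF w (Icc j (j + d))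
      (fun i hi => hw i (by rw [Finset.mem_Icc] at hi ⊢; omega))
    have h3 := pathInt_sub hb hh.ne' c1 c2
    have h4 : pathInt (fun z => (cc (2 * s + 1) (w (j + d + 1)) - cc (2 * s + 1) (w j)) *
        (F z * Complex.sin (2 * Real.pi * z / ((2 * s + 1 : ℕ) : ℂ)) /
        ∏ l ∈ Icc j (j + (d + 1)), (cc (2 * s + 1) z - cc (2 * s + 1) (w l))))
        (hn s) (-(hn s)) h h =
        pathInt (fun z => F z * Complex.sin (2 * Real.pi * z / ((2 * s + 1 : ℕ) : ℂ)) /
          ∏ l ∈ Icc (j + 1) (j + 1 + d), (cc (2 * s + 1) z - cc (2 * s + 1) (w l)) -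
          F z * Complex.sin (2 * Real.pi * z / ((2 * s + 1 : ℕ) : ℂ)) /
          ∏ l ∈ Icc j (j + d), (cc (2 * s + 1) z - cc (2 * s + 1) (w l)))
          (hn s) (-(hn s)) h h := by
      refine pathInt_congr hb hh.ne' fun z hz => ?_
      have p1 : ∏ l ∈ Icc j (j + (d + 1)), (cc (2 * s + 1) z - cc (2 * s + 1) (w l)) =
          (cc (2 * s + 1) z - cc (2 * s + 1) (w j)) *
          ∏ l ∈ Icc (j + 1) (j + 1 + d), (cc (2 * s + 1) z - cc (2 * s + 1) (w l)) := by
        rw [← Finset.mul_prod_Ioc_eq_prod_Icc (by omega)]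
        congr 1
        refine Finset.prod_congr ?_ fun _ _ => rfl
        ext x
        simp only [Finset.mem_Ioc, Finset.mem_Icc]
        omega
      have p2 : ∏ l ∈ Icc j (j + (d + 1)), (cc (2 * s + 1) z - cc (2 * s + 1) (w l)) =
          (∏ l ∈ Icc j (j + d), (cc (2 * s + 1) z - cc (2 * s + 1) (w l))) *
          (cc (2 * s + 1) z - cc (2 * s + 1) (w (j + d + 1))) := by
        rw [show j + (d + 1) = j + d + 1 by ring, Finset.prod_Icc_succ_top (by omega)]
      have n1 : cc (2 * s + 1) z - cc (2 * s + 1) (w j) ≠ 0 :=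
        cont_cc_ne (by omega) (hw j (by rw [Finset.mem_Icc]; omega)) (US_mem hz)
      have n2 : cc (2 * s + 1) z - cc (2 * s + 1) (w (j + d + 1)) ≠ 0 :=
        cont_cc_ne (by omega) (hw _ (by rw [Finset.mem_Icc]; omega)) (US_mem hz)
      have n3 : ∏ l ∈ Icc (j + 1) (j + 1 + d), (cc (2 * s + 1) z - cc (2 * s + 1) (w l)) ≠ 0 := by
        rw [Finset.prod_ne_zero_iff]
        intro l hl
        exact cont_cc_ne (by omega) (hw l (by rw [Finset.mem_Icc] at hl ⊢; omega)) (US_mem hz)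
      have p3 : ∏ l ∈ Icc j (j + d), (cc (2 * s + 1) z - cc (2 * s + 1) (w l)) =
          (cc (2 * s + 1) z - cc (2 * s + 1) (w j)) *
          (∏ l ∈ Icc (j + 1) (j + 1 + d), (cc (2 * s + 1) z - cc (2 * s + 1) (w l))) /
          (cc (2 * s + 1) z - cc (2 * s + 1) (w (j + d + 1))) := by
        rw [eq_div_iff n2, ← p2, p1]
      rw [p1, p3]
      field_simp
      ring
    rw [pathInt_const_mul, h3, i1, i2] at h4
    apply mul_left_cancel₀ hc
    rw [h4]
    have e : j + 1 + d = j + d + 1 := by ring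
    rw [e, show j + (d + 1) = j + d + 1 by ring]
    linear_combination (((2 * s + 1 : ℕ) : ℂ) * Complex.I / 2) * h2

/-! ### the deformed matrix, exact constants -/

/-- the constant `κ(ε)` -/
noncomputable def kap (s : ℕ) (ε : ℝ) : ℂ := ee s (((s : ℝ) ^ 2 / 2 + s * ε - ε ^ 2 / 2 : ℝ) : ℂ)

theorem gz_kap (s : ℕ) (ε : ℝ) (i : ℕ) :
    gz s (tt s) (ze s ε) i i = kap s ε * Complex.exp (Real.pi * Complex.I *
      ((i : ℂ) - s + ε) ^ 2 / ((2 * s + 1 : ℕ) : ℂ)) := by
  unfold kap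
  have h1 : Complex.exp (Real.pi * Complex.I * ((i : ℂ) - s + ε) ^ 2 / ((2 * s + 1 : ℕ) : ℂ)) =
      ee s (((i : ℂ) - s + ε) ^ 2 / 2) := by
    rw [ee]
    congr 1
    ring
  have h2 : (-1 : ℂ) ^ i = ee s (-((i : ℂ) * (((2 * s + 1 : ℕ) : ℂ) / 2))) := by
    rw [ee_neg, ← ee_pow, ee_half, ← inv_pow]
    norm_num
  have h3 : ((i + 1).choose 2 : ℂ) = (i : ℂ) * (i + 1) / 2 := by
    rw [Nat.cast_choose_two]
    push_cast
    ring
  have h4 : pz (tt s) (ze s ε) i i = 1 := by simp [pz]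
  have h5 : qf (tt s) (i - i) = 1 := by simp [qf]
  rw [h1, gz, if_pos le_rfl, h4, h5, mul_one, div_one, h2, ← pow_mul, tt_pow, tt_pow, tt_pow,
    ze_eq, ee_pow]
  simp only [← ee_add]
  rw [show ((s * s : ℕ) : ℂ) + -((i : ℂ) * (((2 * s + 1 : ℕ) : ℂ) / 2)) +
      ((s * (i + i) : ℕ) : ℂ) + (i : ℂ) * ε + (((i + 1).choose 2 + i : ℕ) : ℂ) =
      ((((s : ℝ) ^ 2 / 2 + s * ε - ε ^ 2 / 2 : ℝ) : ℂ) + ((i : ℂ) - s + ε) ^ 2 / 2) +
        ((i : ℤ) : ℂ) * ((2 * s + 1 : ℕ) : ℂ) by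
    push_cast [h3]
    ring, ee_add _ _ (_ * _), ee_int, mul_one]

lemma kap_zero (s : ℕ) : kap s 0 = Complex.exp (Real.pi * Complex.I * s ^ 2 /
    ((2 * s + 1 : ℕ) : ℂ)) := by
  unfold kap ee
  congr 1
  push_cast
  ring

/-- the product over all nodes in `[j, k]`, inverted -/
noncomputable def Gjk (a s j k : ℕ) (ε : ℝ) (z : ℂ) : ℂ :=
  Complex.exp (Real.pi * Complex.I * a * z ^ 2 / ((2 * s + 1 : ℕ) : ℂ)) *
    Complex.sin (2 * Real.pi * z / ((2 * s + 1 : ℕ) : ℂ)) /
    ∏ l ∈ Icc j k, (cc (2 * s + 1) z - cc (2 * s + 1) (((l : ℝ) - s + ε : ℝ) : ℂ))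

lemma dd_scale2 (c y : ℕ → ℂ) (r q : ℂ) (hr : r ≠ 0) (j k : ℕ) :
    dd (fun i => r * c i) (fun i => q * y i) j k = (r⁻¹) ^ (k - j) * q * dd c y j k := by
  unfold dd
  rw [Finset.mul_sum]
  refine Finset.sum_congr rfl fun i hi => ?_
  have h1 : ∏ l ∈ (Icc j k).erase i, (r * c i - r * c l) =
      r ^ (k - j) * ∏ l ∈ (Icc j k).erase i, (c i - c l) := by
    have h2 : ∀ l ∈ (Icc j k).erase i, (r * c i - r * c l) = r * (c i - c l) := by
      intro l _
      ring
    rw [Finset.prod_congr rfl h2, Finset.prod_mul_distrib, Finset.prod_const,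
      Finset.card_erase_of_mem hi, Nat.card_Icc]
    congr 2
    rw [Finset.mem_Icc] at hi
    omega
  rw [h1, inv_pow]
  field_simp

theorem Gm_eps {s a j k : ℕ} (hjk : j ≤ k) (hk : k ≤ 2 * s) {ε : ℝ} (h0 : 0 < ε)
    (h1 : ε < 1 / 2) {h : ℝ} (hh : 0 < h) :
    Gm s (tt s) (ze s ε) a j k = ((ze s ε)⁻¹) ^ (k - j) * kap s ε ^ a *
      (2 * Complex.I / ((2 * s + 1 : ℕ) : ℂ)) *
      pathInt (Gjk a s j k ε) (hn s) (-(hn s)) h h := by
  have hn0 := nn_ne s
  have hz0 : ze s ε ≠ 0 := by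
    rw [ze_eq]
    exact ee_ne s _
  obtain ⟨d, rfl⟩ : ∃ d, k = j + d := ⟨k - j, by omega⟩
  have hcz : ∀ i ≤ 2 * s, ∀ l ≤ 2 * s, i ≠ l →
      cz s (tt s) (ze s ε) i ≠ cz s (tt s) (ze s ε) l := by
    intro i hi l hl hil h2
    rw [cz_ze, cz_ze] at h2
    exact cc_ne h0 h1 hi hl hil (mul_left_cancel₀ hz0 h2)
  have h2 := Gm_eq_dd (tt_prim s) (z := ze s ε) (fun l hl hl' => ze_ne h0 h1 hl hl') hcz a d j hk
  rw [h2]
  have h3 : cz s (tt s) (ze s ε) = fun i : ℕ => ze s ε * cc (2 * s + 1) (((i : ℝ) - s + ε : ℝ) : ℂ) := by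
    funext i
    rw [cz_ze]
    push_cast
    rfl
  set F : ℂ → ℂ := fun z => Complex.exp (Real.pi * Complex.I * a * z ^ 2 /
    ((2 * s + 1 : ℕ) : ℂ)) with hF
  have h4 : (fun i => gz s (tt s) (ze s ε) i i ^ a) =
      fun i : ℕ => kap s ε ^ a * F (((i : ℝ) - s + ε : ℝ) : ℂ) := by
    funext i
    rw [gz_kap, mul_pow, hF, ← Complex.exp_nat_mul]
    congr 2
    push_cast
    ring
  rw [h3, h4, dd_scale2 (fun i : ℕ => cc (2 * s + 1) (((i : ℝ) - s + ε : ℝ) : ℂ))
    (fun i : ℕ => F (((i : ℝ) - s + ε : ℝ) : ℂ)) _ _ hz0]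
  have hFd : Differentiable ℂ F := by
    rw [hF]
    fun_prop
  have hFe : ∀ z, F (-z) = F z := by
    intro z
    simp only [hF]
    rw [neg_sq]
  have h5 := dd_path hFd hFe hh (fun i => (i : ℝ) - s + ε) d j
    (fun i hi => by
      rw [Finset.mem_Icc] at hi
      exact cont_node (by omega) (by rw [abs_lt]; constructor <;> linarith))
    (fun i hi l hl hil => by
      rw [Finset.mem_Icc] at hi hl
      have := cc_ne h0 h1 (show i ≤ 2 * s by omega) (show l ≤ 2 * s by omega) hil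
      push_cast
      exact this)
  have h6 : pathInt (Gjk a s j (j + d) ε) (hn s) (-(hn s)) h h =
      -(((2 * s + 1 : ℕ) : ℂ) * Complex.I / 2) *
        dd (fun i : ℕ => cc (2 * s + 1) (((i : ℝ) - s + ε : ℝ) : ℂ))
          (fun i : ℕ => F (((i : ℝ) - s + ε : ℝ) : ℂ)) j (j + d) := by
    rw [← h5]
    rfl
  rw [h6]
  field_simp
  rw [Complex.I_sq]
  ring

/-! ### the limit `ε → 0` -/

lemma pathInt_param {F : ℝ → ℂ → ℂ} {b h : ℝ} (hb : 0 ≤ b) (hh : 0 < h)
    (hF : ContinuousOn (fun p : ℝ × ℂ => F p.1 p.2) {p | |p.1| < 1 / 2 ∧ p.2 ∈ US b}) :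
    ContinuousOn (fun ε : ℝ => pathInt (F ε) b (-b) h h) (Set.Icc (-(1 / 4)) (1 / 4)) := by
  have key : ∀ (φ : ℝ → ℂ) (u v : ℝ), u ≤ v → Continuous φ →
      (∀ y, φ y ∈ US b) →
      ContinuousOn (fun ε : ℝ => ∫ y in u..v, F ε (φ y)) (Set.Icc (-(1 / 4)) (1 / 4)) := by
    intro φ u v huv hφ hφ2
    refine cont_param huv ?_
    rw [Function.uncurry_def]
    have h2 : Continuous fun p : ℝ × ℝ => (p.1, φ p.2) := by fun_prop
    refine ContinuousOn.comp (g := fun p : ℝ × ℂ => F p.1 p.2)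
      (f := fun p : ℝ × ℝ => (p.1, φ p.2)) hF h2.continuousOn ?_
    rintro ⟨e, y⟩ ⟨he, hy⟩
    simp only [Set.mem_Icc] at he
    refine ⟨?_, hφ2 y⟩
    have : |e| < 1 / 2 := by
      rw [abs_lt]
      constructor <;> linarith [he.1, he.2]
    exact this
  simp only [pathInt_up]
  refine ContinuousOn.sub (ContinuousOn.sub (ContinuousOn.mul continuousOn_const ?_) ?_)
    (ContinuousOn.mul continuousOn_const ?_)
  · exact key (fun y => (b : ℂ) + y * Complex.I) 0 h hh.le (by fun_prop) (vert_mem hb)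
  · exact key (fun x => (x : ℂ) + h * Complex.I) (-b) b (by linarith) (by fun_prop)
      (hor_mem hh.ne')
  · exact key (fun y => ((-b : ℝ) : ℂ) + y * Complex.I) 0 h hh.le (by fun_prop) (vert_mem' hb)

lemma Gjk_cont {a s j k : ℕ} (hk : k ≤ 2 * s) :
    ContinuousOn (fun p : ℝ × ℂ => Gjk a s j k p.1 p.2) {p | |p.1| < 1 / 2 ∧ p.2 ∈ US (hn s)} := by
  unfold Gjk cc
  refine ContinuousOn.div (by fun_prop) (by fun_prop) ?_
  intro p hp
  rw [Finset.prod_ne_zero_iff]
  intro l hl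
  rw [Finset.mem_Icc] at hl
  exact cont_cc_ne (n := 2 * s + 1) (by omega) (cont_node (s := s) (l := l) (by omega) hp.1)
    (US_mem hp.2)

theorem Gm_one {s a j k : ℕ} (hjk : j ≤ k) (hk : k ≤ 2 * s) {h : ℝ} (hh : 0 < h) :
    Gm s (tt s) 1 a j k = kap s 0 ^ a * (2 * Complex.I / ((2 * s + 1 : ℕ) : ℂ)) *
      pathInt (Gjk a s j k 0) (hn s) (-(hn s)) h h := by
  have hb : 0 ≤ hn s := by unfold hn; positivity
  have hze0 : ze s 0 = 1 := by simp [ze]
  have hzec : Continuous (ze s) := by unfold ze; fun_prop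
  have hze : Filter.Tendsto (ze s) (nhdsWithin 0 (Set.Ioi 0)) (nhds 1) := by
    have := hzec.tendsto 0
    rw [hze0] at this
    exact this.mono_left nhdsWithin_le_nhds
  have l1 : Filter.Tendsto (fun ε : ℝ => Gm s (tt s) (ze s ε) a j k)
      (nhdsWithin 0 (Set.Ioi 0)) (nhds (Gm s (tt s) 1 a j k)) :=
    (cont_Gm a j k hk).tendsto.comp hze
  have l2 : Filter.Tendsto (fun ε : ℝ => pathInt (Gjk a s j k ε) (hn s) (-(hn s)) h h)
      (nhdsWithin 0 (Set.Ioi 0)) (nhds (pathInt (Gjk a s j k 0) (hn s) (-(hn s)) h h)) := by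
    have h1 := (pathInt_param hb hh (Gjk_cont (a := a) (j := j) hk)).continuousAt
      (Icc_mem_nhds (by norm_num : -(1 / 4 : ℝ) < 0) (by norm_num : (0 : ℝ) < 1 / 4))
    exact h1.tendsto.mono_left nhdsWithin_le_nhds
  have l3 : Filter.Tendsto (fun ε : ℝ => ((ze s ε)⁻¹) ^ (k - j) * kap s ε ^ a *
      (2 * Complex.I / ((2 * s + 1 : ℕ) : ℂ))) (nhdsWithin 0 (Set.Ioi 0))
      (nhds (kap s 0 ^ a * (2 * Complex.I / ((2 * s + 1 : ℕ) : ℂ)))) := by
    have h1 : Continuous fun ε : ℝ => ((ze s ε)⁻¹) ^ (k - j) * kap s ε ^ a *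
      (2 * Complex.I / ((2 * s + 1 : ℕ) : ℂ)) := by
      have h2 : ∀ ε, ze s ε ≠ 0 := fun ε => Complex.exp_ne_zero _
      have h3 : Continuous fun ε => (ze s ε)⁻¹ := hzec.inv₀ h2
      have h4 : Continuous (kap s) := by
        unfold kap ee
        fun_prop
      fun_prop
    have h2 := h1.tendsto 0
    simp only [hze0, inv_one, one_pow, one_mul] at h2
    exact h2.mono_left nhdsWithin_le_nhds
  have heq : (fun ε : ℝ => Gm s (tt s) (ze s ε) a j k) =ᶠ[nhdsWithin 0 (Set.Ioi 0)]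
      (fun ε : ℝ => (((ze s ε)⁻¹) ^ (k - j) * kap s ε ^ a *
      (2 * Complex.I / ((2 * s + 1 : ℕ) : ℂ))) *
      pathInt (Gjk a s j k ε) (hn s) (-(hn s)) h h) := by
    have h1 : Set.Ioo (0 : ℝ) (1 / 2) ∈ nhdsWithin (0 : ℝ) (Set.Ioi 0) :=
      Ioo_mem_nhdsGT (by norm_num)
    filter_upwards [h1] with ε hε
    exact Gm_eps hjk hk hε.1 hε.2 hh
  exact tendsto_nhds_unique l1 ((l3.mul l2).congr' heq.symm)

/-! ### the symmetric form -/

/-- `∏_{l<y} (λ(z) - λ_l)` -/
noncomputable def pY (s y : ℕ) (z : ℂ) : ℂ :=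
  ∏ l ∈ range y, (cc (2 * s + 1) z - cc (2 * s + 1) ((l : ℂ) - s))

/-- the symmetric integrand -/
noncomputable def KI (a s y y' : ℕ) (z : ℂ) : ℂ :=
  Complex.exp (Real.pi * Complex.I * a * z ^ 2 / ((2 * s + 1 : ℕ) : ℂ)) *
    Complex.sin (2 * Real.pi * z / ((2 * s + 1 : ℕ) : ℂ)) * (pY s y z * pY s y' z) /
    Complex.sin (Real.pi * z) ^ 2

lemma cc_neg (n : ℕ) (z : ℂ) : cc n (-z) = cc n z := by
  unfold cc
  rw [show (2 * (Real.pi : ℂ) * -z / (n : ℂ)) = -(2 * Real.pi * z / (n : ℂ)) by ring,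
    Complex.cos_neg]

lemma pY_neg (s y : ℕ) (z : ℂ) : pY s y (-z) = pY s y z := by
  unfold pY
  simp only [cc_neg]

lemma pY_refl {s y : ℕ} (hy : y ≤ 2 * s + 1) (z : ℂ) :
    ∏ l ∈ Ico (2 * s + 1 - y) (2 * s + 1), (cc (2 * s + 1) z - cc (2 * s + 1) ((l : ℂ) - s)) =
      pY s y z := by
  have h1 := Finset.prod_Ico_reflect
    (fun l : ℕ => cc (2 * s + 1) z - cc (2 * s + 1) ((l : ℂ) - s)) 0 (m := y) (n := 2 * s) hy
  rw [Nat.sub_zero] at h1
  rw [← h1, pY, Finset.range_eq_Ico]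
  refine Finset.prod_congr rfl fun l hl => ?_
  rw [Finset.mem_Ico] at hl
  rw [← cc_neg (2 * s + 1) ((l : ℂ) - s)]
  congr 2
  rw [Nat.cast_sub (by omega)]
  push_cast
  ring

lemma pY_full (s : ℕ) (z : ℂ) : pY s (2 * s + 1) z = -4 * Complex.sin (Real.pi * z) ^ 2 :=
  prod_cc s z

lemma Gjk_KI {a s y y' : ℕ} (hyy : y + y' ≤ 2 * s) {z : ℂ} (hz : z ∈ US (hn s)) :
    Gjk a s y' (2 * s - y) 0 z = -(1 / 4) * KI a s y y' z := by
  have hS := cont_sin_ne (US_mem hz)
  have hP : ∏ l ∈ Icc y' (2 * s - y), (cc (2 * s + 1) z - cc (2 * s + 1) ((l : ℂ) - s)) ≠ 0 := by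
    rw [Finset.prod_ne_zero_iff]
    intro l hl
    rw [Finset.mem_Icc] at hl
    have := cont_cc_ne (n := 2 * s + 1) (by omega)
      (cont_node (s := s) (l := l) (ε := 0) (by omega) (by norm_num)) (US_mem hz)
    push_cast at this ⊢
    rw [add_zero] at this
    exact this
  have h1 : pY s y' z * (∏ l ∈ Icc y' (2 * s - y),
      (cc (2 * s + 1) z - cc (2 * s + 1) ((l : ℂ) - s))) * pY s y z =
      -4 * Complex.sin (Real.pi * z) ^ 2 := by
    rw [← pY_full, ← pY_refl (show y ≤ 2 * s + 1 by omega), pY, pY]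
    have : Icc y' (2 * s - y) = Ico y' (2 * s + 1 - y) := by
      ext l
      simp only [Finset.mem_Icc, Finset.mem_Ico]
      omega
    rw [this, Finset.prod_range_mul_prod_Ico _ (by omega), Finset.prod_range_mul_prod_Ico _
      (by omega)]
  unfold Gjk KI
  simp only [add_zero, Complex.ofReal_sub, Complex.ofReal_natCast]
  set P := ∏ l ∈ Icc y' (2 * s - y), (cc (2 * s + 1) z - cc (2 * s + 1) ((l : ℂ) - s)) with hPd
  set S := Complex.sin (Real.pi * z) with hSd
  set E := Complex.exp (Real.pi * Complex.I * a * z ^ 2 / ((2 * s + 1 : ℕ) : ℂ))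
  set T := Complex.sin (2 * Real.pi * z / ((2 * s + 1 : ℕ) : ℂ))
  rw [← sub_eq_zero]
  have h5 : E * T / P - -(1 / 4) * (E * T * (pY s y z * pY s y' z) / S ^ 2) =
      -(E * T) / (4 * P * S ^ 2) * (-4 * S ^ 2 - pY s y' z * P * pY s y z) := by
    field_simp
    ring
  rw [h5, h1, sub_self, mul_zero]

/-- an entire odd function integrates to `0` -/
lemma pathInt_entire {F : ℂ → ℂ} {b h : ℝ} (hb : 0 ≤ b) (hF : Differentiable ℂ F)
    (hodd : ∀ z, F (-z) = -F z) : pathInt F b (-b) h h = 0 := by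
  have h1 := rectInt_odd (h := h) hb hF.continuous.continuousOn hodd
  have h2 := Complex.integral_boundary_rect_eq_zero_of_differentiableOn F
    (⟨-b, -h⟩ : ℂ) (⟨b, h⟩ : ℂ) (fun z _ => (hF z).differentiableWithinAt)
  simp only [smul_eq_mul] at h2
  have h3 : rectInt F b h = 0 := by
    have e : (∫ x in (-b)..b, F ((x : ℂ) - h * Complex.I)) =
        ∫ x in (-b)..b, F ((x : ℂ) + ((-h : ℝ) : ℂ) * Complex.I) := by
      refine intervalIntegral.integral_congr fun x _ => ?_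
      congr 1
      push_cast
      ring
    unfold rectInt
    rw [e]
    linear_combination h2
  rw [h3] at h1
  have : (2 : ℂ) * pathInt F b (-b) h h = 2 * 0 := by rw [← h1, mul_zero]
  exact mul_left_cancel₀ two_ne_zero this

lemma KI_zero {a s y y' : ℕ} (hy : y ≤ 2 * s) (hyy : 2 * s < y + y')
    {h : ℝ} (hh : 0 < h) : pathInt (KI a s y y') (hn s) (-(hn s)) h h = 0 := by
  have hb : 0 ≤ hn s := by unfold hn; positivity
  set F : ℂ → ℂ := fun z => -4 * (Complex.exp (Real.pi * Complex.I * a * z ^ 2 /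
    ((2 * s + 1 : ℕ) : ℂ)) * Complex.sin (2 * Real.pi * z / ((2 * s + 1 : ℕ) : ℂ)) *
    ∏ l ∈ Ico (2 * s + 1 - y) y', (cc (2 * s + 1) z - cc (2 * s + 1) ((l : ℂ) - s))) with hF
  have h1 : pathInt (KI a s y y') (hn s) (-(hn s)) h h = pathInt F (hn s) (-(hn s)) h h := by
    refine pathInt_congr hb hh.ne' fun z hz => ?_
    have hS := cont_sin_ne (US_mem hz)
    have h2 : pY s y z * pY s y' z = (-4 * Complex.sin (Real.pi * z) ^ 2) *
        ∏ l ∈ Ico (2 * s + 1 - y) y', (cc (2 * s + 1) z - cc (2 * s + 1) ((l : ℂ) - s)) := by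
      rw [← pY_full, ← pY_refl (show y ≤ 2 * s + 1 by omega), pY, pY,
        ← Finset.prod_range_mul_prod_Ico _ (show 2 * s + 1 - y ≤ y' by omega),
        ← Finset.prod_range_mul_prod_Ico
          (fun l : ℕ => cc (2 * s + 1) z - cc (2 * s + 1) ((l : ℂ) - s))
          (show 2 * s + 1 - y ≤ 2 * s + 1 by omega)]
      ring
    unfold KI
    rw [h2, hF]
    field_simp
  rw [h1]
  refine pathInt_entire hb ?_ ?_
  · rw [hF]
    unfold cc
    fun_prop
  · intro z
    simp only [hF, cc_neg]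
    rw [show (2 * (Real.pi : ℂ) * -z / ((2 * s + 1 : ℕ) : ℂ)) =
      -(2 * Real.pi * z / ((2 * s + 1 : ℕ) : ℂ)) by ring, Complex.sin_neg, neg_sq]
    ring

/-- **Exact contour formula**, symmetric form, for all `y, y' ≤ 2s`. -/
theorem Gm_sym {s a y y' : ℕ} (hy : y ≤ 2 * s) {h : ℝ} (hh : 0 < h) :
    Gm s (tt s) 1 a y' (2 * s - y) = kap s 0 ^ a / (2 * Complex.I * ((2 * s + 1 : ℕ) : ℂ)) *
      pathInt (KI a s y y') (hn s) (-(hn s)) h h := by
  have hb : 0 ≤ hn s := by unfold hn; positivity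
  have hn0 := nn_ne s
  rcases le_or_gt (y + y') (2 * s) with hyy | hyy
  · rw [Gm_one (by omega) (by omega) hh]
    have h1 : pathInt (Gjk a s y' (2 * s - y) 0) (hn s) (-(hn s)) h h =
        -(1 / 4) * pathInt (KI a s y y') (hn s) (-(hn s)) h h := by
      rw [← pathInt_const_mul]
      exact pathInt_congr hb hh.ne' fun z hz => Gjk_KI hyy hz
    rw [h1]
    field_simp
    rw [Complex.I_sq]
    ring
  · rw [Gm_lt (by omega), KI_zero hy hyy hh, mul_zero]

lemma KI_diff {a s y y' : ℕ} {z : ℂ} (hz : Complex.sin (Real.pi * z) ≠ 0) :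
    DifferentiableAt ℂ (KI a s y y') z := by
  unfold KI pY cc
  refine DifferentiableAt.div (by fun_prop) (by fun_prop) (pow_ne_zero _ hz)

lemma KI_cont (a s y y' : ℕ) : ContinuousOn (KI a s y y') (US (hn s)) := fun _ hz =>
  ((KI_diff (a := a) (y := y) (y' := y')
    (cont_sin_ne (US_mem hz))).continuousAt).continuousWithinAt

/-- deformation to a two-level path -/
lemma pathInt_deform {F : ℂ → ℂ} {b : ℝ} (hb : 0 ≤ b) (hc : ContinuousOn F (US b))
    (hF : ∀ z : ℂ, 0 < z.im → DifferentiableAt ℂ F z) {x₁ h₁ h₂ : ℝ} (hh1 : 0 < h₁)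
    (hh2 : 0 < h₂) : pathInt F b (-b) h₁ h₁ = pathInt F b x₁ h₁ h₂ := by
  have hrect := Complex.integral_boundary_rect_eq_zero_of_differentiableOn F
    (⟨-b, h₂⟩ : ℂ) (⟨x₁, h₁⟩ : ℂ) (by
      intro z hz
      have h1 : z.im ∈ Set.uIcc h₂ h₁ := hz.2
      rw [Set.mem_uIcc] at h1
      have : 0 < z.im := by
        rcases h1 with h1 | h1
        · exact lt_of_lt_of_le hh2 h1.1
        · exact lt_of_lt_of_le hh1 h1.1
      exact (hF z this).differentiableWithinAt)
  simp only [smul_eq_mul] at hrect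
  have c1 := hor_cont hh1.ne' hc
  have c2 := vert_cont' hb hc
  have s1 : (∫ x in (-b)..x₁, F ((x : ℂ) + h₁ * Complex.I)) +
      (∫ x in x₁..b, F ((x : ℂ) + h₁ * Complex.I)) =
      ∫ x in (-b)..b, F ((x : ℂ) + h₁ * Complex.I) :=
    intervalIntegral.integral_add_adjacent_intervals (c1.intervalIntegrable _ _)
      (c1.intervalIntegrable _ _)
  have s2 : (∫ y in (0 : ℝ)..h₂, F (((-b : ℝ) : ℂ) + y * Complex.I)) +
      (∫ y in h₂..h₁, F (((-b : ℝ) : ℂ) + y * Complex.I)) =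
      ∫ y in (0 : ℝ)..h₁, F (((-b : ℝ) : ℂ) + y * Complex.I) :=
    intervalIntegral.integral_add_adjacent_intervals (c2.intervalIntegrable _ _)
      (c2.intervalIntegrable _ _)
  rw [pathInt_up]
  unfold pathInt
  linear_combination s1 + Complex.I * s2 + hrect

/-- the exact contour formula on the two-level path
`n/2 → n/2 + i h₁ → x₁ + i h₁ → x₁ + i h₂ → -n/2 + i h₂ → -n/2` -/
theorem Gm_sym_path {s a y y' : ℕ} (hy : y ≤ 2 * s) (x₁ : ℝ) {h₁ h₂ : ℝ}
    (hh1 : 0 < h₁) (hh2 : 0 < h₂) :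
    Gm s (tt s) 1 a y' (2 * s - y) = kap s 0 ^ a / (2 * Complex.I * ((2 * s + 1 : ℕ) : ℂ)) *
      pathInt (KI a s y y') (hn s) x₁ h₁ h₂ := by
  rw [Gm_sym hy hh1, pathInt_deform (by unfold hn; positivity) (KI_cont a s y y')
    (fun _ hz => KI_diff (cont_sin_ne (s := s) (Or.inl hz.ne'))) hh1 hh2]

/-! ### first and last rows -/

lemma qf_ee (s m : ℕ) : qf (tt s) m = (fS (2 * s + 1) m : ℂ) *
    ee s (m * (m + 1) / 4 - m * ((2 * s + 1 : ℕ) : ℂ) / 4) := by
  have hn0 := nn_ne s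
  induction m with
  | zero => simp [fS, ee_zero]
  | succ m ih =>
    rw [qf_succ, ih, fS_succ, sinF_one_sub_tt]
    have e1 : ee s (((m + 1 : ℕ) : ℂ) * (((m + 1 : ℕ) : ℂ) + 1) / 4 -
        ((m + 1 : ℕ) : ℂ) * ((2 * s + 1 : ℕ) : ℂ) / 4) =
        ee s (m * (m + 1) / 4 - m * ((2 * s + 1 : ℕ) : ℂ) / 4) *
        (ee s (((m : ℂ) + 1) / 2) * ee s (-(((2 * s + 1 : ℕ) : ℂ) / 4))) := by
      rw [← ee_add, ← ee_add]
      congr 1
      push_cast
      ring
    have e2 : ee s (-(((2 * s + 1 : ℕ) : ℂ) / 4)) = -Complex.I := by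
      have h1 : ee s (((2 * s + 1 : ℕ) : ℂ) / 4) = Complex.I := by
        have h0 : 2 * (Real.pi : ℂ) * Complex.I * (((2 * s + 1 : ℕ) : ℂ) / 4) /
            ((2 * s + 1 : ℕ) : ℂ) = Real.pi / 2 * Complex.I := by
          rw [div_eq_iff hn0]
          ring
        rw [ee, h0, Complex.exp_pi_div_two_mul_I]
      rw [ee_neg, h1, Complex.inv_I]
    have e3 : Complex.exp (((Real.pi * ((m + 1 : ℕ) : ℝ) / ((2 * s + 1 : ℕ) : ℝ) : ℝ) : ℂ) *
        Complex.I) = ee s (((m : ℂ) + 1) / 2) := by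
      rw [ee]
      congr 1
      push_cast
      ring
    rw [e1, e2, e3]
    push_cast
    ring

lemma fS_last (s : ℕ) : fS (2 * s + 1) (2 * s) = 2 * s + 1 := by
  have := fS_refl (n := 2 * s + 1) (m := 2 * s) (by omega)
  rw [show 2 * s + 1 - 1 - 2 * s = 0 by omega] at this
  have h0 : fS (2 * s + 1) 0 = 1 := by simp [fS]
  rw [h0, mul_one] at this
  rw [this]
  push_cast
  ring

lemma qf_last (s : ℕ) : qf (tt s) (2 * s) = ((2 * s + 1 : ℕ) : ℂ) := by
  rw [qf_ee, fS_last]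
  rw [show (((2 * s : ℕ) : ℂ) * (((2 * s : ℕ) : ℂ) + 1) / 4 -
    ((2 * s : ℕ) : ℂ) * ((2 * s + 1 : ℕ) : ℂ) / 4) = 0 by push_cast; ring, ee_zero]
  push_cast
  ring

lemma pz_one (s j k : ℕ) (hjk : j ≤ k) (hk : k ≤ 2 * s) :
    pz (tt s) 1 j k = qf (tt s) k / qf (tt s) j := by
  rw [eq_div_iff (qf_ne_zero (tt_prim s) (by omega)), pz, qf, qf, mul_comm,
    ← Finset.prod_range_mul_prod_Ico _ hjk]
  simp only [one_mul]

/-- the first row -/
theorem gz_first {s j : ℕ} (hj : j ≤ 2 * s) : gz s (tt s) 1 0 j =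
    ee s ((s : ℂ) ^ 2 + s * j + j) / (fS (2 * s + 1) j : ℂ) ^ 2 := by
  have h0 : (fS (2 * s + 1) j : ℂ) ≠ 0 := by
    exact_mod_cast (fS_pos (n := 2 * s + 1) (m := j) (by omega)).ne'
  have h2 : (-1 : ℂ) ^ j = ee s (-((j : ℂ) * (((2 * s + 1 : ℕ) : ℂ) / 2))) := by
    rw [ee_neg, ← ee_pow, ee_half, ← inv_pow]
    norm_num
  have h3 : ((j + 1).choose 2 : ℂ) = (j : ℂ) * (j + 1) / 2 := by
    rw [Nat.cast_choose_two]
    push_cast
    ring
  rw [gz, if_pos (Nat.zero_le j), pz_one s 0 j (Nat.zero_le j) hj, Nat.sub_zero, qf_zero, div_one,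
    qf_ee, h2, ← pow_mul, tt_pow, tt_pow, tt_pow, one_pow, mul_one]
  rw [div_eq_div_iff (by
    refine mul_ne_zero (mul_ne_zero h0 (ee_ne _ _)) (mul_ne_zero h0 (ee_ne _ _)))
    (pow_ne_zero _ h0)]
  have h4 : ee s ((s * s : ℕ) : ℂ) * ee s (-((j : ℂ) * (((2 * s + 1 : ℕ) : ℂ) / 2))) *
      ee s ((s * (j + 0) : ℕ) : ℂ) * ee s (((j + 1).choose 2 + j : ℕ) : ℂ) =
      ee s ((s : ℂ) ^ 2 + s * j + j) *
      (ee s (j * (j + 1) / 4 - j * ((2 * s + 1 : ℕ) : ℂ) / 4) *
        ee s (j * (j + 1) / 4 - j * ((2 * s + 1 : ℕ) : ℂ) / 4)) := by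
    simp only [← ee_add]
    congr 1
    push_cast [h3]
    ring
  rw [h4]
  ring

/-- the last row -/
theorem gz_final {s j : ℕ} (hj : j ≤ 2 * s) : gz s (tt s) 1 j (2 * s) =
    ee s (3 * (s : ℂ) ^ 2 + 2 * s + s * j) * (fS (2 * s + 1) j : ℂ) ^ 2 /
      ((2 * s + 1 : ℕ) : ℂ) ^ 2 := by
  have hn0 := nn_ne s
  have h0 : (fS (2 * s + 1) j : ℂ) ≠ 0 := by
    exact_mod_cast (fS_pos (n := 2 * s + 1) (m := j) (by omega)).ne'
  have h0' : (fS (2 * s + 1) (2 * s - j) : ℂ) ≠ 0 := by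
    exact_mod_cast (fS_pos (n := 2 * s + 1) (m := 2 * s - j) (by omega)).ne'
  have hrefl : (fS (2 * s + 1) j : ℂ) * (fS (2 * s + 1) (2 * s - j) : ℂ) =
      ((2 * s + 1 : ℕ) : ℂ) := by
    have := fS_refl (n := 2 * s + 1) (m := j) (by omega)
    rw [show 2 * s + 1 - 1 - j = 2 * s - j by omega] at this
    exact_mod_cast this
  have h2 : (-1 : ℂ) ^ (2 * s) = 1 := by simp
  have h3 : (2 * s + 1).choose 2 = s * (2 * s + 1) := by
    rw [Nat.choose_two_right, show (2 * s + 1) * (2 * s + 1 - 1) = (s * (2 * s + 1)) * 2 by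
      rw [Nat.add_sub_cancel]; ring]
    simp
  have h5 : qf (tt s) j * (fS (2 * s + 1) (2 * s - j) : ℂ) =
      (fS (2 * s + 1) j : ℂ) * qf (tt s) (2 * s - j) := by
    rw [qf_ee, qf_ee]
    have : ee s (j * (j + 1) / 4 - j * ((2 * s + 1 : ℕ) : ℂ) / 4) =
        ee s (((2 * s - j : ℕ) : ℂ) * (((2 * s - j : ℕ) : ℂ) + 1) / 4 -
          ((2 * s - j : ℕ) : ℂ) * ((2 * s + 1 : ℕ) : ℂ) / 4) := by
      congr 1
      rw [Nat.cast_sub hj]
      push_cast
      ring
    rw [this]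
    ring
  have hq : qf (tt s) (2 * s - j) ≠ 0 := qf_ne_zero (tt_prim s) (by omega)
  have hqj : qf (tt s) j ≠ 0 := qf_ne_zero (tt_prim s) (by omega)
  rw [gz, if_pos hj, pz_one s j (2 * s) hj le_rfl, qf_last, h2, h3, ← pow_mul, tt_pow, tt_pow,
    tt_pow, one_pow, mul_one, mul_one]
  have h6 : ee s ((s * s : ℕ) : ℂ) * ee s ((s * (2 * s + j) : ℕ) : ℂ) *
      ee s ((s * (2 * s + 1) + 2 * s : ℕ) : ℂ) = ee s (3 * (s : ℂ) ^ 2 + 2 * s + s * j) := by
    rw [← ee_add, ← ee_add, show ((s * s : ℕ) : ℂ) + ((s * (2 * s + j) : ℕ) : ℂ) +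
      ((s * (2 * s + 1) + 2 * s : ℕ) : ℂ) = (3 * (s : ℂ) ^ 2 + 2 * s + s * j) +
      ((s : ℤ) : ℂ) * ((2 * s + 1 : ℕ) : ℂ) by push_cast; ring, ee_add, ee_int, mul_one]
  rw [h6, div_eq_div_iff (mul_ne_zero (div_ne_zero hn0 hqj) hq) (pow_ne_zero _ hn0)]
  have h7 : ((2 * s + 1 : ℕ) : ℂ) * qf (tt s) j = (fS (2 * s + 1) j : ℂ) ^ 2 *
      qf (tt s) (2 * s - j) := by
    rw [← hrefl]
    linear_combination (fS (2 * s + 1) j : ℂ) * h5
  set E := ee s (3 * (s : ℂ) ^ 2 + 2 * s + s * j) with hE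
  field_simp
  linear_combination E * h7

/-- the last row is the conjugate of the first one (after the change of basis) -/
theorem gz_row {s j : ℕ} (hj : j ≤ 2 * s) :
    ((2 * s + 1 : ℕ) : ℂ) ^ 2 * gz s (tt s) 1 j (2 * s) =
      (starRingEnd ℂ) (gz s (tt s) 1 0 j) * (fS (2 * s + 1) j : ℂ) ^ 4 := by
  have hn0 := nn_ne s
  have h0 : (fS (2 * s + 1) j : ℂ) ≠ 0 := by
    exact_mod_cast (fS_pos (n := 2 * s + 1) (m := j) (by omega)).ne'
  rw [gz_first hj, gz_final hj, map_div₀, map_pow, Complex.conj_ofReal]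
  have h1 : (starRingEnd ℂ) (ee s ((s : ℂ) ^ 2 + s * j + j)) =
      ee s (-((s : ℂ) ^ 2 + s * j + j)) := by
    rw [ee, ee, ← Complex.exp_conj]
    congr 1
    simp only [map_div₀, map_mul, map_add, map_pow, map_natCast, Complex.conj_I,
      Complex.conj_ofReal, map_ofNat]
    ring
  have h2 : ee s (3 * (s : ℂ) ^ 2 + 2 * s + s * j) = ee s (-((s : ℂ) ^ 2 + s * j + j)) := by
    rw [show (3 * (s : ℂ) ^ 2 + 2 * s + s * j) = -((s : ℂ) ^ 2 + s * j + j) +
      ((2 * s + j : ℤ) : ℂ) * ((2 * s + 1 : ℕ) : ℂ) by push_cast; ring, ee_add, ee_int, mul_one]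
  rw [h1, h2]
  field_simp

end Pool.Agent.Work.MP_b30479_gtS.VC

end

section

/-!
# Arbitrary paths in the upper half plane

A function holomorphic in the upper half plane and at the two real points `±b` has the same
integral along all paths from `-b` to `b` in the upper half plane.
-/

namespace Pool.Agent.Work.MP_b30479_gtS.VC

open Set Filter Topology
open DT (pathInt)

/-- primitive on a convex set -/
lemma exists_primitive {F : ℂ → ℂ} {S : Set ℂ} (hS : Convex ℝ S)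
    (hF : ∀ z ∈ S, DifferentiableAt ℂ F z) :
    ∃ P : ℂ → ℂ, ∀ z ∈ S, HasDerivWithinAt P (F z) S z := by
  have h1 : ∀ z ∈ S, HasFDerivWithinAt (fun z : ℂ => ContinuousLinearMap.toSpanSingleton ℂ (F z))
      (((ContinuousLinearMap.toSpanSingletonCLE (𝕜 := ℂ) (E := ℂ)).toContinuousLinearMap.comp
        (ContinuousLinearMap.toSpanSingleton ℂ (deriv F z))).restrictScalars ℝ) S z := by
    intro z hz
    have h2 := (hF z hz).hasDerivAt.hasFDerivAt
    have h3 := ((ContinuousLinearMap.toSpanSingletonCLE (𝕜 := ℂ)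
      (E := ℂ)).toContinuousLinearMap.hasFDerivAt (x := F z)).comp z h2
    exact (h3.restrictScalars ℝ).hasFDerivWithinAt
  obtain ⟨P, hP⟩ := hS.exists_forall_hasFDerivWithinAt_of_hasFDerivWithinAt_symmetric h1 (by
    intro a _ x _ y _
    simp [mul_left_comm])
  refine ⟨P, fun z hz => ?_⟩
  have := (hP z hz).hasDerivWithinAt
  simpa using this

/-- the upper half plane with one or two boundary points -/
def UH (b : ℝ) : Set ℂ := {z | 0 < z.im} ∪ {(b : ℂ), ((-b : ℝ) : ℂ)}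

lemma convex_one (b : ℝ) : Convex ℝ ({z : ℂ | 0 < z.im} ∪ {(b : ℂ)}) := by
  intro x hx y hy p q hp hq hpq
  have key : ∀ {u v : ℂ} {p q : ℝ}, 0 < u.im → 0 ≤ v.im → 0 ≤ p → 0 ≤ q → p + q = 1 → 0 < p →
      0 < (p • u + q • v).im := by
    intro u v p q hu hv _ hq _ hp
    simp only [Complex.add_im, Complex.real_smul, Complex.mul_im, Complex.ofReal_re,
      Complex.ofReal_im, zero_mul, add_zero]
    have := mul_pos hp hu
    have := mul_nonneg hq hv
    linarith
  have hx0 : 0 ≤ x.im := by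
    rcases hx with hx | hx
    · exact le_of_lt hx
    · rw [mem_singleton_iff] at hx; rw [hx]; simp
  have hy0 : 0 ≤ y.im := by
    rcases hy with hy | hy
    · exact le_of_lt hy
    · rw [mem_singleton_iff] at hy; rw [hy]; simp
  rcases hp.eq_or_lt with hp0 | hp0
  · rw [← hp0] at hpq ⊢
    rw [zero_add] at hpq
    rw [hpq, zero_smul, one_smul, zero_add]
    exact hy
  rcases hq.eq_or_lt with hq0 | hq0
  · rw [← hq0] at hpq ⊢
    rw [add_zero] at hpq
    rw [hpq, zero_smul, one_smul, add_zero]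
    exact hx
  rcases hx with hx | hx
  · left
    exact key hx hy0 hp hq hpq hp0
  · rcases hy with hy | hy
    · left
      rw [add_comm]
      exact key hy hx0 hq hp (by linarith) hq0
    · right
      rw [mem_singleton_iff] at hx hy ⊢
      rw [hx, hy, ← add_smul, hpq, one_smul]

lemma isOpen_up : IsOpen {z : ℂ | 0 < z.im} := isOpen_lt continuous_const Complex.continuous_im

lemma convex_up : Convex ℝ {z : ℂ | 0 < z.im} := convex_halfSpace_im_gt 0

/-- primitive in the upper half plane, continuous up to the points `±b` -/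
theorem exists_prim_UH {F : ℂ → ℂ} {b : ℝ} (hF : ∀ z : ℂ, 0 < z.im → DifferentiableAt ℂ F z)
    (hb : DifferentiableAt ℂ F (b : ℂ)) (hb' : DifferentiableAt ℂ F ((-b : ℝ) : ℂ)) :
    ∃ P : ℂ → ℂ, ContinuousOn P (UH b) ∧ ∀ z : ℂ, 0 < z.im → HasDerivAt P (F z) z := by
  obtain ⟨P, hP⟩ := exists_primitive (F := F) (convex_one b) (by
    rintro z (hz | hz)
    · exact hF z hz
    · rw [mem_singleton_iff] at hz; rw [hz]; exact hb)
  obtain ⟨Q, hQ⟩ := exists_primitive (F := F) (convex_one (-b)) (by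
    rintro z (hz | hz)
    · exact hF z hz
    · rw [mem_singleton_iff] at hz; rw [hz]; exact hb')
  have hP1 : ∀ z : ℂ, 0 < z.im → HasDerivAt P (F z) z := fun z hz =>
    (hP z (Or.inl hz)).hasDerivAt (mem_of_superset (isOpen_up.mem_nhds hz) subset_union_left)
  have hQ1 : ∀ z : ℂ, 0 < z.im → HasDerivAt Q (F z) z := fun z hz =>
    (hQ z (Or.inl hz)).hasDerivAt (mem_of_superset (isOpen_up.mem_nhds hz) subset_union_left)
  -- the difference is constant
  have hI : 0 < Complex.I.im := by simp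
  have hconst : ∀ z : ℂ, 0 < z.im → Q z - P z = Q Complex.I - P Complex.I := by
    intro z hz
    have h1 : ∀ w ∈ {z : ℂ | 0 < z.im}, HasDerivWithinAt (fun z => Q z - P z) 0
        {z : ℂ | 0 < z.im} w := by
      intro w hw
      have := (hQ1 w hw).sub (hP1 w hw)
      rw [sub_self] at this
      exact this.hasDerivWithinAt
    exact convex_up.is_const_of_fderivWithin_eq_zero (𝕜 := ℂ)
      (fun w hw => (h1 w hw).differentiableWithinAt)
      (fun w hw => by
        have := (h1 w hw).hasFDerivWithinAt.fderivWithin (isOpen_up.uniqueDiffWithinAt hw)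
        rw [this]
        ext
        simp) hz hI
  set c := Q Complex.I - P Complex.I with hc
  by_cases hbb : b = 0
  · refine ⟨P, ?_, hP1⟩
    have : UH b = {z : ℂ | 0 < z.im} ∪ {(b : ℂ)} := by
      unfold UH
      rw [hbb]
      simp
    rw [this]
    exact fun z hz => (hP z hz).continuousWithinAt
  have hne : ((-b : ℝ) : ℂ) ≠ (b : ℂ) := by
    intro h
    have : (-b : ℝ) = b := by exact_mod_cast h
    exact hbb (by linarith)
  refine ⟨Function.update P ((-b : ℝ) : ℂ) (Q ((-b : ℝ) : ℂ) - c), ?_, ?_⟩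
  · intro z hz
    by_cases hz' : z = ((-b : ℝ) : ℂ)
    · -- near `-b` the function equals `Q - c`
      have h1 : ContinuousWithinAt (fun z => Q z - c) ({z : ℂ | 0 < z.im} ∪ {((-b : ℝ) : ℂ)})
          ((-b : ℝ) : ℂ) :=
        ((hQ _ (Or.inr rfl)).continuousWithinAt).sub continuousWithinAt_const
      have h2 : ContinuousWithinAt (Function.update P ((-b : ℝ) : ℂ) (Q ((-b : ℝ) : ℂ) - c))
          ({z : ℂ | 0 < z.im} ∪ {((-b : ℝ) : ℂ)}) ((-b : ℝ) : ℂ) := by
        refine h1.congr ?_ ?_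
        · rintro w (hw | hw)
          · have hw1 : w ≠ ((-b : ℝ) : ℂ) := by
              rintro rfl
              simp at hw
            rw [Function.update_of_ne hw1]
            linear_combination -(hconst w hw)
          · rw [mem_singleton_iff] at hw
            rw [hw, Function.update_self]
        · rw [Function.update_self]
      have h3 : UH b = ({z : ℂ | 0 < z.im} ∪ {((-b : ℝ) : ℂ)}) ∪ {(b : ℂ)} := by
        ext w
        simp only [UH, mem_union, mem_insert_iff, mem_singleton_iff]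
        tauto
      rw [hz', h3, continuousWithinAt_union]
      refine ⟨h2, ?_⟩
      have : ((-b : ℝ) : ℂ) ∉ closure {(b : ℂ)} := by
        rw [closure_singleton, mem_singleton_iff]
        exact hne
      exact continuousWithinAt_of_notMem_closure this
    · have hzS : z ∈ {z : ℂ | 0 < z.im} ∪ {(b : ℂ)} := by
        simp only [UH, mem_union, mem_insert_iff, mem_singleton_iff] at hz ⊢
        tauto
      have h1 := (hP z hzS).continuousWithinAt
      have h2 : ContinuousWithinAt (Function.update P ((-b : ℝ) : ℂ) (Q ((-b : ℝ) : ℂ) - c))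
          ({z : ℂ | 0 < z.im} ∪ {(b : ℂ)}) z := by
        refine h1.congr_of_eventuallyEq ?_ ?_
        · have : ∀ᶠ w in 𝓝 z, w ≠ ((-b : ℝ) : ℂ) := isOpen_ne.mem_nhds hz'
          filter_upwards [this.filter_mono nhdsWithin_le_nhds] with w hw
          rw [Function.update_of_ne hw]
        · rw [Function.update_of_ne hz']
      have h3 : UH b = ({z : ℂ | 0 < z.im} ∪ {(b : ℂ)}) ∪ {((-b : ℝ) : ℂ)} := by
        ext w
        simp only [UH, mem_union, mem_insert_iff, mem_singleton_iff]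
        tauto
      rw [h3, continuousWithinAt_union]
      refine ⟨h2, ?_⟩
      have : z ∉ closure {((-b : ℝ) : ℂ)} := by
        rw [closure_singleton, mem_singleton_iff]
        exact hz'
      exact continuousWithinAt_of_notMem_closure this
  · intro z hz
    have hzne : z ≠ ((-b : ℝ) : ℂ) := by
      rintro rfl
      simp at hz
    refine (hP1 z hz).congr_of_eventuallyEq ?_
    filter_upwards [isOpen_ne.mem_nhds hzne] with w hw
    rw [Function.update_of_ne hw]

/-- the integral along a path in the upper half plane is the increment of the primitive -/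
theorem path_prim {F P : ℂ → ℂ} {b : ℝ} (hPc : ContinuousOn P (UH b))
    (hP : ∀ z : ℂ, 0 < z.im → HasDerivAt P (F z) z) {γ γ' : ℝ → ℂ} {u v : ℝ} (huv : u ≤ v)
    (hγ : ContinuousOn γ (Icc u v)) (hγU : ∀ x ∈ Icc u v, γ x ∈ UH b)
    (hγim : ∀ x ∈ Ioo u v, 0 < (γ x).im) {s : Set ℝ} (hs : s.Countable)
    (hγ' : ∀ x ∈ Ioo u v \ s, HasDerivAt γ (γ' x) x)
    (hint : IntervalIntegrable (fun x => F (γ x) * γ' x) MeasureTheory.volume u v) :
    ∫ x in u..v, F (γ x) * γ' x = P (γ v) - P (γ u) := by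
  refine MeasureTheory.integral_eq_of_hasDerivAt_off_countable_of_le (fun x => P (γ x)) _ huv hs
    (hPc.comp hγ hγU) ?_ hint
  intro x hx
  exact (hP (γ x) (hγim x hx.1)).comp x (hγ' x hx)

/-- the two-level path -/
theorem pathInt_prim {F P : ℂ → ℂ} {b : ℝ} (hb : 0 ≤ b) (hPc : ContinuousOn P (UH b))
    (hP : ∀ z : ℂ, 0 < z.im → HasDerivAt P (F z) z) (hF : ContinuousOn F (US b))
    (hFd : ∀ z : ℂ, 0 < z.im → DifferentiableAt ℂ F z) {x₁ h₁ h₂ : ℝ}
    (hh1 : 0 < h₁) (hh2 : 0 < h₂) :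
    pathInt F b x₁ h₁ h₂ = P ((-b : ℝ) : ℂ) - P (b : ℂ) := by
  have hv : ∀ (h : ℝ), 0 < h → ∫ y in (0 : ℝ)..h, F ((b : ℂ) + y * Complex.I) * Complex.I =
      P ((b : ℂ) + h * Complex.I) - P (b : ℂ) := by
    intro h hh
    have := path_prim hPc hP (γ := fun y : ℝ => (b : ℂ) + y * Complex.I)
      (γ' := fun _ => Complex.I) hh.le (by fun_prop) ?_ ?_ countable_empty ?_ ?_
    · simpa using this
    · intro y hy
      rcases hy.1.eq_or_lt with h0 | h0
      · right; left; simp [← h0]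
      · left; simp [h0]
    · intro y hy
      simpa using hy.1
    · intro y _
      have := ((Complex.ofRealCLM.hasDerivAt (x := y)).mul_const Complex.I).const_add (b : ℂ)
      simpa using this
    · exact ((vert_cont hb hF).mul continuous_const).intervalIntegrable _ _
  have hv' : ∀ (h : ℝ), 0 < h →
      ∫ y in (0 : ℝ)..h, F (((-b : ℝ) : ℂ) + y * Complex.I) * Complex.I =
      P (((-b : ℝ) : ℂ) + h * Complex.I) - P ((-b : ℝ) : ℂ) := by
    intro h hh
    have := path_prim hPc hP (γ := fun y : ℝ => ((-b : ℝ) : ℂ) + y * Complex.I)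
      (γ' := fun _ => Complex.I) hh.le (by fun_prop) ?_ ?_ countable_empty ?_ ?_
    · simpa using this
    · intro y hy
      rcases hy.1.eq_or_lt with h0 | h0
      · right; right; simp [← h0]
      · left; simp [h0]
    · intro y hy
      simpa using hy.1
    · intro y _
      have := ((Complex.ofRealCLM.hasDerivAt (x := y)).mul_const Complex.I).const_add
        (((-b : ℝ) : ℂ))
      simpa using this
    · exact ((vert_cont' hb hF).mul continuous_const).intervalIntegrable _ _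
  have hrect : pathInt F b x₁ h₁ h₂ = pathInt F b (-b) h₁ h₁ :=
    (pathInt_deform hb hF hFd hh1 hh2).symm
  · have hh : ∫ x in (-b)..b, F ((x : ℂ) + h₁ * Complex.I) * 1 =
        P ((b : ℂ) + h₁ * Complex.I) - P (((-b : ℝ) : ℂ) + h₁ * Complex.I) := by
      refine path_prim hPc hP (γ := fun x : ℝ => (x : ℂ) + h₁ * Complex.I)
        (γ' := fun _ => 1) (by linarith) (by fun_prop) ?_ ?_ countable_empty ?_ ?_
      · intro y _
        left; simp [hh1]
      · intro y _
        simp [hh1]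
      · intro y _
        have := (Complex.ofRealCLM.hasDerivAt (x := y)).add_const (h₁ * Complex.I)
        simpa using this
      · exact ((hor_cont hh1.ne' hF).mul continuous_const).intervalIntegrable _ _
    have e1 := hv h₁ hh1
    have e2 := hv' h₁ hh1
    rw [intervalIntegral.integral_mul_const] at e1 e2
    simp only [mul_one] at hh
    rw [hrect, pathInt_up]
    linear_combination e1 - hh - e2

/-- **Independence of the path.** The integral along any path `γ` from `-b` to `b` in the upper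
half plane is minus the two-level path integral. -/
theorem path_eq {F : ℂ → ℂ} {b : ℝ} (hb : 0 ≤ b)
    (hF : ∀ z : ℂ, 0 < z.im → DifferentiableAt ℂ F z)
    (hFb : DifferentiableAt ℂ F (b : ℂ)) (hFb' : DifferentiableAt ℂ F ((-b : ℝ) : ℂ))
    (hFc : ContinuousOn F (US b)) {γ γ' : ℝ → ℂ} {u v : ℝ} (huv : u ≤ v)
    (hγ : ContinuousOn γ (Icc u v)) (hγu : γ u = ((-b : ℝ) : ℂ)) (hγv : γ v = (b : ℂ))
    (hγim : ∀ x ∈ Ioo u v, 0 < (γ x).im) {s : Set ℝ} (hs : s.Countable)
    (hγ' : ∀ x ∈ Ioo u v \ s, HasDerivAt γ (γ' x) x)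
    (hint : IntervalIntegrable (fun x => F (γ x) * γ' x) MeasureTheory.volume u v)
    {x₁ h₁ h₂ : ℝ} (hh1 : 0 < h₁) (hh2 : 0 < h₂) :
    ∫ x in u..v, F (γ x) * γ' x = -pathInt F b x₁ h₁ h₂ := by
  obtain ⟨P, hPc, hP⟩ := exists_prim_UH hF hFb hFb'
  rw [pathInt_prim hb hPc hP hFc hF hh1 hh2,
    path_prim hPc hP huv hγ (fun x hx => ?_) hγim hs hγ' hint, hγu, hγv]
  · ring
  · rcases hx.1.eq_or_lt with h1 | h1
    · rw [← h1, hγu]
      exact Or.inr (Or.inr rfl)
    · rcases hx.2.eq_or_lt with h2 | h2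
      · rw [h2, hγv]
        exact Or.inr (Or.inl rfl)
      · exact Or.inl (hγim x ⟨h1, h2⟩)

open DT TB AX in
/-- the exact contour formula along an arbitrary path from `-n/2` to `n/2` in the upper half
plane -/
theorem Gm_path {s a y y' : ℕ} (hy : y ≤ 2 * s) {γ γ' : ℝ → ℂ} {u v : ℝ} (huv : u ≤ v)
    (hγ : ContinuousOn γ (Icc u v)) (hγu : γ u = ((-(hn s) : ℝ) : ℂ)) (hγv : γ v = (hn s : ℂ))
    (hγim : ∀ x ∈ Ioo u v, 0 < (γ x).im) {S : Set ℝ} (hS : S.Countable)
    (hγ' : ∀ x ∈ Ioo u v \ S, HasDerivAt γ (γ' x) x)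
    (hint : IntervalIntegrable (fun x => KI a s y y' (γ x) * γ' x) MeasureTheory.volume u v) :
    Gm s (tt s) 1 a y' (2 * s - y) = -(kap s 0 ^ a / (2 * Complex.I * ((2 * s + 1 : ℕ) : ℂ))) *
      ∫ x in u..v, KI a s y y' (γ x) * γ' x := by
  have hb : 0 ≤ hn s := by unfold hn; positivity
  have e1 : ∀ z ∈ US (hn s), DifferentiableAt ℂ (KI a s y y') z := fun z hz =>
    KI_diff (cont_sin_ne (US_mem hz))
  rw [path_eq hb (fun z hz => e1 z (Or.inl hz.ne')) (e1 _ (by simpa using vert_mem hb 0))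
    (e1 _ (by simpa using vert_mem' hb 0)) (KI_cont a s y y') huv hγ hγu hγv hγim hS hγ' hint
    (x₁ := 0) one_pos one_pos, Gm_sym_path hy 0 one_pos one_pos]
  ring

end Pool.Agent.Work.MP_b30479_gtS.VC

end
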