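import Pool.Agent.Work.MP_b30479_gt.TBS.Gauss
import Pool.Agent.Work.MP_b30479_gt.TBS.TB.Tt
import Pool.Agent.Work.MP_b30479_gt.TBS.TwoBridgeAlt
import Pool.Agent.Work.MP_b30479_gt.TBS.TB.HW
import Pool.Agent.Work.MP_b30479_gt.TBS.DT.Stmt
import Pool.Agent.Work.MP_b30479_gt.TBS.VC.GaussND
import Pool.Agent.Work.MP_b30479_gt.TBS.G2.AVal
import Pool.Agent.Work.MP_b30479_gt.TBS.LT.XBlk
import Pool.Agent.Work.MP_b30479_gt.TBS.G2.Words
import Pool.Agent.Work.MP_b30479_gt.TBS.G2.CSHat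
import Pool.Agent.Work.MP_b30479_gt.TBS.VC.FStrip

section

/-!
# Definitions for the volume conjecture of the double twist links `C(a,a)`
-/

namespace Pool.Agent.Work.MP_b30479_gtS.DT

open Finset TB AX

/-- the summand: `Ak k = f(k)² |(G^a)_{0k}|`; the invariant is `∑_k (Ak k)²` up to a phase -/
noncomputable def Ak (a s k : ℕ) : ℝ := ‖Gm s (tt s) 1 a 0 k‖ * fS (2 * s + 1) k ^ 2

end Pool.Agent.Work.MP_b30479_gtS.DT

end

section

/-!
# Twist regions
-/

namespace Pool.Agent.Work.MP_b30479_gtS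

/-- The alternating word with the given twist regions: `(true, m)` stands for `σ_1^m` and
`(false, m)` for `σ_2^{-m}`. -/
def twistWord (l : List (Bool × ℕ)) : List (Fin 2 × Bool) :=
  (l.map fun p => List.replicate p.2
    (if p.1 then ((0 : Fin 2), true) else ((1 : Fin 2), false))).flatten

/-- The volume `v_8 = 8 Λ(π/4) = 3.66386...` of the regular ideal octahedron. -/
noncomputable def volOctahedron : ℝ := -8 * ∫ x in (0 : ℝ)..(Real.pi / 4), Real.log (2 * Real.sin x)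

end Pool.Agent.Work.MP_b30479_gtS

end

section

/-!
# Upper bound by the number of twist regions
-/

namespace Pool.Agent.Work.MP_b30479_gtS.TB

open Finset Pool.Agent.Work.MP_b30479_gtS.Lob

/-- letter of a twist region -/
def lett (b : Bool) : Fin 2 × Bool := if b then ((0 : Fin 2), true) else ((1 : Fin 2), false)

lemma twistWord_cons (p : Bool × ℕ) (l : List (Bool × ℕ)) :
    twistWord (p :: l) = List.replicate p.2 (lett p.1) ++ twistWord l := by
  unfold twistWord lett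
  simp

lemma mirrorRev_block (b : Bool) (m : ℕ) :
    mirrorRev (List.replicate m (lett b)) = List.replicate m (lett (!b)) := by
  unfold mirrorRev
  rw [List.map_replicate, List.reverse_replicate]
  cases b <;> rfl

lemma opL_block (s : ℕ) (u : ℂˣ) (b : Bool) (m : ℕ) (X : Arr) :
    opL s u (List.replicate m (lett b)) X = if b then pw s u m X else pw2 s u m X := by
  induction m with
  | zero => cases b <;> rfl
  | succ m ih =>
    rw [List.replicate_succ, opL_cons, ih]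
    cases b
    · simp only [Bool.false_eq_true, if_false]
      rw [pw2_succ]
      rfl
    · simp only [if_true]
      rw [pw_succ]
      rfl

section
variable {s : ℕ} {u : ℂˣ} (h : IsPrimitiveRoot (u : ℂ) (2 * s + 1))
include h

lemma pw2_eta (m : ℕ) : ∃ c : ℂ, ‖c‖ = 1 ∧ ∀ i j k, i + j + k = 2 * s →
    pw2 s u m (eta s u) i j k = c * eta s u i j k := by
  have h1 : ‖(u : ℂ)‖ = 1 := h.norm'_eq_one (by omega)
  induction m with
  | zero => exact ⟨1, norm_one, fun i j k _ => by rw [one_mul]; rfl⟩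
  | succ m ih =>
    obtain ⟨c, hc, hcc⟩ := ih
    refine ⟨c * (u : ℂ) ^ (-((s : ℤ) * s)), by rw [norm_mul, hc, norm_zpow, h1]; simp, ?_⟩
    intro i j k hs
    rw [pw2_succ]
    have e1 : L2 (entry s u false) (pw2 s u m (eta s u)) i j k =
        c * L2 (entry s u false) (eta s u) i j k :=
      op_congr_smul (1, false) c hcc i j k hs
    rw [e1, L2_eta h k i j hs]
    ring

lemma qn_pw2_eta (m : ℕ) : qn s (pw2 s u m (eta s u)) = 1 := by
  obtain ⟨c, hc, hcc⟩ := pw2_eta h m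
  rw [qn_congr_smul hc hcc, qn_eta h]

end

section
variable {s : ℕ} (hs : 1 ≤ s) {u : ℂˣ} (hu : (u : ℂ) = tt s)
include hs hu

lemma hprim : IsPrimitiveRoot (u : ℂ) (2 * s + 1) := by rw [hu]; exact tt_prim s

omit hs hu in
lemma PP_one (s m : ℕ) : 1 ≤ PP s m := by
  unfold PP
  have hn := n_ge_one s
  have h1 : (1 : ℝ) ≤ 6 * (2 * s + 1) ^ 2 := by nlinarith
  have h2 : (1 : ℝ) ≤ (6 * (2 * s + 1) ^ 2) ^ 11 := one_le_pow₀ h1
  have h3 : (0 : ℝ) ≤ m := Nat.cast_nonneg m
  nlinarith only [h2]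

omit hs hu in
lemma v8_nonneg : 0 ≤ v8 := by
  unfold v8
  have hpi := Real.pi_pos
  have := LF_nonpos (y := Real.pi / 4) (by linarith only [hpi]) (by linarith only [hpi])
  linarith only [this]

omit hs hu in
lemma one_le_exp8 (s : ℕ) : 1 ≤ Real.exp (v8 / hh s) :=
  Real.one_le_exp (div_nonneg v8_nonneg (hh_pos s).le)

lemma qn_block {X : Arr} (hX : HW s u X) (b : Bool) (m : ℕ) :
    qn s (opL s u (List.replicate m (lett b)) X) ≤ (PP s m * Real.exp (v8 / hh s)) ^ 2 * qn s X := by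
  have hp := hprim hs hu
  have hB : ∀ k ≤ 2 * s, ∀ j ≤ 2 * s, ‖Gm s u 1 m j k‖ * ‖qf (u : ℂ) k‖ ^ 2 ≤
      (PP s m / (2 * s + 1) * Real.exp (v8 / hh s)) * ‖qf (u : ℂ) j‖ ^ 2 := by
    intro k hk j hj
    rw [hu]
    exact entry_bound hs m hj hk
  have e1 : (((2 * s + 1 : ℕ) : ℝ) * (PP s m / (2 * s + 1) * Real.exp (v8 / hh s))) ^ 2 =
      (PP s m * Real.exp (v8 / hh s)) ^ 2 := by
    push_cast
    field_simp
  rw [opL_block, ← e1]
  cases b
  · exact qn_pw2 hp hX m hB
  · exact qn_pw hp hX m hB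

lemma qn_block_eta (b : Bool) (m : ℕ) :
    qn s (opL s u (List.replicate m (lett b)) (eta s u)) ≤ PP s m ^ 2 * Real.exp (v8 / hh s) := by
  have hp := hprim hs hu
  rw [opL_block]
  cases b
  · simp only [Bool.false_eq_true, if_false]
    rw [qn_pw2_eta hp]
    have h1 := PP_one s m
    have h2 := one_le_exp8 s
    have h3 : (1 : ℝ) ≤ PP s m ^ 2 := one_le_pow₀ h1
    nlinarith only [h3, h2]
  · simp only [if_true]
    have hB : ∀ k ≤ 2 * s, ‖Gm s u 1 m 0 k‖ * ‖qf (u : ℂ) k‖ ^ 2 ≤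
        PP s m / (2 * s + 1) * Real.exp (v8 / 2 / hh s) := by
      intro k hk
      rw [hu]
      exact entry_bound_zero hs m hk
    refine (qn_pw_eta hp m hB).trans ?_
    have e1 : ((2 * s + 1 : ℕ) : ℝ) * (PP s m / (2 * s + 1) * Real.exp (v8 / 2 / hh s)) ^ 2 =
        PP s m ^ 2 * Real.exp (v8 / hh s) * (1 / (2 * s + 1)) := by
      rw [mul_pow, ← Real.exp_nat_mul]
      have e2 : ((2 : ℕ) : ℝ) * (v8 / 2 / hh s) = v8 / hh s := by push_cast; ring
      rw [e2]
      push_cast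
      field_simp
    rw [e1]
    have h1 := PP_one s m
    have h2 : (1 : ℝ) / (2 * s + 1) ≤ 1 := by
      rw [div_le_one (by positivity)]
      exact n_ge_one s
    have h3 : 0 ≤ PP s m ^ 2 * Real.exp (v8 / hh s) := by positivity
    nlinarith only [h2, h3]

/-- product of the polynomial factors -/
noncomputable def prodPP (s : ℕ) (l : List (Bool × ℕ)) : ℝ := (l.map fun p => PP s p.2).prod

omit hs hu in
lemma prodPP_nonneg (s : ℕ) (l : List (Bool × ℕ)) : 0 ≤ prodPP s l := by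
  unfold prodPP
  apply List.prod_nonneg
  intro x hx
  rw [List.mem_map] at hx
  obtain ⟨p, _, rfl⟩ := hx
  exact zero_le_one.trans (PP_one s p.2)

lemma qn_twist (l : List (Bool × ℕ)) (hl : l ≠ []) :
    qn s (opL s u (twistWord l) (eta s u)) ≤
      prodPP s l ^ 2 * Real.exp (v8 / hh s) ^ (2 * l.length - 1) := by
  have hp := hprim hs hu
  induction l with
  | nil => exact absurd rfl hl
  | cons p l ih =>
    rcases eq_or_ne l [] with rfl | hl'
    · have e1 : twistWord [p] = List.replicate p.2 (lett p.1) := by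
        rw [twistWord_cons]
        unfold twistWord
        simp
      rw [e1]
      have := qn_block_eta hs hu p.1 p.2
      unfold prodPP
      simpa using this
    · have h1 := ih hl'
      rw [twistWord_cons, opL_append]
      have hX : HW s u (opL s u (twistWord l) (eta s u)) := HW_opL hp _ (HW_eta hp)
      refine (qn_block hs hu hX p.1 p.2).trans ?_
      refine (mul_le_mul_of_nonneg_left h1 (sq_nonneg _)).trans (le_of_eq ?_)
      have hl0 : 1 ≤ l.length := List.length_pos_iff.mpr hl'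
      have e2 : prodPP s (p :: l) = PP s p.2 * prodPP s l := by
        unfold prodPP
        simp
      rw [e2, List.length_cons]
      obtain ⟨d, hd⟩ : ∃ d, l.length = d + 1 := ⟨l.length - 1, by omega⟩
      rw [hd, show 2 * (d + 1) - 1 = 2 * d + 1 by omega, show 2 * (d + 1 + 1) - 1 = 2 * d + 3 by omega]
      ring

theorem upper_twist (l : List (Bool × ℕ)) (hl : 2 ≤ l.length) :
    ‖tangleValue s (twistWord l) u‖ ≤ prodPP s l * Real.exp (v8 / hh s) ^ (l.length - 1) := by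
  have hp := hprim hs hu
  obtain ⟨p, l', rfl⟩ : ∃ p l', l = p :: l' := by
    match l, hl with
    | p :: l', _ => exact ⟨p, l', rfl⟩
  have hl' : l' ≠ [] := by
    rintro rfl
    simp at hl
  have e1 : twistWord (p :: l') = mirrorRev (List.replicate p.2 (lett (!p.1))) ++ twistWord l' := by
    rw [twistWord_cons, mirrorRev_block, Bool.not_not]
  rw [e1, tangleValue_mirror hp]
  have h1 := cs_qn hp (HW_opL hp (List.replicate p.2 (lett (!p.1))) (HW_eta hp))
    (HW_opL hp (twistWord l') (HW_eta hp)) rfl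
  have h2 := qn_block_eta hs hu (!p.1) p.2
  have h3 := qn_twist hs hu l' hl'
  have h4 := (qn_eq hp (HW_opL hp (twistWord l') (HW_eta hp))).2
  have hP : 0 ≤ PP s p.2 := zero_le_one.trans (PP_one s p.2)
  have hQ := prodPP_nonneg s l'
  have h5 : ‖HH (2 * s) (opL s u (List.replicate p.2 (lett (!p.1))) (eta s u))
      (opL s u (twistWord l') (eta s u))‖ ^ 2 ≤
      (prodPP s (p :: l') * Real.exp (v8 / hh s) ^ ((p :: l').length - 1)) ^ 2 := by
    refine h1.trans ((mul_le_mul h2 h3 h4 (by positivity)).trans (le_of_eq ?_))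
    have hl0 : 1 ≤ l'.length := List.length_pos_iff.mpr hl'
    have e2 : prodPP s (p :: l') = PP s p.2 * prodPP s l' := by
      unfold prodPP
      simp
    rw [e2, List.length_cons, Nat.add_sub_cancel]
    obtain ⟨d, hd⟩ : ∃ d, l'.length = d + 1 := ⟨l'.length - 1, by omega⟩
    rw [hd, show 2 * (d + 1) - 1 = 2 * d + 1 by omega]
    ring
  exact (abs_le_of_sq_le_sq' h5 (mul_nonneg (prodPP_nonneg s _) (by positivity))).2

end

lemma volOct_eq : volOctahedron = v8 := rfl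

/-- the twist number bound -/
theorem growth_twist (l : List (Bool × ℕ)) (hl : 2 ≤ l.length) (δ : ℤ)
    {n : ℕ} (hn : Odd n) (hn3 : 3 ≤ n) :
    ‖twoBridgeKashaev (twistWord l) δ n‖ ≤
      (l.map fun p => (6 * (n : ℝ) ^ 2) ^ 11 * (p.2 + 1)).prod *
        Real.exp (n * (2 * volOctahedron) / (2 * Real.pi)) ^ (l.length - 1) := by
  obtain ⟨s, rfl⟩ := hn
  have hs : 1 ≤ s := by omega
  obtain ⟨u, hu, hk⟩ := kashaev_norm s (twistWord l) δ
  rw [hk]
  refine (upper_twist hs hu l hl).trans (le_of_eq ?_)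
  have e1 : v8 / hh s = ((2 * s + 1 : ℕ) : ℝ) * (2 * volOctahedron) / (2 * Real.pi) := by
    rw [volOct_eq]
    unfold hh
    have := Real.pi_pos
    push_cast
    field_simp
  rw [e1]
  unfold prodPP PP
  push_cast
  rfl

end Pool.Agent.Work.MP_b30479_gtS.TB

end

section

/-!
# The invariant of `C(a,a)` as a sum of squares
-/

namespace Pool.Agent.Work.MP_b30479_gtS.DT

open Finset TB AX

/-- the framing phase -/
noncomputable def phase (W : ℤ) (s : ℕ) : ℂ :=
  Complex.exp (-(2 * Real.pi * Complex.I * W * (s * (s + 1)) / ((2 * s + 1 : ℕ) : ℂ)))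

lemma dtWord_eq (a : ℕ) : dtWord a = mirrorRev (List.replicate a (lett true)) ++
    List.replicate a (lett true) := by
  rw [mirrorRev_block]
  rfl

theorem kashaev_eq (a : ℕ) (δ : ℤ) (s : ℕ) :
    twoBridgeKashaev (dtWord a) δ (2 * s + 1) =
      phase (orientedWrithe (dtWord a) ![1, δ, -δ]) s *
        ((∑ k ∈ range (2 * s + 1), Ak a s k ^ 2 : ℝ) : ℂ) := by
  have e1 : (2 * s + 1 - 1) / 2 = s := by omega
  unfold twoBridgeKashaev
  rw [e1]
  set u : ℂˣ := Units.mk0 (Complex.exp (2 * Real.pi * Complex.I / ((2 * s + 1 : ℕ) : ℂ)))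
    (Complex.exp_ne_zero _) with hu0
  have hu : (u : ℂ) = tt s := rfl
  have h : IsPrimitiveRoot (u : ℂ) (2 * s + 1) := by rw [hu]; exact tt_prim s
  unfold twoBridgeJones
  congr 1
  · unfold phase
    rw [Units.val_zpow_eq_zpow_val, hu]
    unfold tt
    rw [← Complex.exp_int_mul]
    congr 1
    push_cast
    ring
  · rw [dtWord_eq, tangleValue_mirror h, opL_block]
    simp only [if_true]
    rw [(qn_eq h (HW_pw h (HW_eta h) a)).1, qn_parseval h (HW_pw h (HW_eta h) a)]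
    congr 1
    apply Finset.sum_congr rfl
    intro k hk
    rw [mem_range] at hk
    have hk' : k ≤ 2 * s := by omega
    have pk := norm_qf_pos h hk'
    have x0 : ∀ j, j ≤ 2 * s → xi s u j (eta s u) = if j = 0 then 1 else 0 := by
      intro j hj
      split_ifs with hj0
      · subst hj0
        exact HH_eta h
      · exact HH_uu_orth h (k := 0) hj0 hj (by omega)
    rw [xi_pw h (HW_eta h) a hk', Finset.sum_eq_single 0]
    · have n0 : NN (u : ℂ) 0 = 1 := by unfold NN; simp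
      rw [x0 0 (by omega), if_pos rfl, n0, div_one, one_mul, norm_mul, NN_norm]
      have e2 := norm_qf_fS hk'
      rw [← hu] at e2
      unfold Ak
      rw [← e2, ← hu, div_eq_iff (by positivity)]
      ring
    · intro j hj hj0
      rw [mem_range] at hj
      rw [x0 j (by omega), if_neg hj0]
      ring
    · intro hc
      exact absurd (mem_range.mpr (by omega)) hc

lemma orientAfter_odd (w : List (Fin 2 × Bool)) (o : Fin 3 → ℤ) (ho : ∀ l, Odd (o l)) :
    ∀ l, Odd (orientAfter w o l) := by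
  obtain ⟨π, hπ⟩ := orientAfter_perm w
  intro l
  rw [hπ]
  exact ho _

lemma writhe_parity (w : List (Fin 2 × Bool)) (o : Fin 3 → ℤ) (ho : ∀ l, Odd (o l)) :
    Even (orientedWrithe w o - w.length) := by
  induction w with
  | nil => simp [orientedWrithe]
  | cons g w ih =>
    have h1 := orientAfter_odd w o ho g.1.castSucc
    have h2 := orientAfter_odd w o ho g.1.succ
    have h3 : Odd ((if g.2 then (1 : ℤ) else -1) *
        (orientAfter w o g.1.castSucc * orientAfter w o g.1.succ)) := by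
      apply Odd.mul _ (h1.mul h2)
      split_ifs
      · exact odd_one
      · exact odd_neg.mpr odd_one
    have e : orientedWrithe (g :: w) o - ((g :: w).length : ℤ) =
        (orientedWrithe w o - w.length) + ((if g.2 then (1 : ℤ) else -1) *
        (orientAfter w o g.1.castSucc * orientAfter w o g.1.succ) - 1) := by
      show orientedWrithe w o + (if g.2 then (1 : ℤ) else -1) *
        (orientAfter w o g.1.castSucc * orientAfter w o g.1.succ) - ((g :: w).length : ℤ) = _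
      rw [List.length_cons]
      push_cast
      ring
    rw [e]
    exact ih.add (h3.sub_odd odd_one)

theorem writhe_even (a : ℕ) {δ : ℤ} (hδ : δ = 1 ∨ δ = -1) :
    Even (orientedWrithe (dtWord a) ![1, δ, -δ]) := by
  have ho : ∀ l, Odd ((![1, δ, -δ] : Fin 3 → ℤ) l) := by
    intro l
    rcases hδ with rfl | rfl
    · fin_cases l <;> decide
    · fin_cases l <;> decide
  have h1 := writhe_parity (dtWord a) ![1, δ, -δ] ho
  have h2 : ((dtWord a).length : ℤ) = a + a := by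
    unfold dtWord
    simp
  have h3 : orientedWrithe (dtWord a) ![1, δ, -δ] =
      (orientedWrithe (dtWord a) ![1, δ, -δ] - ((dtWord a).length : ℤ)) + (a + a) := by
    rw [h2]
    ring
  rw [h3]
  exact h1.add ⟨(a : ℤ), rfl⟩

theorem phase_ratio {W : ℤ} (hW : Even W) :
    Filter.Tendsto (fun s : ℕ => phase W (s + 1) / phase W s) Filter.atTop (nhds 1) := by
  obtain ⟨V, rfl⟩ := hW
  have e : ∀ s : ℕ, phase (V + V) (s + 1) / phase (V + V) s = Complex.exp
      (-(2 * Real.pi * Complex.I * (V : ℂ) *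
        (((1 / (2 * ((2 * s + 1 : ℕ) : ℝ)) - 1 / (2 * ((2 * (s + 1) + 1 : ℕ) : ℝ)) : ℝ) : ℂ)))) := by
    intro s
    unfold phase
    rw [← Complex.exp_sub]
    have h1 : ((2 * s + 1 : ℕ) : ℂ) ≠ 0 := by exact_mod_cast (by omega : 2 * s + 1 ≠ 0)
    have h2 : ((2 * (s + 1) + 1 : ℕ) : ℂ) ≠ 0 := by
      exact_mod_cast (by omega : 2 * (s + 1) + 1 ≠ 0)
    have h3 : Complex.exp (-(2 * Real.pi * Complex.I * (V : ℂ))) = 1 := by
      rw [show -(2 * Real.pi * Complex.I * (V : ℂ)) = ((-V : ℤ) : ℂ) * (2 * Real.pi * Complex.I) by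
        push_cast; ring]
      exact Complex.exp_int_mul_two_pi_mul_I _
    have h4 : -(2 * (Real.pi : ℂ) * Complex.I * ((V + V : ℤ) : ℂ) *
          (((s + 1 : ℕ) : ℂ) * (((s + 1 : ℕ) : ℂ) + 1)) / ((2 * (s + 1) + 1 : ℕ) : ℂ)) -
        -(2 * (Real.pi : ℂ) * Complex.I * ((V + V : ℤ) : ℂ) * ((s : ℂ) * ((s : ℂ) + 1)) /
          ((2 * s + 1 : ℕ) : ℂ)) = -(2 * Real.pi * Complex.I * (V : ℂ) *
        (((1 / (2 * ((2 * s + 1 : ℕ) : ℝ)) - 1 / (2 * ((2 * (s + 1) + 1 : ℕ) : ℝ)) : ℝ) : ℂ))) +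
        -(2 * Real.pi * Complex.I * (V : ℂ)) := by
      push_cast at h1 h2 ⊢
      field_simp
      ring
    rw [h4, Complex.exp_add, h3, mul_one]
  simp only [e]
  have h1 : Filter.Tendsto (fun s : ℕ => (1 / (2 * ((2 * s + 1 : ℕ) : ℝ)) -
      1 / (2 * ((2 * (s + 1) + 1 : ℕ) : ℝ)) : ℝ)) Filter.atTop (nhds 0) := by
    have h2 : Filter.Tendsto (fun s : ℕ => (1 / (2 * ((2 * s + 1 : ℕ) : ℝ)) : ℝ))
        Filter.atTop (nhds 0) := by
      apply Filter.Tendsto.div_atTop tendsto_const_nhds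
      apply Filter.Tendsto.const_mul_atTop (by norm_num)
      apply tendsto_natCast_atTop_atTop.comp
      apply Filter.tendsto_atTop_mono (f := fun s : ℕ => s) (fun s => by omega) Filter.tendsto_id
    have h3 : Filter.Tendsto (fun s : ℕ => (1 / (2 * ((2 * (s + 1) + 1 : ℕ) : ℝ)) : ℝ))
        Filter.atTop (nhds 0) := h2.comp (Filter.tendsto_add_atTop_nat 1)
    simpa using h2.sub h3
  have h4 : Filter.Tendsto (fun s : ℕ => (-(2 * Real.pi * Complex.I * (V : ℂ) *
        (((1 / (2 * ((2 * s + 1 : ℕ) : ℝ)) - 1 / (2 * ((2 * (s + 1) + 1 : ℕ) : ℝ)) : ℝ) : ℂ)))))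
      Filter.atTop (nhds (-(2 * Real.pi * Complex.I * (V : ℂ) * ((0 : ℝ) : ℂ)))) :=
    (((Complex.continuous_ofReal.tendsto 0).comp h1).const_mul _).neg
  have h5 := (Complex.continuous_exp.tendsto _).comp h4
  rw [Complex.ofReal_zero, mul_zero, neg_zero, Complex.exp_zero] at h5
  exact h5

end Pool.Agent.Work.MP_b30479_gtS.DT

end

section

/-!
# Assembly
-/

namespace Pool.Agent.Work.MP_b30479_gtS.LT

open Finset VOL AX MeasureTheory Filter Topology

lemma inv_nn_tendsto : Tendsto (fun s : ℕ => (1 / ((2 * s + 1 : ℕ) : ℝ) : ℝ)) atTop (𝓝 0) := by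
  apply Filter.Tendsto.div_atTop tendsto_const_nhds
  apply tendsto_natCast_atTop_atTop.comp
  exact Filter.tendsto_atTop_mono (f := fun s : ℕ => s) (fun s => by omega) Filter.tendsto_id

lemma ratio_nn : Tendsto (fun s : ℕ => (((2 * (s + 1) + 1 : ℕ) : ℝ) / ((2 * s + 1 : ℕ) : ℝ) : ℝ))
    atTop (𝓝 1) := by
  have e : ∀ s : ℕ, ((2 * (s + 1) + 1 : ℕ) : ℝ) / ((2 * s + 1 : ℕ) : ℝ) =
      1 + 2 * (1 / ((2 * s + 1 : ℕ) : ℝ)) := by
    intro s
    have h : ((2 * s + 1 : ℕ) : ℝ) ≠ 0 := by exact_mod_cast (by omega : 2 * s + 1 ≠ 0)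
    field_simp
    push_cast
    ring
  simp only [e]
  have := (inv_nn_tendsto.const_mul 2).const_add 1
  simpa using this

theorem phs_ratio (W e : ℤ) : Tendsto (fun s : ℕ => phs W e (s + 1) / phs W e s) atTop
    (𝓝 ((-1) ^ W * Complex.I ^ e)) := by
  have hd : Tendsto (fun s : ℕ => ((1 / ((2 * s + 1 : ℕ) : ℝ) -
      1 / ((2 * (s + 1) + 1 : ℕ) : ℝ) : ℝ) : ℂ)) atTop (𝓝 0) := by
    have h3 : Tendsto (fun s : ℕ => (1 / ((2 * (s + 1) + 1 : ℕ) : ℝ) : ℝ)) atTop (𝓝 0) :=
      inv_nn_tendsto.comp (tendsto_add_atTop_nat 1)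
    have h4 := inv_nn_tendsto.sub h3
    rw [sub_zero] at h4
    exact (Complex.continuous_ofReal.tendsto 0).comp h4
  have key : ∀ s : ℕ, phs W e (s + 1) / phs W e s = (-1) ^ W * Complex.I ^ e *
      Complex.exp (-(Real.pi * Complex.I * (2 * W + e) / 4) * ((1 / ((2 * s + 1 : ℕ) : ℝ) -
        1 / ((2 * (s + 1) + 1 : ℕ) : ℝ) : ℝ) : ℂ)) := by
    intro s
    have h1 : ((2 * s + 1 : ℕ) : ℂ) ≠ 0 := by exact_mod_cast (by omega : 2 * s + 1 ≠ 0)
    have h2 : ((2 * (s + 1) + 1 : ℕ) : ℂ) ≠ 0 := by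
      exact_mod_cast (by omega : 2 * (s + 1) + 1 ≠ 0)
    have e1 : ((-1 : ℂ)) ^ W = Complex.exp (-(Real.pi * Complex.I * W)) := by
      have h3 : ((-1 : ℂ)) = Complex.exp (-(Real.pi * Complex.I)) := by
        rw [Complex.exp_neg, Complex.exp_pi_mul_I]
        norm_num
      conv_lhs => rw [h3]
      rw [← Complex.exp_int_mul]
      congr 1
      ring
    have e2 : Complex.I ^ e = Complex.exp (Real.pi * Complex.I * e / 2) := by
      have h3 : Complex.I = Complex.exp (Real.pi / 2 * Complex.I) := by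
        rw [Complex.exp_pi_div_two_mul_I]
      conv_lhs => rw [h3]
      rw [← Complex.exp_int_mul]
      congr 1
      ring
    unfold phs
    rw [e1, e2, ← Complex.exp_add, ← Complex.exp_add, ← Complex.exp_sub, ← Complex.exp_add,
      ← Complex.exp_add]
    congr 1
    push_cast at h1 h2 ⊢
    field_simp
    ring
  simp only [key]
  have h5 := ((Complex.continuous_exp.tendsto _).comp
    (hd.const_mul (-(Real.pi * Complex.I * (2 * W + e) / 4)))).const_mul
    ((-1) ^ W * Complex.I ^ e)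
  rw [mul_zero, Complex.exp_zero, mul_one] at h5
  exact h5

lemma orientedWrithe_blk (g : Fin 2) (b : ℤ) : ((blk g b).length : ℤ) = |b| := by
  unfold blk
  simp

lemma topW_length : ∀ (g : Fin 2) (l : List ℤ), Even (((topW g l).length : ℤ) - l.sum)
  | _, [] => by simp [topW]
  | g, [b] => by
    have hg : g = 0 ∨ g = 1 := by omega
    have habs : ∀ x : ℤ, Even (|x| - x) := by
      intro x
      rcases abs_choice x with h | h
      · rw [h]; simp
      · rw [h]; exact ⟨-x, by ring⟩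
    rcases hg with rfl | rfl
    · have e : topW 0 [b] = ((1 : Fin 2), false) :: blk 0 (b - 1) := rfl
      rw [e, List.length_cons, List.sum_singleton]
      push_cast
      rw [orientedWrithe_blk]
      have := habs (b - 1)
      have e2 : |b - 1| + 1 - b = |b - 1| - (b - 1) := by ring
      rw [e2]
      exact this
    · have e : topW 1 [b] = blk 1 b := rfl
      rw [e, orientedWrithe_blk, List.sum_singleton]
      exact habs b
  | g, b :: c :: l => by
    have habs : ∀ x : ℤ, Even (|x| - x) := by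
      intro x
      rcases abs_choice x with h | h
      · rw [h]; simp
      · rw [h]; exact ⟨-x, by ring⟩
    have e : topW g (b :: c :: l) = topW (Fin.rev g) (c :: l) ++ blk g b := rfl
    have ih := topW_length (Fin.rev g) (c :: l)
    rw [e, List.length_append, List.sum_cons]
    push_cast
    rw [orientedWrithe_blk]
    have e2 : ((topW (Fin.rev g) (c :: l)).length : ℤ) + |b| - (b + (c :: l).sum) =
      (((topW (Fin.rev g) (c :: l)).length : ℤ) - (c :: l).sum) + (|b| - b) := by ring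
    rw [e2]
    exact ih.add (habs b)

theorem writhe_parity' {M : ℕ} (b : Fin (M + 1) → ℤ) {δ : ℤ} (hδ : δ = 1 ∨ δ = -1) :
    Even (orientedWrithe (ltWord (List.ofFn b)) ![1, δ, -δ] - ∑ i, b i) := by
  have ho : ∀ l, Odd ((![1, δ, -δ] : Fin 3 → ℤ) l) := by
    intro l
    rcases hδ with rfl | rfl
    · fin_cases l <;> decide
    · fin_cases l <;> decide
  have h1 := DT.writhe_parity (ltWord (List.ofFn b)) ![1, δ, -δ] ho
  have h2 := topW_length 0 (List.ofFn b)
  rw [List.sum_ofFn] at h2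
  have e : orientedWrithe (ltWord (List.ofFn b)) ![1, δ, -δ] - ∑ i, b i =
      (orientedWrithe (ltWord (List.ofFn b)) ![1, δ, -δ] - (ltWord (List.ofFn b)).length) +
      (((topW 0 (List.ofFn b)).length : ℤ) - ∑ i, b i) := by
    unfold ltWord
    ring
  rw [e]
  exact h1.add h2

lemma ratio_lim {X : ℕ → ℂ} {L : ℂ} (hL : L ≠ 0) (hX : Tendsto X atTop (𝓝 L)) :
    Tendsto (fun s => X (s + 1) / X s) atTop (𝓝 1) := by
  have := (hX.comp (tendsto_add_atTop_nat 1)).div hX hL
  rw [div_self hL] at this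
  exact this

theorem main_of_lim {M : ℕ} {b : Fin (M + 1) → ℤ} {y : Fin M → ℂ} {ζ : Fin (M + 1) → ℂ}
    (him : ∀ i, 0 < (ζ i).im) {L : ℂ} (hL : L ≠ 0)
    (hX : Tendsto (fun s : ℕ => ((((2 * s + 1 : ℕ) : ℝ) ^ (2 * (M : ℝ) + 1 / 2) : ℝ) : ℂ) *
      Complex.exp (-(((2 * s + 1 : ℕ) : ℂ) * TT b y ζ)) *
      II (2 * s + 1) b (fun i => (ζ i).im)) atTop (𝓝 L)) {δ : ℤ}
    (hδ : IsOrientation (ltWord (List.ofFn b)) δ) :
    (∀ᶠ s : ℕ in atTop, twoBridgeKashaev (ltWord (List.ofFn b)) δ (2 * s + 1) ≠ 0) ∧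
    Tendsto (fun s : ℕ => twoBridgeKashaev (ltWord (List.ofFn b)) δ (2 * s + 3) /
      twoBridgeKashaev (ltWord (List.ofFn b)) δ (2 * s + 1)) atTop
      (𝓝 ((-Complex.I) ^ (∑ i, b i) * Complex.exp (2 * TT b y ζ))) := by
  set w := ltWord (List.ofFn b) with hw
  set W := orientedWrithe w ![1, δ, -δ] with hW
  set e := ∑ i, b i with he
  set T := TT b y ζ with hT
  set ρ : Fin (M + 1) → ℝ := fun i => (ζ i).im with hρ
  set X : ℕ → ℂ := fun s : ℕ => ((((2 * s + 1 : ℕ) : ℝ) ^ (2 * (M : ℝ) + 1 / 2) : ℝ) : ℂ) *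
      Complex.exp (-(((2 * s + 1 : ℕ) : ℂ) * T)) * II (2 * s + 1) b ρ with hXd
  set F : ℕ → ℂ := fun s : ℕ => ((((2 * s + 1 : ℕ) : ℝ) ^ (2 * (M : ℝ) + 1 / 2) : ℝ) : ℂ) with hF
  have hn : ∀ s : ℕ, 0 < ((2 * s + 1 : ℕ) : ℝ) := fun s => by positivity
  have hnc : ∀ s : ℕ, ((2 * s + 1 : ℕ) : ℂ) ≠ 0 := fun s => by
    exact_mod_cast (by omega : 2 * s + 1 ≠ 0)
  have hF0 : ∀ s, F s ≠ 0 := fun s => by
    have := Real.rpow_pos_of_pos (hn s) (2 * (M : ℝ) + 1 / 2)
    exact Complex.ofReal_ne_zero.mpr this.ne'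
  have hform : ∀ s : ℕ, 1 ≤ s → twoBridgeKashaev w δ (2 * s + 1) =
      phs W e s * (Complex.I * ((2 * s + 1 : ℕ) : ℂ) ^ 2 / 2) ^ (M + 1) *
        (X s * (F s)⁻¹ * Complex.exp (((2 * s + 1 : ℕ) : ℂ) * T)) := by
    intro s hs
    rw [exact_formula b him δ hs]
    congr 1
    have h1 := hF0 s
    have h2 : Complex.exp (-(((2 * s + 1 : ℕ) : ℂ) * T)) *
        Complex.exp (((2 * s + 1 : ℕ) : ℂ) * T) = 1 := by
      rw [← Complex.exp_add, neg_add_cancel, Complex.exp_zero]
    have h3 : X s = F s * Complex.exp (-(((2 * s + 1 : ℕ) : ℂ) * T)) * II (2 * s + 1) b ρ := rfl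
    rw [h3]
    calc II (2 * s + 1) b ρ = (Complex.exp (-(((2 * s + 1 : ℕ) : ℂ) * T)) *
          Complex.exp (((2 * s + 1 : ℕ) : ℂ) * T)) * (F s * (F s)⁻¹) * II (2 * s + 1) b ρ := by
          rw [h2, mul_inv_cancel₀ h1, one_mul, one_mul]
      _ = _ := by ring
  have hphs : ∀ s, phs W e s ≠ 0 := fun s => mul_ne_zero (Complex.exp_ne_zero _)
    (Complex.exp_ne_zero _)
  have hX0 : ∀ᶠ s in atTop, X s ≠ 0 := hX.eventually_ne hL
  have hG0 : ∀ s : ℕ, (Complex.I * ((2 * s + 1 : ℕ) : ℂ) ^ 2 / 2) ^ (M + 1) ≠ 0 := fun s =>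
    pow_ne_zero _ (div_ne_zero (mul_ne_zero Complex.I_ne_zero (pow_ne_zero _ (hnc s)))
      two_ne_zero)
  refine ⟨?_, ?_⟩
  · filter_upwards [hX0, eventually_ge_atTop 1] with s hs hs1
    rw [hform s hs1]
    exact mul_ne_zero (mul_ne_zero (hphs s) (hG0 s)) (mul_ne_zero (mul_ne_zero hs
      (inv_ne_zero (hF0 s))) (Complex.exp_ne_zero _))
  · have l1 := phs_ratio W e
    have l2 := ratio_lim hL hX
    have l3 : Tendsto (fun s : ℕ => (((((2 * (s + 1) + 1 : ℕ) : ℝ) / ((2 * s + 1 : ℕ) : ℝ)) ^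
        (2 * (M + 1)) : ℝ) : ℂ)) atTop (𝓝 1) := by
      have h := ratio_nn.pow (2 * (M + 1))
      rw [one_pow] at h
      have h2 := (Complex.continuous_ofReal.tendsto _).comp h
      rw [Complex.ofReal_one] at h2
      exact h2
    have l4 : Tendsto (fun s : ℕ => (((((2 * (s + 1) + 1 : ℕ) : ℝ) / ((2 * s + 1 : ℕ) : ℝ)) ^
        (-(2 * (M : ℝ) + 1 / 2)) : ℝ) : ℂ)) atTop (𝓝 1) := by
      have h := ratio_nn.rpow_const (p := -(2 * (M : ℝ) + 1 / 2)) (Or.inl one_ne_zero)
      rw [Real.one_rpow] at h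
      have h2 := (Complex.continuous_ofReal.tendsto _).comp h
      rw [Complex.ofReal_one] at h2
      exact h2
    have l5 := (((l1.mul l2).mul l3).mul l4).mul_const (Complex.exp (2 * T))
    rw [mul_one, mul_one, mul_one] at l5
    have hsgn : ((-1 : ℂ)) ^ W * Complex.I ^ e = (-Complex.I) ^ e := by
      have hev := writhe_parity' b hδ.1
      obtain ⟨k, hk⟩ := hev
      have h1 : W = e + (k + k) := by
        rw [← hk]
        ring
      rw [h1, zpow_add₀ (by norm_num), zpow_add₀ (by norm_num)]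
      have h2 : ((-1 : ℂ)) ^ k * (-1) ^ k = 1 := by
        rw [← mul_zpow]
        norm_num
      rw [h2, mul_one, ← mul_zpow]
      congr 1
      ring
    rw [hsgn] at l5
    refine l5.congr' ?_
    filter_upwards [hX0, eventually_ge_atTop 1] with s hs hs1
    rw [show 2 * s + 3 = 2 * (s + 1) + 1 by ring, hform s hs1, hform (s + 1) (by omega)]
    have h1 := hphs s
    have h2 := hG0 s
    have h3 := hF0 s
    have h4 := hF0 (s + 1)
    have h5 := hnc s
    have e1 : (((((2 * (s + 1) + 1 : ℕ) : ℝ) / ((2 * s + 1 : ℕ) : ℝ)) ^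
        (2 * (M + 1)) : ℝ) : ℂ) = (Complex.I * ((2 * (s + 1) + 1 : ℕ) : ℂ) ^ 2 / 2) ^ (M + 1) /
        (Complex.I * ((2 * s + 1 : ℕ) : ℂ) ^ 2 / 2) ^ (M + 1) := by
      rw [← div_pow, pow_mul, Complex.ofReal_pow]
      congr 1
      rw [Complex.ofReal_pow, Complex.ofReal_div, Complex.ofReal_natCast, Complex.ofReal_natCast]
      have := Complex.I_ne_zero
      field_simp
    have e2 : (((((2 * (s + 1) + 1 : ℕ) : ℝ) / ((2 * s + 1 : ℕ) : ℝ)) ^
        (-(2 * (M : ℝ) + 1 / 2)) : ℝ) : ℂ) = F s / F (s + 1) := by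
      rw [Real.rpow_neg (by positivity), Real.div_rpow (hn _).le (hn _).le, inv_div,
        Complex.ofReal_div]
    have e3 : Complex.exp (2 * T) = Complex.exp (((2 * (s + 1) + 1 : ℕ) : ℂ) * T) /
        Complex.exp (((2 * s + 1 : ℕ) : ℂ) * T) := by
      rw [← Complex.exp_sub]
      congr 1
      push_cast
      ring
    rw [e1, e2, e3]
    have h6 := Complex.exp_ne_zero (((2 * s + 1 : ℕ) : ℂ) * T)
    have h7 := hG0 (s + 1)
    generalize (Complex.I * ((2 * s + 1 : ℕ) : ℂ) ^ 2 / 2) ^ (M + 1) = G at *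
    generalize (Complex.I * ((2 * (s + 1) + 1 : ℕ) : ℂ) ^ 2 / 2) ^ (M + 1) = G' at *
    generalize Complex.exp (((2 * s + 1 : ℕ) : ℂ) * T) = E at *
    generalize Complex.exp (((2 * (s + 1) + 1 : ℕ) : ℂ) * T) = E' at *
    generalize phs W e s = P at *
    generalize phs W e (s + 1) = P' at *
    generalize F s = f at *
    generalize F (s + 1) = f' at *
    have h8 : X s ≠ 0 := hs
    generalize X s = x at *
    generalize X (s + 1) = x' at *
    field_simp

theorem main : ∃ A : ℕ, ∀ (M : ℕ) (b : Fin (M + 1) → ℤ), 1 ≤ M → (∀ i, (A : ℤ) ≤ |b i|) →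
    ∃ (y : Fin M → ℂ) (ζ : Fin (M + 1) → ℂ), Crit b y ζ ∧ ∀ δ : ℤ,
    IsOrientation (ltWord (List.ofFn b)) δ →
    (∀ᶠ s : ℕ in atTop, twoBridgeKashaev (ltWord (List.ofFn b)) δ (2 * s + 1) ≠ 0) ∧
    Tendsto (fun s : ℕ => twoBridgeKashaev (ltWord (List.ofFn b)) δ (2 * s + 3) /
      twoBridgeKashaev (ltWord (List.ofFn b)) δ (2 * s + 1)) atTop
      (𝓝 ((-Complex.I) ^ (∑ i, b i) * Complex.exp (2 * TT b y ζ))) := by
  obtain ⟨η, hη, hcore⟩ := core
  obtain ⟨A, hA⟩ := exists_crit hη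
  refine ⟨A, fun M b hM hb => ?_⟩
  obtain ⟨y, ζ, hc, hy, hz, him⟩ := hA M b hM hb
  obtain ⟨L, hL, hX⟩ := hcore M b y ζ hM hc hy hz him
  exact ⟨y, ζ, hc, fun δ hδ => main_of_lim him hL hX hδ⟩

end Pool.Agent.Work.MP_b30479_gtS.LT

end

section

/-!
# From the core to the invariant
-/

namespace Pool.Agent.Work.MP_b30479_gtS.G2

open Finset VOL AX MeasureTheory Filter Topology
open Pool.Agent.Work.MP_b30479_gtS.LT

/-- the phase rates of the constants, in units of `2 π i` times the sign of `b` -/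
noncomputable def cka : Typ → ℂ
  | .one => 1 / 4
  | .two => -(1 / 2)
  | .threeL => -(1 / 4)
  | .threeR => -(1 / 4)
  | _ => 0

/-- the phase rate of a twist region -/
noncomputable def rph (t : Typ) (b : ℤ) : ℂ := if t.isRing = true then (-Complex.I) ^ b else 1

lemma cexp_I {x : ℂ} {k : ℤ} (h : x = k / 4) :
    Complex.exp (2 * Real.pi * Complex.I * x) = Complex.I ^ k := by
  rw [h]
  conv_rhs => rw [← Complex.exp_pi_div_two_mul_I]
  rw [← Complex.exp_int_mul]
  congr 1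
  ring

lemma rph_eq {t : Typ} {b : ℤ} (hb : t.IsOk b) :
    (-Complex.I) ^ b * Complex.exp (2 * Real.pi * Complex.I * (sg b * cka t)) = rph t b := by
  have hI := Complex.I_ne_zero
  have hnI : (-Complex.I : ℂ) = Complex.I⁻¹ := by simp
  have key : ∀ k : ℤ, sg b * cka t = k / 4 → (4 : ℤ) ∣ k - b → t.isRing = false →
      (-Complex.I) ^ b * Complex.exp (2 * Real.pi * Complex.I * (sg b * cka t)) = rph t b := by
    intro k hk h4 hr
    rw [cexp_I hk, rph, hr, if_neg (by simp), hnI, inv_zpow', ← zpow_add₀ hI]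
    obtain ⟨m, hm⟩ := h4
    have : -b + k = 4 * m := by omega
    rw [this, zpow_mul]
    have h5 : Complex.I ^ (4 : ℤ) = 1 := by
      have : Complex.I ^ (4 : ℤ) = Complex.I ^ (4 : ℕ) := by norm_cast
      rw [this, Complex.I_pow_four]
    rw [h5, one_zpow]
  have hsg : (0 < b → sg b = 1) ∧ (¬0 < b → sg b = -1) := by
    unfold sg
    constructor <;> intro h <;> simp [h]
  cases t
  case ring =>
    simp [cka, rph, Typ.isRing]
  all_goals
    simp only [Typ.IsOk] at hb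
    by_cases h : 0 < b
  · refine key 1 ?_ (by omega) rfl
    rw [hsg.1 h, cka]; push_cast; ring
  · refine key (-1) ?_ (by omega) rfl
    rw [hsg.2 h, cka]; push_cast; ring
  · refine key (-2) ?_ (by omega) rfl
    rw [hsg.1 h, cka]; push_cast; ring
  · refine key 2 ?_ (by omega) rfl
    rw [hsg.2 h, cka]; push_cast; ring
  · refine key (-1) ?_ (by omega) rfl
    rw [hsg.1 h, cka]; push_cast; ring
  · refine key 1 ?_ (by omega) rfl
    rw [hsg.2 h, cka]; push_cast; ring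
  · refine key (-1) ?_ (by omega) rfl
    rw [hsg.1 h, cka]; push_cast; ring
  · refine key 1 ?_ (by omega) rfl
    rw [hsg.2 h, cka]; push_cast; ring
  all_goals
    refine key 0 ?_ (by omega) rfl
    simp [cka]

lemma rph_ne (t : Typ) (b : ℤ) : rph t b ≠ 0 := by
  unfold rph
  split_ifs
  · exact zpow_ne_zero _ (neg_ne_zero.mpr Complex.I_ne_zero)
  · exact one_ne_zero

lemma rph_norm (t : Typ) (b : ℤ) : ‖rph t b‖ = 1 := by
  unfold rph
  split_ifs
  · rw [norm_zpow, norm_neg, Complex.norm_I, one_zpow]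
  · exact norm_one

lemma cdiff_tendsto : Tendsto (fun s : ℕ => ((1 / ((2 * (s + 1) + 1 : ℕ) : ℝ) -
      1 / ((2 * s + 1 : ℕ) : ℝ) : ℝ) : ℂ)) atTop (𝓝 0) := by
  have h3 : Tendsto (fun s : ℕ => (1 / ((2 * (s + 1) + 1 : ℕ) : ℝ) : ℝ)) atTop (𝓝 0) :=
    inv_nn_tendsto.comp (tendsto_add_atTop_nat 1)
  have h4 := h3.sub inv_nn_tendsto
  rw [sub_zero] at h4
  exact (Complex.continuous_ofReal.tendsto 0).comp h4

/-- an exponential of a polynomial in `n` and `1 / n` -/
lemma ee_ratio {f : ℕ → ℂ} (κ μ ν σ : ℂ)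
    (hf : ∀ s : ℕ, f s = σ * (κ / 2 * ((2 * s + 1 : ℕ) : ℂ) ^ 2 + μ * ((2 * s + 1 : ℕ) : ℂ) + ν)) :
    Tendsto (fun s : ℕ => DT.ee (s + 1) (f (s + 1)) / DT.ee s (f s)) atTop
      (𝓝 (Complex.exp (2 * Real.pi * Complex.I * (σ * κ)))) := by
  have key : ∀ s : ℕ, DT.ee (s + 1) (f (s + 1)) / DT.ee s (f s) =
      Complex.exp (2 * Real.pi * Complex.I * (σ * κ)) *
      Complex.exp ((2 * Real.pi * Complex.I * (σ * ν)) * ((1 / ((2 * (s + 1) + 1 : ℕ) : ℝ) -
        1 / ((2 * s + 1 : ℕ) : ℝ) : ℝ) : ℂ)) := by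
    intro s
    have h1 : ((2 * s + 1 : ℕ) : ℂ) ≠ 0 := by exact_mod_cast (by omega : 2 * s + 1 ≠ 0)
    have h2 : ((2 * (s + 1) + 1 : ℕ) : ℂ) ≠ 0 := by
      exact_mod_cast (by omega : 2 * (s + 1) + 1 ≠ 0)
    rw [hf, hf, ← Complex.exp_add]
    unfold DT.ee
    rw [← Complex.exp_sub]
    congr 1
    push_cast at h1 h2 ⊢
    field_simp
    ring
  simp only [key]
  have h5 := ((Complex.continuous_exp.tendsto _).comp
    (cdiff_tendsto.const_mul (2 * Real.pi * Complex.I * (σ * ν)))).const_mul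
    (Complex.exp (2 * Real.pi * Complex.I * (σ * κ)))
  rw [mul_zero, Complex.exp_zero, mul_one] at h5
  exact h5

lemma cph_form (t : Typ) : ∃ μ ν : ℂ, ∀ s : ℕ,
    cph t s = cka t / 2 * ((2 * s + 1 : ℕ) : ℂ) ^ 2 + μ * ((2 * s + 1 : ℕ) : ℂ) + ν := by
  cases t
  · exact ⟨1 / 4, -(3 / 8), fun s => by simp only [cph, cka]; push_cast; ring⟩
  · exact ⟨1 / 2, -(1 / 4), fun s => by simp only [cph, cka]; push_cast; ring⟩
  · exact ⟨1 / 4, -(1 / 8), fun s => by simp only [cph, cka]; push_cast; ring⟩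
  · exact ⟨1 / 4, -(1 / 8), fun s => by simp only [cph, cka]; push_cast; ring⟩
  all_goals exact ⟨0, 0, fun s => by simp only [cph, cka]; push_cast; ring⟩

lemma cph_ratio (t : Typ) (b : ℤ) : Tendsto (fun s : ℕ => DT.ee (s + 1) (sg b * cph t (s + 1)) /
    DT.ee s (sg b * cph t s)) atTop
    (𝓝 (Complex.exp (2 * Real.pi * Complex.I * (sg b * cka t)))) := by
  obtain ⟨μ, ν, h⟩ := cph_form t
  exact ee_ratio (f := fun s => sg b * cph t s) (cka t) μ ν (sg b) fun s => by
    simp only [h]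

lemma cratio_nn : Tendsto (fun s : ℕ => ((2 * (s + 1) + 1 : ℕ) : ℂ) / ((2 * s + 1 : ℕ) : ℂ))
    atTop (𝓝 1) := by
  have h := (Complex.continuous_ofReal.tendsto 1).comp ratio_nn
  rw [Complex.ofReal_one] at h
  refine h.congr fun s => ?_
  simp

lemma cba_ratio (t : Typ) : Tendsto (fun s : ℕ => cba t (s + 1) / cba t s) atTop (𝓝 1) := by
  cases t
  case one =>
    simp only [cba, div_one]
    exact tendsto_const_nhds
  case ring =>
    have h := cratio_nn.pow 2
    rw [one_pow] at h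
    refine h.congr fun s => ?_
    simp only [cba]
    have h1 : ((2 * s + 1 : ℕ) : ℂ) ≠ 0 := by exact_mod_cast (by omega : 2 * s + 1 ≠ 0)
    have := Complex.I_ne_zero
    field_simp
  all_goals exact cratio_nn

lemma rpow_ratio (c : ℝ) : Tendsto (fun s : ℕ => ((((2 * (s + 1) + 1 : ℕ) : ℝ) ^ c : ℝ) : ℂ) /
    ((((2 * s + 1 : ℕ) : ℝ) ^ c : ℝ) : ℂ)) atTop (𝓝 1) := by
  have h := ratio_nn.rpow_const (p := c) (Or.inl one_ne_zero)
  rw [Real.one_rpow] at h
  have h2 := (Complex.continuous_ofReal.tendsto _).comp h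
  rw [Complex.ofReal_one] at h2
  refine h2.congr fun s => ?_
  rw [Function.comp_apply, Real.div_rpow (Nat.cast_nonneg _) (Nat.cast_nonneg _),
    Complex.ofReal_div]

lemma list_ratio (L : List Fac) : Tendsto (fun s : ℕ =>
    (L.map fun f => ((((2 * (s + 1) + 1 : ℕ) : ℝ) ^ f.c : ℝ) : ℂ)).prod /
    (L.map fun f => ((((2 * s + 1 : ℕ) : ℝ) ^ f.c : ℝ) : ℂ)).prod) atTop (𝓝 1) := by
  induction L with
  | nil => simp
  | cons f L ih =>
    have h := (rpow_ratio f.c).mul ih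
    rw [one_mul] at h
    refine h.congr fun s => ?_
    rw [List.map_cons, List.map_cons, List.prod_cons, List.prod_cons, div_mul_div_comm]

/-- the ratios of the constants -/
theorem Cn_ratio (t : Typ) (b : ℤ) (l r : Bool) : Tendsto (fun s : ℕ => Cn t b l r (s + 1) /
    Cn t b l r s) atTop (𝓝 (Complex.exp (2 * Real.pi * Complex.I * (sg b * cka t)))) := by
  have h := ((cph_ratio t b).mul (cba_ratio t)).mul (list_ratio (facs t l r))
  rw [mul_one, mul_one] at h
  refine h.congr fun s => ?_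
  unfold Cn
  rw [div_mul_div_comm, div_mul_div_comm]

section
variable {M : ℕ} (t : Fin (M + 1) → Typ) {b : Fin (M + 1) → ℤ}

/-- from the asymptotics of the state sum to the ratios of the invariant -/
theorem main_of_lim (hb : ∀ i, (t i).IsOk (b i)) {ρ : ZZ t → ℝ} (hρ : ∀ v, 0 < ρ v) {κ : ℝ}
    {T : ℂ} {L : ℂ} (hL : L ≠ 0)
    (hX : Tendsto (fun s : ℕ => ((((2 * s + 1 : ℕ) : ℝ) ^ κ : ℝ) : ℂ) *
      Complex.exp (-(((2 * s + 1 : ℕ) : ℂ) * T)) * (wdat t b).sum (2 * s + 1) ρ) atTop (𝓝 L))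
    {δ : ℤ} (hδ : IsOrientation (ltWord (List.ofFn b)) δ) :
    (∀ᶠ s : ℕ in atTop, twoBridgeKashaev (ltWord (List.ofFn b)) δ (2 * s + 1) ≠ 0) ∧
    Tendsto (fun s : ℕ => twoBridgeKashaev (ltWord (List.ofFn b)) δ (2 * s + 3) /
      twoBridgeKashaev (ltWord (List.ofFn b)) δ (2 * s + 1)) atTop
      (𝓝 ((∏ i, rph (t i) (b i)) * Complex.exp (2 * T))) := by
  set w := ltWord (List.ofFn b) with hw
  set W := orientedWrithe w ![1, δ, -δ] with hW
  set e := ∑ i, b i with he
  set X : ℕ → ℂ := fun s : ℕ => ((((2 * s + 1 : ℕ) : ℝ) ^ κ : ℝ) : ℂ) *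
      Complex.exp (-(((2 * s + 1 : ℕ) : ℂ) * T)) * (wdat t b).sum (2 * s + 1) ρ with hXd
  set F : ℕ → ℂ := fun s : ℕ => ((((2 * s + 1 : ℕ) : ℝ) ^ κ : ℝ) : ℂ) with hF
  set C : ℕ → ℂ := fun s : ℕ => ∏ i, Cn (t i) (b i) (decide (i ≠ 0)) (decide (i ≠ Fin.last M)) s
    with hC
  have hn : ∀ s : ℕ, 0 < ((2 * s + 1 : ℕ) : ℝ) := fun s => by positivity
  have hF0 : ∀ s, F s ≠ 0 := fun s => by
    have := Real.rpow_pos_of_pos (hn s) κ
    exact Complex.ofReal_ne_zero.mpr this.ne'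
  have hC0 : ∀ s, C s ≠ 0 := fun s => Finset.prod_ne_zero_iff.2 fun i _ => Cn_ne _ _ _ _ _
  have hform : ∀ s : ℕ, 2 ≤ s → twoBridgeKashaev w δ (2 * s + 1) =
      phs W e s * (C s * (X s * (F s)⁻¹ * Complex.exp (((2 * s + 1 : ℕ) : ℂ) * T))) := by
    intro s hs
    rw [exactDat t hb hs δ hρ]
    congr 2
    have h1 := hF0 s
    have h2 : Complex.exp (-(((2 * s + 1 : ℕ) : ℂ) * T)) *
        Complex.exp (((2 * s + 1 : ℕ) : ℂ) * T) = 1 := by
      rw [← Complex.exp_add, neg_add_cancel, Complex.exp_zero]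
    have h3 : X s = F s * Complex.exp (-(((2 * s + 1 : ℕ) : ℂ) * T)) *
      (wdat t b).sum (2 * s + 1) ρ := rfl
    rw [h3]
    calc (wdat t b).sum (2 * s + 1) ρ = (Complex.exp (-(((2 * s + 1 : ℕ) : ℂ) * T)) *
          Complex.exp (((2 * s + 1 : ℕ) : ℂ) * T)) * (F s * (F s)⁻¹) *
          (wdat t b).sum (2 * s + 1) ρ := by
          rw [h2, mul_inv_cancel₀ h1, one_mul, one_mul]
      _ = _ := by ring
  have hphs : ∀ s, phs W e s ≠ 0 := fun s => mul_ne_zero (Complex.exp_ne_zero _)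
    (Complex.exp_ne_zero _)
  have hX0 : ∀ᶠ s in atTop, X s ≠ 0 := hX.eventually_ne hL
  refine ⟨?_, ?_⟩
  · filter_upwards [hX0, eventually_ge_atTop 2] with s hs hs1
    rw [hform s hs1]
    exact mul_ne_zero (hphs s) (mul_ne_zero (hC0 s) (mul_ne_zero (mul_ne_zero hs
      (inv_ne_zero (hF0 s))) (Complex.exp_ne_zero _)))
  · have l1 := phs_ratio W e
    have l2 := ratio_lim hL hX
    have l3 : Tendsto (fun s : ℕ => C (s + 1) / C s) atTop
        (𝓝 (∏ i, Complex.exp (2 * Real.pi * Complex.I * (sg (b i) * cka (t i))))) := by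
      have h := tendsto_finsetProd Finset.univ fun i _ => Cn_ratio (t i) (b i) (decide (i ≠ 0))
        (decide (i ≠ Fin.last M))
      refine h.congr fun s => ?_
      rw [Finset.prod_div_distrib]
    have l4 : Tendsto (fun s : ℕ => F s / F (s + 1)) atTop (𝓝 1) := by
      have h := (rpow_ratio κ).inv₀ one_ne_zero
      rw [inv_one] at h
      refine h.congr fun s => ?_
      rw [inv_div]
    have l5 := ((((l1.mul l3).mul l2).mul l4)).mul_const (Complex.exp (2 * T))
    rw [mul_one, mul_one] at l5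
    have hsgn : ((-1 : ℂ)) ^ W * Complex.I ^ e = (-Complex.I) ^ e := by
      have hev := writhe_parity' b hδ.1
      obtain ⟨k, hk⟩ := hev
      have h1 : W = e + (k + k) := by
        rw [← hk]
        ring
      rw [h1, zpow_add₀ (by norm_num), zpow_add₀ (by norm_num)]
      have h2 : ((-1 : ℂ)) ^ k * (-1) ^ k = 1 := by
        rw [← mul_zpow]
        norm_num
      rw [h2, mul_one, ← mul_zpow]
      congr 1
      ring
    have hprod : (-Complex.I) ^ e *
        (∏ i, Complex.exp (2 * Real.pi * Complex.I * (sg (b i) * cka (t i)))) =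
        ∏ i, rph (t i) (b i) := by
      have h1 : (-Complex.I) ^ e = ∏ i, (-Complex.I) ^ b i := by
        have hI : (-Complex.I : ℂ) ≠ 0 := neg_ne_zero.mpr Complex.I_ne_zero
        rw [he]
        induction (Finset.univ : Finset (Fin (M + 1))) using Finset.induction_on with
        | empty => simp
        | insert a S ha ih => rw [Finset.sum_insert ha, Finset.prod_insert ha, zpow_add₀ hI, ih]
      rw [h1, ← Finset.prod_mul_distrib]
      exact Finset.prod_congr rfl fun i _ => rph_eq (hb i)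
    rw [hsgn, hprod] at l5
    refine l5.congr' ?_
    filter_upwards [hX0, eventually_ge_atTop 2] with s hs hs1
    rw [show 2 * s + 3 = 2 * (s + 1) + 1 by ring, hform s hs1, hform (s + 1) (by omega)]
    have h1 := hphs s
    have h2 := hC0 s
    have h3 := hF0 s
    have h4 := hF0 (s + 1)
    have e3 : Complex.exp (2 * T) = Complex.exp (((2 * (s + 1) + 1 : ℕ) : ℂ) * T) /
        Complex.exp (((2 * s + 1 : ℕ) : ℂ) * T) := by
      rw [← Complex.exp_sub]
      congr 1
      push_cast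
      ring
    rw [e3]
    have h6 := Complex.exp_ne_zero (((2 * s + 1 : ℕ) : ℂ) * T)
    have h7 := hC0 (s + 1)
    generalize C s = G at *
    generalize C (s + 1) = G' at *
    generalize Complex.exp (((2 * s + 1 : ℕ) : ℂ) * T) = E at *
    generalize Complex.exp (((2 * (s + 1) + 1 : ℕ) : ℂ) * T) = E' at *
    generalize phs W e s = P at *
    generalize phs W e (s + 1) = P' at *
    generalize F s = f at *
    generalize F (s + 1) = f' at *
    have h8 : X s ≠ 0 := hs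
    generalize X s = x at *
    generalize X (s + 1) = x' at *
    field_simp

/-- **From a dominating saddle point to the asymptotics of the invariant.** -/
theorem main_of_saddle (hb : ∀ i, (t i).IsOk (b i)) {P : Par (DD t)}
    {nb : Finset (DD t) → Finset (DD t ⊕ ZZ t)} {zs : DD t ⊕ ZZ t → ℂ}
    (h : Sadl (wdat t b) P nb zs) {δ : ℤ} (hδ : IsOrientation (ltWord (List.ofFn b)) δ) :
    (∀ᶠ s : ℕ in atTop, twoBridgeKashaev (ltWord (List.ofFn b)) δ (2 * s + 1) ≠ 0) ∧
    Tendsto (fun s : ℕ => twoBridgeKashaev (ltWord (List.ofFn b)) δ (2 * s + 3) /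
      twoBridgeKashaev (ltWord (List.ofFn b)) δ (2 * s + 1)) atTop
      (𝓝 ((∏ i, rph (t i) (b i)) * Complex.exp (2 * (wdat t b).T zs))) ∧
    Tendsto (fun s : ℕ => Real.pi *
      Real.log ‖twoBridgeKashaev (ltWord (List.ofFn b)) δ (2 * s + 3) /
        twoBridgeKashaev (ltWord (List.ofFn b)) δ (2 * s + 1)‖) atTop
      (𝓝 (2 * Real.pi * ((wdat t b).T zs).re)) := by
  obtain ⟨L, hL, hX⟩ := core (wdat_ok t hb) h
  obtain ⟨hne, hlim⟩ := main_of_lim t hb (fun v => (h.flatZ v).2) hL hX hδ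
  refine ⟨hne, hlim, ?_⟩
  have hL : (∏ i, rph (t i) (b i)) * Complex.exp (2 * (wdat t b).T zs) ≠ 0 :=
    mul_ne_zero (Finset.prod_ne_zero_iff.2 fun i _ => rph_ne _ _) (Complex.exp_ne_zero _)
  have h1 := ((hlim.norm).log (norm_ne_zero_iff.mpr hL)).const_mul Real.pi
  have e : Real.pi * Real.log ‖(∏ i, rph (t i) (b i)) *
      Complex.exp (2 * (wdat t b).T zs)‖ = 2 * Real.pi * ((wdat t b).T zs).re := by
    have h2 : ‖∏ i, rph (t i) (b i)‖ = 1 := by
      rw [norm_prod]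
      exact Finset.prod_eq_one fun i _ => rph_norm _ _
    rw [norm_mul, h2, one_mul, Complex.norm_exp, Real.log_exp]
    have : (2 * (wdat t b).T zs).re = 2 * ((wdat t b).T zs).re := by simp
    rw [this]
    ring
  rw [e] at h1
  exact h1

end

end Pool.Agent.Work.MP_b30479_gtS.G2

end

section

/-!
# Every alternating word is equivalent to its merged word
-/

namespace Pool.Agent.Work.MP_b30479_gtS.G2

open Finset
open Pool.Agent.Work.MP_b30479_gtS.LT

/-- Every alternating word is equivalent to a word of the class, the merged word. -/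
theorem words_mg {M : ℕ} (hM : 1 ≤ M) (a : Fin (M + 1) → ℕ) (ha : ∀ i, 1 ≤ a i) (h0 : 2 ≤ a 0)
    (hl : 2 ≤ a (Fin.last M)) :
    ∃ (K : ℕ) (b : Fin (K + 1) → ℤ), 1 ≤ K ∧ ClassW b ∧
      Eqv (List.ofFn (altf a)) (List.ofFn b) ∧ List.ofFn b = mg (List.ofFn (altf a)) ∧
      AL (List.ofFn (altf a)) ∧ 0 < b 0 := by
  have e1 : List.ofFn (altf a) = altf a 0 :: List.ofFn (fun i => altf a i.succ) := List.ofFn_succ
  have hne : ∀ i, altf a i ≠ 0 := by
    intro i
    have := ha i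
    unfold altf
    exact mul_ne_zero (pow_ne_zero _ (by norm_num)) (by omega)
  have hAL : AL (List.ofFn (altf a)) := by
    refine AL_ofFn M _ hne fun j => ?_
    have h1 : (0 : ℤ) < a j.castSucc := by exact_mod_cast ha _
    have h2 : (0 : ℤ) < a j.succ := by exact_mod_cast ha _
    unfold altf
    rw [Fin.val_castSucc, Fin.val_succ, pow_succ]
    have h3 : ((-1 : ℤ) ^ (j : ℕ)) * (-1) ^ (j : ℕ) = 1 := by rw [← mul_pow]; simp
    have h4 : (-1 : ℤ) ^ (j : ℕ) * a j.castSucc * ((-1) ^ (j : ℕ) * -1 * a j.succ) =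
        -(a j.castSucc * a j.succ) := by
      linear_combination -(a j.castSucc * a j.succ : ℤ) * h3
    rw [h4]
    have := mul_pos h1 h2
    omega
  have habs : ∀ i, (altf a i).natAbs = a i := by
    intro i
    unfold altf
    rw [Int.natAbs_mul, Int.natAbs_pow]
    simp
  have hs := mg_spec (List.ofFn (fun i => altf a i.succ)).length (altf a 0)
    (List.ofFn (fun i => altf a i.succ)) le_rfl (by rw [← e1]; exact hAL)
  rw [← e1] at hs
  set m := mg (List.ofFn (altf a)) with hm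
  have hlen : 2 ≤ m.length := hs.len (by rw [← e1, List.length_ofFn]; omega)
  obtain ⟨K, hK⟩ : ∃ K, m.length = K + 1 := ⟨m.length - 1, by omega⟩
  obtain ⟨b, hb⟩ : ∃ b : Fin (K + 1) → ℤ, m = List.ofFn b := by
    refine ⟨fun i => m.get (i.cast hK.symm), ?_⟩
    apply List.ext_getElem
    · rw [List.length_ofFn, hK]
    · intro i h1 h2
      rw [List.getElem_ofFn]
      rfl
  have hlast := hs.last (by rw [← e1, lst_ofFn, habs]; exact hl)
  rw [hb] at hs hlast
  rw [lst_ofFn] at hlast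
  obtain ⟨k1, k2, k3⟩ := LW_ofFn K b hs.lw
  have hp0 : 0 < altf a 0 := by
    unfold altf
    have : (0 : ℤ) < a 0 := by exact_mod_cast ha 0
    simpa using this
  refine ⟨K, b, by omega, ⟨k1, ?_, hlast, k2, k3⟩, ?_, hb.symm, hAL, ?_⟩
  · have e2 : List.ofFn b = b 0 :: List.ofFn (fun i => b i.succ) := List.ofFn_succ
    have h00 := habs 0
    obtain ⟨r, h5 | ⟨h5a, h5⟩⟩ := hs.head
    · rw [e2] at h5
      injection h5 with h6 h7
      omega
    · rw [e2] at h5
      injection h5 with h6 h7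
      have := (sign_abs (hne 0)).1
      omega
  · have := hs.eqv
    rw [← e1] at this
    exact this
  · have e2 : List.ofFn b = b 0 :: List.ofFn (fun i => b i.succ) := List.ofFn_succ
    obtain ⟨r, h5 | ⟨h5a, h5⟩⟩ := hs.head
    · rw [e2] at h5
      injection h5 with h6 h7
      rw [h6]
      exact hp0
    · rw [e2] at h5
      injection h5 with h6 h7
      rw [h6, Int.sign_eq_one_of_pos hp0]
      omega

end Pool.Agent.Work.MP_b30479_gtS.G2

end

section

/-!
# The complexified volume conjecture (ratio form) for two-bridge links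
-/

namespace Pool.Agent.Work.MP_b30479_gtS.G2

open Finset VOL Filter Topology
open Pool.Agent.Work.MP_b30479_gtS.LT

/-- the saddle point of a word -/
def HSad {M : ℕ} (b : Fin (M + 2) → ℤ) : Prop :=
  ∃ (t : Fin (M + 2) → Typ) (P : Par (DD (M := M + 1) t))
    (nb : Finset (DD (M := M + 1) t) → Finset (DD (M := M + 1) t ⊕ ZZ (M := M + 1) t))
    (z : DD (M := M + 1) t ⊕ ZZ (M := M + 1) t → ℂ),
    Sadl (wdat (M := M + 1) t b) P nb z ∧ GTyp b t ∧ GNv b t z ∧ UPos b (gU b t z)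

lemma Ci.symm {x y : ℂ} (h : Ci x y) : Ci y x := by
  obtain ⟨k, hk⟩ := h
  exact ⟨-k, by push_cast; linear_combination -hk⟩

lemma Ci.trans {x y z : ℂ} (h : Ci x y) (h' : Ci y z) : Ci x z := by
  obtain ⟨k, hk⟩ := h
  obtain ⟨l, hl⟩ := h'
  exact ⟨k + l, by push_cast; linear_combination hk + hl⟩

section
variable {M : ℕ} {b : Fin (M + 2) → ℤ} {t : Fin (M + 2) → Typ}
  {z : DD (M := M + 1) t ⊕ ZZ (M := M + 1) t → ℂ}

lemma cvT_re : (cvT b t z).re = 2 * Real.pi * ((wdat (M := M + 1) t b).T z).re := by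
  unfold cvT
  have e : Real.pi ^ 2 * Complex.I / 2 * ∑ v : ZZ (M := M + 1) t, (b v.1 : ℂ) =
      ((Real.pi ^ 2 / 2 * ∑ v : ZZ (M := M + 1) t, (b v.1 : ℝ) : ℝ) : ℂ) * Complex.I := by
    push_cast
    ring
  rw [e, Complex.sub_re, Complex.re_ofReal_mul]
  simp only [Complex.I_re, mul_zero, sub_zero]
  rw [show (2 * (Real.pi : ℂ)) = ((2 * Real.pi : ℝ) : ℂ) by push_cast; rfl, Complex.re_ofReal_mul]

lemma cvT_exp : Complex.exp (cvT b t z / Real.pi) =
    (∏ i, rph (t i) (b i)) * Complex.exp (2 * (wdat (M := M + 1) t b).T z) := by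
  have hp : (Real.pi : ℂ) ≠ 0 := by exact_mod_cast Real.pi_ne_zero
  have e1 : cvT b t z / Real.pi = ∑ i, (if t i = .ring then -(Real.pi * Complex.I / 2) * b i else 0) +
      2 * (wdat (M := M + 1) t b).T z := by
    unfold cvT
    rw [sum_ZZ (t := t) (fun i => (b i : ℂ))]
    have : ∑ i, (if t i = .ring then -(Real.pi * Complex.I / 2) * (b i : ℂ) else 0) =
        -(Real.pi * Complex.I / 2) * ∑ i, (if t i = .ring then (b i : ℂ) else 0) := by
      rw [mul_sum]
      refine sum_congr rfl fun i _ => ?_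
      split_ifs <;> ring
    rw [this]
    field_simp
    ring
  rw [e1, Complex.exp_add, Complex.exp_sum]
  congr 1
  refine prod_congr rfl fun i _ => ?_
  have h : (t i).isRing = true ↔ t i = .ring := by cases t i <;> simp [Typ.isRing]
  unfold rph
  by_cases h1 : t i = .ring
  · rw [if_pos h1, if_pos (h.mpr h1), mul_comm, Complex.exp_int_mul]
    congr 1
    rw [show -(Real.pi * Complex.I / 2) = -(Real.pi / 2 * Complex.I) by ring, Complex.exp_neg,
      Complex.exp_pi_div_two_mul_I, Complex.inv_I]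
  · rw [if_neg h1, if_neg fun h2 => h1 (h.mp h2), Complex.exp_zero]

end

lemma glueN_vol {M : ℕ} {b : Fin (M + 2) → ℤ} {Y : Fin (M + 1) → ℂ} {U : Fin (M + 2) → ℕ → ℂ} {y : ℂ}
    (h : GlueN (M + 1) (xt 1 b) (xt 1 Y) (xt (fun _ => 1) U))
    (hy : (1 - xt (fun _ => 1) U 0 1) * (1 - (xt (fun _ => 1) U 0 0)⁻¹) = y ^ 2) :
    vsum (Lys 2 y 0 (Complex.I * y) (dig (xt 1 b) 0 (M + 1))) = swVol b Y U := by
  have h1 := h.vol hy
  have h2 : vsum (Lys 2 y 0 (Complex.I * y) (dig (xt 1 b) 0 (M + 1))) = vsum (LS' (xt 1 b) y 2 0 (M + 1)) := rfl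
  rw [h2, h1, swVol]
  congr 1
  · rw [sum_range]
    exact sum_congr rfl fun j _ => by rw [xt_eq]
  · rw [sum_range]
    refine sum_congr rfl fun i _ => ?_
    unfold lett
    rw [xt_eq, xt_eq]
    have e : nlN (M + 1) (xt 1 b) i = nlet b i := by
      unfold nlN nlet
      rw [xt_eq]
      have e : ((i : ℕ) = 0 ∨ (i : ℕ) = M + 1) ↔ (i = 0 ∨ i = Fin.last (M + 1)) := by
        rw [Fin.ext_iff, Fin.ext_iff]
        rfl
      by_cases hc : (i : ℕ) = 0 ∨ (i : ℕ) = M + 1
      · rw [if_pos hc, if_pos (e.mp hc)]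
      · rw [if_neg hc, if_neg (fun h => hc (e.mpr h))]
    rw [e]

/-- the theorem, from the saddle point of the merged word -/
theorem pub_of {M : ℕ} (a : Fin (M + 2) → ℕ) (H : ∀ (K : ℕ) (b : Fin (K + 2) → ℤ),
      ClassW (M := K + 1) b → 0 < b 0 → List.ofFn b = mg (List.ofFn (altf (M := M + 1) a)) → HSad b)
    (ha : ∀ i, 1 ≤ a i) (h0 : 2 ≤ a 0) (hl : 2 ≤ a (Fin.last (M + 1))) :
    ∃ (p : Fin (M + 2) → ℂ) (q : Fin (M + 2) → ℕ → ℂ), Markoff a p q ∧ SWPos a p q ∧
      (∃ P Q, SWLog a p q P Q) ∧ 0 < swVolume a p q ∧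
      ∃ V : ℂ, V.re = swVolume a p q ∧
      (∀ P Q, SWLog a p q P Q → ∃ k : ℤ, V - swCV a p q P Q = Real.pi ^ 2 * Complex.I * k) ∧
      (∃ δ, IsOrientation (ltWord (List.ofFn (altf (M := M + 1) a))) δ) ∧
      ∀ δ, IsOrientation (ltWord (List.ofFn (altf (M := M + 1) a))) δ →
        (∀ᶠ s : ℕ in atTop, twoBridgeKashaev (ltWord (List.ofFn (altf (M := M + 1) a))) δ (2 * s + 1) ≠ 0) ∧
        Tendsto (fun s : ℕ => twoBridgeKashaev (ltWord (List.ofFn (altf (M := M + 1) a))) δ (2 * s + 3) /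
          twoBridgeKashaev (ltWord (List.ofFn (altf (M := M + 1) a))) δ (2 * s + 1)) atTop
          (𝓝 (Complex.exp (V / Real.pi))) ∧
        Tendsto (fun s : ℕ => Real.pi *
          Real.log ‖twoBridgeKashaev (ltWord (List.ofFn (altf (M := M + 1) a))) δ (2 * s + 3) /
            twoBridgeKashaev (ltWord (List.ofFn (altf (M := M + 1) a))) δ (2 * s + 1)‖) atTop
          (𝓝 (swVolume a p q)) := by
  obtain ⟨K, b, hK, hW, hE, hmg, hAL, hb0⟩ := words_mg (M := M + 1) (by omega) a ha h0 hl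
  obtain ⟨K, rfl⟩ : ∃ K', K = K' + 1 := ⟨K - 1, by omega⟩
  obtain ⟨t, P, nb, z, hS, hT, hN, hU⟩ := H K b hW hb0 hmg
  have hin := hS.inner
  have hc := hS.crit
  have hG := geo_glue hT hin hc hN
  have hstrip : ∀ j : Fin (K + 1), z (.inl (.inl j)) ∈ strip := by
    intro j
    have h1 := hS.par (.inl j)
    have h2 := hS.flatD (.inl j)
    exact ⟨by linarith [h1.2.2.1, h2.1], by linarith [h1.2.1, h1.2.2.2.1, h2.2]⟩
  have hY0 : ∀ j, gY t z j ≠ 0 := fun j => Complex.exp_ne_zero _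
  have hY1 : ∀ j, gY t z j ≠ 1 := fun j h => one_sub_ee_ne0 (hstrip j) (by
    have : LT.ee (z (.inl (.inl j))) = 1 := h
    rw [this, sub_self])
  have hGN := glueN_of hG hW.ne hW.first hW.last hY0 hY1 hU
  obtain ⟨y, hy⟩ := IsAlgClosed.exists_pow_nat_eq
    ((1 - xt (fun _ => 1) (gU b t z) 0 1) * (1 - (xt (fun _ => 1) (gU b t z) 0 0)⁻¹)) (n := 2) (by norm_num)
  have hy' := hy.symm
  have f1 : fin y 0 (Complex.I * y) (List.ofFn b) = 0 := by
    rw [ofFn_dig]
    exact hGN.fin_eq hy'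
  have f2 : ∀ x ∈ Lys 2 y 0 (Complex.I * y) (List.ofFn b), 0 < (zL x).im := by
    rw [ofFn_dig]
    exact hGN.pos_all hy'
  have f3 : vsum (Lys 2 y 0 (Complex.I * y) (List.ofFn b)) = swVol b (gY t z) (gU b t z) := by
    rw [ofFn_dig]
    exact glueN_vol hGN hy'
  -- the original word
  have e1 : List.ofFn (altf (M := M + 1) a) = altf (M := M + 1) a 0 ::
      List.ofFn (fun i : Fin (M + 1) => altf (M := M + 1) a i.succ) := List.ofFn_succ
  have ha0 : 2 ≤ (altf (M := M + 1) a 0).natAbs := by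
    rw [altf_natAbs]
    exact h0
  have hlst : 2 ≤ (lst (List.ofFn (altf (M := M + 1) a))).natAbs := by
    rw [lst_ofFn, altf_natAbs]
    exact hl
  have hm := Lys_mg _ _ _ le_rfl (by rw [← e1]; exact hAL) 2 ha0 y 0 (Complex.I * y)
  rw [← e1, ← hmg] at hm
  rw [hm.2] at f1
  rw [hm.1] at f2 f3
  obtain ⟨p, q, hp, hM, hpos, hvol⟩ := markoff_of a ha h0 hl f1 f2
  obtain ⟨P0, Q0, hL0, hC0⟩ := swCV_alt ha h0 hl hM hpos
  have hmgC := cvL_mg (x := altf (M := M + 1) a 0)
    (l := List.ofFn (fun i : Fin (M + 1) => altf (M := M + 1) a i.succ)) (by rw [← e1]; exact hAL) ha0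
    (by rw [← e1]; exact hlst) y
  rw [← e1, ← hmg] at hmgC
  rw [hp] at hC0
  have hV := cvT_cvL hT hin hc hN hGN hy' hb0
  have hre : (cvT b t z).re = swVolume a p q := by
    rw [cvT_re, geo_vol hT hin hc hN, ← f3, hvol]
  refine ⟨p, q, hM, hpos, ⟨P0, Q0, hL0⟩, swVolume_pos h0 hpos, cvT b t z, hre, fun P Q hL =>
    ((hV.trans hmgC).trans hC0.symm).trans (swCV_indep ha h0 hl hM hpos hL0 hL),
    TB.exists_orientation _, fun δ hδ => ?_⟩
  have hO := hE.kashaev (by simp) (by simp) δ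
  have hδ' := hO.1.mp hδ
  obtain ⟨m1, m2, m3⟩ := main_of_saddle (M := K + 1) t hT.ok hS hδ'
  have hK : ∀ s : ℕ, 1 ≤ s → twoBridgeKashaev (ltWord (List.ofFn (altf (M := M + 1) a))) δ (2 * s + 1) =
      twoBridgeKashaev (ltWord (List.ofFn b)) δ (2 * s + 1) := hO.2 hδ
  have hK3 : ∀ s : ℕ, twoBridgeKashaev (ltWord (List.ofFn (altf (M := M + 1) a))) δ (2 * s + 3) =
      twoBridgeKashaev (ltWord (List.ofFn b)) δ (2 * s + 3) := fun s => hK (s + 1) (by omega)
  refine ⟨?_, ?_, ?_⟩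
  · filter_upwards [m1, eventually_ge_atTop 1] with s h1 h2
    rw [hK s h2]
    exact h1
  · rw [cvT_exp]
    refine m2.congr' ?_
    filter_upwards [eventually_ge_atTop 1] with s h2
    rw [hK s h2, hK3 s]
  · rw [← hre, cvT_re]
    refine m3.congr' ?_
    filter_upwards [eventually_ge_atTop 1] with s h2
    rw [hK s h2, hK3 s]

end Pool.Agent.Work.MP_b30479_gtS.G2

end

section

/-!
# The complexified volume conjecture for two-bridge links, from the saddle point data of all words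
-/

namespace Pool.Agent.Work.MP_b30479_gtS.G2

open Finset VOL Filter Topology
open Pool.Agent.Work.MP_b30479_gtS.LT

/-- the theorem, from the saddle point data of all words -/
theorem pub_hsad (H : ∀ (K : ℕ) (b : Fin (K + 2) → ℤ), ClassW (M := K + 1) b → HSad b) {M : ℕ}
    (a : Fin (M + 2) → ℕ) (ha : ∀ i, 1 ≤ a i) (h0 : 2 ≤ a 0) (hl : 2 ≤ a (Fin.last (M + 1))) :
    ∃ (p : Fin (M + 2) → ℂ) (q : Fin (M + 2) → ℕ → ℂ), Markoff a p q ∧ SWPos a p q ∧
      (∃ P Q, SWLog a p q P Q) ∧ 0 < swVolume a p q ∧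
      ∃ V : ℂ, V.re = swVolume a p q ∧
      (∀ P Q, SWLog a p q P Q → ∃ k : ℤ, V - swCV a p q P Q = Real.pi ^ 2 * Complex.I * k) ∧
      (∃ δ, IsOrientation (ltWord (List.ofFn (altf (M := M + 1) a))) δ) ∧
      ∀ δ, IsOrientation (ltWord (List.ofFn (altf (M := M + 1) a))) δ →
        (∀ᶠ s : ℕ in atTop, twoBridgeKashaev (ltWord (List.ofFn (altf (M := M + 1) a))) δ (2 * s + 1) ≠ 0) ∧
        Tendsto (fun s : ℕ => twoBridgeKashaev (ltWord (List.ofFn (altf (M := M + 1) a))) δ (2 * s + 3) /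
          twoBridgeKashaev (ltWord (List.ofFn (altf (M := M + 1) a))) δ (2 * s + 1)) atTop
          (𝓝 (Complex.exp (V / Real.pi))) ∧
        Tendsto (fun s : ℕ => Real.pi *
          Real.log ‖twoBridgeKashaev (ltWord (List.ofFn (altf (M := M + 1) a))) δ (2 * s + 3) /
            twoBridgeKashaev (ltWord (List.ofFn (altf (M := M + 1) a))) δ (2 * s + 1)‖) atTop
          (𝓝 (swVolume a p q)) :=
  pub_of a (fun K b hb _ _ => H K b hb) ha h0 hl

end Pool.Agent.Work.MP_b30479_gtS.G2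

end
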